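import Pool.Agent.Q206.Asy.DecMain

/-!
# Computability of coding and decoding
-/

namespace Q206.Asy

open Encodable Q206.Ioe Q206.Gam

variable {α : Type*} [Primcodable α]

/-- look up a list -/
def lk (L : List ℕ) (i : ℕ) : ℕ := L.getD i 0

theorem primrec_lk {L : α → List ℕ} {i : α → ℕ} (hL : Primrec L) (hi : Primrec i) :
    Primrec (fun a => lk (L a) (i a)) := (Primrec.list_getD 0).comp hL hi

theorem primrec_filter_len {R : ℕ → α → Prop} [∀ x a, Decidable (R x a)] (hR : PrimrecRel R)
    {N : α → ℕ} (hN : Primrec N) :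
    Primrec (fun a => ((List.range (N a)).filter (fun x => decide (R x a))).length) :=
  Primrec.list_length.comp (hR.listFilter.comp (Primrec.list_range.comp hN) Primrec.id)

theorem primrec_findIdx {R : α → ℕ → Prop} [∀ a x, Decidable (R a x)] (hR : PrimrecRel R)
    {N : α → ℕ} (hN : Primrec N) :
    Primrec (fun a => (List.range (N a)).findIdx (fun x => decide (R a x))) := by
  refine Primrec.list_findIdx (Primrec.list_range.comp hN) ?_
  exact hR.decide

theorem primrec_unpair1 {f : α → ℕ} (hf : Primrec f) : Primrec (fun a => (f a).unpair.1) :=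
  Primrec.fst.comp (Primrec.unpair.comp hf)

theorem primrec_unpair2 {f : α → ℕ} (hf : Primrec f) : Primrec (fun a => (f a).unpair.2) :=
  Primrec.snd.comp (Primrec.unpair.comp hf)

theorem primrec_ej {f : α → ℕ} (hf : Primrec f) : Primrec (fun a => ej (f a)) := by
  unfold ej
  exact primrec_unpair1 (Primrec.nat_div.comp (Primrec.nat_sub.comp hf (Primrec.const 2))
    (Primrec.const 3))

theorem primrec_ek {f : α → ℕ} (hf : Primrec f) : Primrec (fun a => ek (f a)) := by
  unfold ek
  exact primrec_unpair2 (Primrec.nat_div.comp (Primrec.nat_sub.comp hf (Primrec.const 2))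
    (Primrec.const 3))

theorem primrec_ec {f : α → ℕ} (hf : Primrec f) : Primrec (fun a => ec (f a)) := by
  unfold ec
  exact Primrec.nat_sub.comp hf (Primrec.nat_mul.comp (Primrec.const 2) (primrec_ej hf))

theorem primrec_lev {f g : α → ℕ} (hf : Primrec f) (hg : Primrec g) :
    Primrec (fun a => lev (f a) (g a)) := by
  unfold lev
  exact primrec_addc (Primrec.nat_mul.comp (Primrec.const 3) (Primrec₂.natPair.comp hf hg)) 2

theorem primrec_ip' {c w z : α → ℕ} (hc : Primrec c) (hw : Primrec w) (hz : Primrec z) :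
    Primrec (fun a => ip (c a) (w a) (z a)) :=
  primrec_ip.comp (Primrec.pair (Primrec.pair hc hw) hz)

theorem primrec_Tc {L : α → List ℕ} {j k : α → ℕ} (hL : Primrec L) (hj : Primrec j)
    (hk : Primrec k) : Primrec (fun a => Tc (lk (L a)) (j a) (k a)) := by
  unfold Tc
  apply primrec_filter_len (R := fun n a => lk (L a) (2 ^ j a + n) < k a)
  · exact Primrec.nat_lt.comp (primrec_lk (hL.comp Primrec.snd)
      (Primrec.nat_add.comp (primrec_2pow (hj.comp Primrec.snd)) Primrec.fst))
      (hk.comp Primrec.snd)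
  · exact primrec_2pow hj

theorem primrec_cont {L : α → List ℕ} {j k n t : α → ℕ} (hL : Primrec L) (hj : Primrec j)
    (hk : Primrec k) (hn : Primrec n) (ht : Primrec t) :
    Primrec (fun a => cont (lk (L a)) (j a) (k a) (n a) (t a)) := by
  unfold cont
  refine Primrec.ite (Primrec.nat_lt.comp ht (primrec_Tc hL hj hk)) (Primrec.const 0) ?_
  exact Primrec.nat_add.comp (Primrec.const 1) (Primrec.nat_min.comp
    (primrec_lk hL (Primrec.nat_add.comp (primrec_2pow hj) hn)) (primrec_addc hk 1))

theorem primrec_Ab {L : α → List ℕ} {x : α → ℕ} (hL : Primrec L) (hx : Primrec x) :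
    Primrec (fun a => Ab (lk (L a)) (x a)) := by
  unfold Ab
  have hm : Primrec (fun a => Nat.log 2 (x a)) := (primrec_log (by norm_num)).comp hx
  have hr : Primrec (fun a => x a - 2 ^ Nat.log 2 (x a)) := Primrec.nat_sub.comp hx (primrec_2pow hm)
  have hc : Primrec (fun a => ec (Nat.log 2 (x a))) := primrec_ec hm
  have hj : Primrec (fun a => ej (Nat.log 2 (x a))) := primrec_ej hm
  have hk : Primrec (fun a => ek (Nat.log 2 (x a))) := primrec_ek hm
  have hq : Primrec (fun a => (x a - 2 ^ Nat.log 2 (x a)) / 2 ^ ec (Nat.log 2 (x a))) :=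
    Primrec.nat_div.comp hr (primrec_2pow hc)
  exact Primrec.nat_mod.comp (primrec_ip' hc (primrec_cont hL hj hk
    (Primrec.nat_div.comp hq (primrec_2pow hj)) (Primrec.nat_mod.comp hq (primrec_2pow hj)))
    (Primrec.nat_mod.comp hr (primrec_2pow hc))) (Primrec.const 2)

theorem primrec_ones {L : α → List ℕ} {m : α → ℕ} (hL : Primrec L) (hm : Primrec m) :
    Primrec (fun a => ones (lk (L a)) (m a)) := by
  unfold ones
  apply primrec_filter_len (R := fun r a => lk (L a) (2 ^ m a + r) = 1)
  · exact Primrec.eq.comp (primrec_lk (hL.comp Primrec.snd)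
      (Primrec.nat_add.comp (primrec_2pow (hm.comp Primrec.snd)) Primrec.fst)) (Primrec.const 1)
  · exact primrec_2pow hm

theorem primrec_Qd {L : α → List ℕ} {i j k : α → ℕ} (hL : Primrec L) (hi : Primrec i)
    (hj : Primrec j) (hk : Primrec k) :
    PrimrecPred (fun a => Qd (lk (L a)) (i a) (j a) (k a)) := by
  unfold Qd
  exact Primrec.nat_le.comp (Primrec.nat_mul.comp (primrec_2pow (primrec_addc hi 1))
    (primrec_ones hL (primrec_lev hj hk))) (primrec_2pow (primrec_lev hj hk))

theorem primrec_kk {L : α → List ℕ} {i j K : α → ℕ} (hL : Primrec L) (hi : Primrec i)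
    (hj : Primrec j) (hK : Primrec K) :
    Primrec (fun a => kk (lk (L a)) (i a) (j a) (K a)) := by
  unfold kk
  apply primrec_findIdx (R := fun a k => Qd (lk (L a)) (i a) (j a) k)
  · exact primrec_Qd (hL.comp Primrec.fst) (hi.comp Primrec.fst) (hj.comp Primrec.fst)
      Primrec.snd
  · exact primrec_addc hK 1

theorem primrec_iff_not {p q : α → Prop} (hp : PrimrecPred p) (hq : PrimrecPred q) :
    PrimrecPred (fun a => ¬ (p a ↔ q a)) := by
  refine ((hp.and hq.not).or (hp.not.and hq)).of_eq ?_
  intro a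
  by_cases h1 : p a <;> by_cases h2 : q a <;> simp [h1, h2]

theorem primrec_mis {L : α → List ℕ} {i j k n w : α → ℕ} (hL : Primrec L) (hi : Primrec i)
    (hj : Primrec j) (hk : Primrec k) (hn : Primrec n) (hw : Primrec w) :
    Primrec (fun a => mis (lk (L a)) (i a) (j a) (k a) (n a) (w a)) := by
  unfold mis
  apply primrec_filter_len (R := fun s a => ¬ (ip (ec (lev (j a) (k a))) (w a)
    (s % 2 ^ ec (lev (j a) (k a))) % 2 = 1 ↔
      lk (L a) (2 ^ lev (j a) (k a) + (n a * 2 ^ (j a + ec (lev (j a) (k a))) +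
        ((2 ^ j a - 2 ^ (j a - i a - 1)) * 2 ^ ec (lev (j a) (k a)) + s))) = 1))
  · have hl : Primrec (fun p : ℕ × α => lev (j p.2) (k p.2)) :=
      primrec_lev (hj.comp Primrec.snd) (hk.comp Primrec.snd)
    have hc : Primrec (fun p : ℕ × α => ec (lev (j p.2) (k p.2))) := primrec_ec hl
    have hj' : Primrec (fun p : ℕ × α => j p.2) := hj.comp Primrec.snd
    have hw' : Primrec (fun p : ℕ × α => w p.2) := hw.comp Primrec.snd
    have hn' : Primrec (fun p : ℕ × α => n p.2) := hn.comp Primrec.snd
    have hd : Primrec (fun p : ℕ × α => 2 ^ j p.2 - 2 ^ (j p.2 - i p.2 - 1)) :=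
      Primrec.nat_sub.comp (primrec_2pow hj') (primrec_2pow (Primrec.nat_sub.comp
        (Primrec.nat_sub.comp hj' (hi.comp Primrec.snd)) (Primrec.const 1)))
    apply primrec_iff_not
    · exact Primrec.eq.comp (Primrec.nat_mod.comp (primrec_ip' hc hw'
        (Primrec.nat_mod.comp Primrec.fst (primrec_2pow hc))) (Primrec.const 2)) (Primrec.const 1)
    · refine Primrec.eq.comp (primrec_lk (hL.comp Primrec.snd) ?_) (Primrec.const 1)
      exact Primrec.nat_add.comp (primrec_2pow hl) (Primrec.nat_add.comp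
        (Primrec.nat_mul.comp hn' (primrec_2pow (Primrec.nat_add.comp hj' hc)))
        (Primrec.nat_add.comp (Primrec.nat_mul.comp hd (primrec_2pow hc)) Primrec.fst))
  · exact Primrec.nat_mul.comp (primrec_2pow (Primrec.nat_sub.comp
        (Primrec.nat_sub.comp hj hi) (Primrec.const 1)))
        (primrec_2pow (primrec_ec (primrec_lev hj hk)))

theorem primrec_dw {L : α → List ℕ} {i j k n : α → ℕ} (hL : Primrec L) (hi : Primrec i)
    (hj : Primrec j) (hk : Primrec k) (hn : Primrec n) :
    Primrec (fun a => dw (lk (L a)) (i a) (j a) (k a) (n a)) := by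
  unfold dw
  apply primrec_findIdx (R := fun a w => 4 * mis (lk (L a)) (i a) (j a) (k a) (n a) w <
    2 ^ (j a - i a - 1) * 2 ^ ec (lev (j a) (k a)))
  · have hj' : Primrec (fun p : α × ℕ => j p.1) := hj.comp Primrec.fst
    have hi' : Primrec (fun p : α × ℕ => i p.1) := hi.comp Primrec.fst
    have hk' : Primrec (fun p : α × ℕ => k p.1) := hk.comp Primrec.fst
    exact Primrec.nat_lt.comp (Primrec.nat_mul.comp (Primrec.const 4)
      (primrec_mis (hL.comp Primrec.fst) hi' hj' hk' (hn.comp Primrec.fst) Primrec.snd))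
      (Primrec.nat_mul.comp (primrec_2pow (Primrec.nat_sub.comp
        (Primrec.nat_sub.comp hj' hi') (Primrec.const 1)))
        (primrec_2pow (primrec_ec (primrec_lev hj' hk'))))
  · exact primrec_addc hk 3

theorem primrec_kn {L : α → List ℕ} {i j K n : α → ℕ} (hL : Primrec L) (hi : Primrec i)
    (hj : Primrec j) (hK : Primrec K) (hn : Primrec n) :
    Primrec (fun a => kn (lk (L a)) (i a) (j a) (K a) (n a)) := by
  unfold kn
  have hk := primrec_kk hL hi hj hK
  have hd := primrec_dw hL hi hj (Primrec.nat_sub.comp hk (Primrec.const 1)) hn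
  exact Primrec.ite (PrimrecPred.and (Primrec.nat_le.comp (Primrec.const 1) hk)
    (Primrec.nat_le.comp hd hk)) hd (Primrec.const 0)

theorem primrec_gd {L : α → List ℕ} {K x : α → ℕ} (hL : Primrec L) (hK : Primrec K)
    (hx : Primrec x) : Primrec (fun a => gd (lk (L a)) (K a) (x a)) := by
  unfold gd
  have hm : Primrec (fun a => Nat.log 2 (x a)) := (primrec_log (by norm_num)).comp hx
  have hr : Primrec (fun a => x a - 2 ^ Nat.log 2 (x a)) := Primrec.nat_sub.comp hx (primrec_2pow hm)
  refine Primrec.nat_sub.comp (primrec_kn hL ?_ hm hK hr) (Primrec.const 1)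
  apply primrec_findIdx (R := fun a i => 1 ≤ i ∧ kn (lk (L a)) i (Nat.log 2 (x a)) (K a)
    (x a - 2 ^ Nat.log 2 (x a)) ≠ 0)
  · refine PrimrecPred.and (Primrec.nat_le.comp (Primrec.const 1) Primrec.snd) ?_
    refine PrimrecPred.not (Primrec.eq.comp ?_ (Primrec.const 0))
    exact primrec_kn (hL.comp Primrec.fst) Primrec.snd (hm.comp Primrec.fst)
      (hK.comp Primrec.fst) (hr.comp Primrec.fst)
  · exact hm

end Q206.Asy
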