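import Pool.Agent.Q206.Asy.Defs

/-!
# The Baire category argument
-/

namespace Q206.Asy

open Filter Topology MeasureTheory

/-! ### Changing finitely many values -/

/-- exchange the values `a` and `b` at the argument `n` -/
def sw (n a b : ℕ) (g : ℕ → ℕ) : ℕ → ℕ := Function.update g n (Equiv.swap a b (g n))

theorem sw_sw (n a b : ℕ) (g : ℕ → ℕ) : sw n a b (sw n a b g) = g := by
  unfold sw
  simp

theorem continuous_sw (n a b : ℕ) : Continuous (sw n a b) := by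
  unfold sw
  refine Continuous.update continuous_id n ?_
  exact (continuous_of_discreteTopology (f := fun x => Equiv.swap a b x)).comp (continuous_apply n)

/-- exchange as a homeomorphism -/
def swHomeo (n a b : ℕ) : (ℕ → ℕ) ≃ₜ (ℕ → ℕ) where
  toFun := sw n a b
  invFun := sw n a b
  left_inv := sw_sw n a b
  right_inv := sw_sw n a b
  continuous_toFun := continuous_sw n a b
  continuous_invFun := continuous_sw n a b

/-- a list of exchanges -/
def act : List (ℕ × ℕ × ℕ) → (ℕ → ℕ) → (ℕ → ℕ)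
  | [], g => g
  | t :: l, g => sw t.1 t.2.1 t.2.2 (act l g)

theorem act_residual (l : List (ℕ × ℕ × ℕ)) (R : Set (ℕ → ℕ)) (hR : R ∈ residual (ℕ → ℕ)) :
    (act l) ⁻¹' R ∈ residual (ℕ → ℕ) := by
  induction l generalizing R with
  | nil => exact hR
  | cons t l ih =>
    have h1 : (sw t.1 t.2.1 t.2.2) ⁻¹' R ∈ residual (ℕ → ℕ) := by
      have := (swHomeo t.1 t.2.1 t.2.2).residual_map_eq
      have h2 : R ∈ (residual (ℕ → ℕ)).map (swHomeo t.1 t.2.1 t.2.2) := by rw [this]; exact hR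
      exact h2
    exact ih _ h1

theorem exists_act (T : Finset ℕ) (g u : ℕ → ℕ) :
    ∃ l, act l g = fun n => if n ∈ T then u n else g n := by
  induction T using Finset.induction_on with
  | empty => exact ⟨[], by simp [act]⟩
  | insert a T ha ih =>
    obtain ⟨l, hl⟩ := ih
    refine ⟨(a, g a, u a) :: l, ?_⟩
    funext n
    simp only [act, hl, sw]
    by_cases hn : n = a
    · subst hn
      simp [ha]
    · simp [hn, Function.update_of_ne]

/-! ### The canonical description -/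

/-- undefined arguments of `V g Z` (only the values `0` and `1` count) -/
def undef (V : (ℕ → ℕ) → Finset ℕ → Set (ℕ × ℕ)) (g : ℕ → ℕ) (Z : Finset ℕ) : Set ℕ :=
  {x | ¬ ((x, 0) ∈ V g Z ∨ (x, 1) ∈ V g Z)}

/-- hidden arguments up to stage `i` -/
def Zs (H : ℕ → Finset ℕ) (i : ℕ) : Finset ℕ := (Finset.range (i + 1)).biUnion H

/-- from level `K` on at most the proportion `2 ^ (- i)` is undefined -/
def PK (V : (ℕ → ℕ) → Finset ℕ → Set (ℕ × ℕ)) (H : ℕ → Finset ℕ) (i : ℕ) (g : ℕ → ℕ) (K : ℕ) :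
    Prop := ∀ m ≥ K, 2 ^ i * cntL (undef V g (Zs H i)) m ≤ 2 ^ m

theorem exists_Kf (V : (ℕ → ℕ) → Finset ℕ → Set (ℕ × ℕ)) (H : ℕ → Finset ℕ) (i : ℕ) (g : ℕ → ℕ) :
    ∃ K, PK V H i g K ∨ ∀ K', ¬ PK V H i g K' := by
  by_cases h : ∃ K, PK V H i g K
  · obtain ⟨K, hK⟩ := h
    exact ⟨K, Or.inl hK⟩
  · push Not at h
    exact ⟨0, Or.inr h⟩

open Classical in
/-- the least such level -/
noncomputable def Kf (V : (ℕ → ℕ) → Finset ℕ → Set (ℕ × ℕ)) (H : ℕ → Finset ℕ) (i : ℕ)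
    (g : ℕ → ℕ) : ℕ := Nat.find (exists_Kf V H i g)

open Classical in
/-- the stage used on level `m` -/
noncomputable def lam (V : (ℕ → ℕ) → Finset ℕ → Set (ℕ × ℕ)) (H : ℕ → Finset ℕ) (m : ℕ)
    (g : ℕ → ℕ) : ℕ := Nat.findGreatest (fun i => Kf V H i g ≤ m) m

open Classical in
/-- the canonical description, coded: `0` means undefined, `v + 1` means the value `v` -/
noncomputable def Dt (V : (ℕ → ℕ) → Finset ℕ → Set (ℕ × ℕ)) (H : ℕ → Finset ℕ) (g : ℕ → ℕ)
    (x : ℕ) : ℕ :=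
  if (x, 0) ∈ V g (Zs H (lam V H (Nat.log 2 x) g)) then 1
  else if (x, 1) ∈ V g (Zs H (lam V H (Nat.log 2 x) g)) then 2 else 0

variable {V : (ℕ → ℕ) → Finset ℕ → Set (ℕ × ℕ)} {H : ℕ → Finset ℕ}

theorem measurable_Kf (hopen : ∀ Z x v, IsOpen {g | (x, v) ∈ V g Z}) (i : ℕ) :
    Measurable (Kf V H i) := by
  classical
  have m2 : ∀ x, MeasurableSet {g : ℕ → ℕ | x ∈ undef V g (Zs H i)} := by
    intro x
    have : {g : ℕ → ℕ | x ∈ undef V g (Zs H i)} =
        ({g | (x, 0) ∈ V g (Zs H i)} ∪ {g | (x, 1) ∈ V g (Zs H i)})ᶜ := by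
      ext g; simp [undef]
    rw [this]
    exact ((hopen _ _ _).measurableSet.union (hopen _ _ _).measurableSet).compl
  have m3 : ∀ m, Measurable (fun g : ℕ → ℕ => cntL (undef V g (Zs H i)) m) := by
    intro m
    unfold cntL
    simp only [cnt_eq_sum]
    apply Finset.measurable_sum
    intro x _
    exact Measurable.ite (m2 _) measurable_const measurable_const
  have m4 : ∀ K, MeasurableSet {g : ℕ → ℕ | PK V H i g K} := by
    intro K
    have : {g : ℕ → ℕ | PK V H i g K} =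
        ⋂ m : ℕ, ⋂ _ : m ≥ K, {g | 2 ^ i * cntL (undef V g (Zs H i)) m ≤ 2 ^ m} := by
      ext g; simp [PK]
    rw [this]
    refine MeasurableSet.iInter fun m => MeasurableSet.iInter fun _ => ?_
    exact (measurable_of_countable (fun k : ℕ => 2 ^ i * k ≤ 2 ^ m)).comp (m3 m) |>.setOf
  unfold Kf
  refine measurable_find _ ?_
  intro K
  have : {g : ℕ → ℕ | PK V H i g K ∨ ∀ K', ¬ PK V H i g K'} =
      {g | PK V H i g K} ∪ ⋂ K' : ℕ, {g | PK V H i g K'}ᶜ := by
    ext g; simp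
  rw [this]
  exact (m4 K).union (MeasurableSet.iInter fun K' => (m4 K').compl)

theorem measurable_lam (hopen : ∀ Z x v, IsOpen {g | (x, v) ∈ V g Z}) (m : ℕ) :
    Measurable (lam V H m) := by
  classical
  unfold lam
  refine measurable_findGreatest ?_
  intro i _
  exact (measurable_of_countable (fun k : ℕ => k ≤ m)).comp (measurable_Kf hopen i) |>.setOf

theorem measurable_Dt (hopen : ∀ Z x v, IsOpen {g | (x, v) ∈ V g Z}) :
    Measurable (Dt V H) := by
  classical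
  rw [measurable_pi_iff]
  intro x
  have h : ∀ v, MeasurableSet {g : ℕ → ℕ | (x, v) ∈ V g (Zs H (lam V H (Nat.log 2 x) g))} := by
    intro v
    have : {g : ℕ → ℕ | (x, v) ∈ V g (Zs H (lam V H (Nat.log 2 x) g))} =
        ⋃ i : ℕ, ({g | lam V H (Nat.log 2 x) g = i} ∩ {g | (x, v) ∈ V g (Zs H i)}) := by
      ext g; simp
    rw [this]
    refine MeasurableSet.iUnion fun i => MeasurableSet.inter ?_ (hopen _ _ _).measurableSet
    exact (measurable_of_countable (fun k : ℕ => k = i)).comp (measurable_lam hopen _) |>.setOf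
  unfold Dt
  exact Measurable.ite (h 0) measurable_const (Measurable.ite (h 1) measurable_const
    measurable_const)

theorem Dt_le (g : ℕ → ℕ) (x : ℕ) : Dt V H g x < 3 := by
  unfold Dt
  split_ifs <;> norm_num

/-- single-valued relations -/
def SV (R : Set (ℕ × ℕ)) : Prop := ∀ n v v', (n, v) ∈ R → (n, v') ∈ R → v = v'

/-- the set of the functions `g` for which `Ψ` of the canonical description is a single-valued
relation which contains a pair `(n, g n)` with `n ∈ H j` for all large `j` -/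
def Bad (V : (ℕ → ℕ) → Finset ℕ → Set (ℕ × ℕ)) (H : ℕ → Finset ℕ)
    (Ψ : (ℕ → ℕ) → Set (ℕ × ℕ)) (J : ℕ) : Set (ℕ → ℕ) :=
  {g | SV (Ψ (Dt V H g)) ∧ ∀ j ≥ J, ∃ n ∈ H j, (n, g n) ∈ Ψ (Dt V H g)}

theorem measurableSet_Bad (hopen : ∀ Z x v, IsOpen {g | (x, v) ∈ V g Z})
    {Ψ : (ℕ → ℕ) → Set (ℕ × ℕ)} (hΨ : ∀ n v, MeasurableSet {d | (n, v) ∈ Ψ d}) (J : ℕ) :
    MeasurableSet (Bad V H Ψ J) := by
  have hD : ∀ n v, MeasurableSet {g | (n, v) ∈ Ψ (Dt V H g)} := fun n v =>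
    (measurable_Dt hopen) (hΨ n v)
  have h1 : Bad V H Ψ J =
      (⋂ n : ℕ, ⋂ v : ℕ, ⋂ v' : ℕ, {g | (n, v) ∈ Ψ (Dt V H g) → (n, v') ∈ Ψ (Dt V H g) → v = v'}) ∩
      ⋂ j : ℕ, ⋂ _ : j ≥ J, ⋃ n : ℕ, ⋃ _ : n ∈ H j, ⋃ v : ℕ,
        ({g | g n = v} ∩ {g | (n, v) ∈ Ψ (Dt V H g)}) := by
    ext g
    simp [Bad, SV]
  rw [h1]
  refine MeasurableSet.inter ?_ ?_
  · refine MeasurableSet.iInter fun n => MeasurableSet.iInter fun v => MeasurableSet.iInter
      fun v' => ?_
    by_cases hv : v = v'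
    · have : {g : ℕ → ℕ | (n, v) ∈ Ψ (Dt V H g) → (n, v') ∈ Ψ (Dt V H g) → v = v'} = Set.univ := by
        ext g; simp [hv]
      rw [this]
      exact MeasurableSet.univ
    · have : {g : ℕ → ℕ | (n, v) ∈ Ψ (Dt V H g) → (n, v') ∈ Ψ (Dt V H g) → v = v'} =
          ({g | (n, v) ∈ Ψ (Dt V H g)} ∩ {g | (n, v') ∈ Ψ (Dt V H g)})ᶜ := by
        ext g; simp [hv]
      rw [this]
      exact ((hD n v).inter (hD n v')).compl
  · refine MeasurableSet.iInter fun j => MeasurableSet.iInter fun _ => MeasurableSet.iUnion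
      fun n => MeasurableSet.iUnion fun _ => MeasurableSet.iUnion fun v => ?_
    refine MeasurableSet.inter ?_ (hD n v)
    exact (measurable_of_countable (fun k : ℕ => k = v)).comp (measurable_pi_apply n) |>.setOf

/-! ### Independence of the hidden values -/

theorem Kf_congr {i : ℕ} {g g' : ℕ → ℕ} (h : V g (Zs H i) = V g' (Zs H i)) :
    Kf V H i g = Kf V H i g' := by
  have h1 : ∀ K, PK V H i g K ↔ PK V H i g' K := by
    intro K
    unfold PK undef
    rw [h]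
  unfold Kf
  congr 1
  funext K
  simp only [h1]

theorem subset_Zs {j i : ℕ} (h : j ≤ i) : H j ⊆ Zs H i := by
  intro n hn
  unfold Zs
  rw [Finset.mem_biUnion]
  exact ⟨j, Finset.mem_range.2 (by omega), hn⟩

theorem lam_congr {j m : ℕ} {g g' : ℕ → ℕ} (h : ∀ i ≥ j, V g (Zs H i) = V g' (Zs H i))
    (hj : j ≤ m) (hK : Kf V H j g ≤ m) : lam V H m g = lam V H m g' ∧ j ≤ lam V H m g := by
  classical
  have hK' : Kf V H j g' ≤ m := by rw [← Kf_congr (h j le_rfl)]; exact hK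
  have h1 : j ≤ lam V H m g := Nat.le_findGreatest hj hK
  have h2 : j ≤ lam V H m g' := Nat.le_findGreatest hj hK'
  have s1 : Kf V H (lam V H m g) g ≤ m :=
    Nat.findGreatest_spec (P := fun i => Kf V H i g ≤ m) hj hK
  have s2 : Kf V H (lam V H m g') g' ≤ m :=
    Nat.findGreatest_spec (P := fun i => Kf V H i g' ≤ m) hj hK'
  refine ⟨le_antisymm ?_ ?_, h1⟩
  · refine Nat.le_findGreatest (P := fun i => Kf V H i g' ≤ m) (Nat.findGreatest_le m) ?_
    rw [← Kf_congr (h _ h1)]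
    exact s1
  · refine Nat.le_findGreatest (P := fun i => Kf V H i g ≤ m) (Nat.findGreatest_le m) ?_
    rw [Kf_congr (h _ h2)]
    exact s2

theorem Dt_congr {j : ℕ} {g g' : ℕ → ℕ} (h : ∀ i ≥ j, V g (Zs H i) = V g' (Zs H i)) {x : ℕ}
    (hx : 2 ^ (max j (Kf V H j g)) ≤ x) : Dt V H g x = Dt V H g' x := by
  have hm : max j (Kf V H j g) ≤ Nat.log 2 x := Nat.le_log_of_pow_le (by norm_num) hx
  obtain ⟨h1, h2⟩ := lam_congr h ((le_max_left _ _).trans hm) ((le_max_right _ _).trans hm)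
  unfold Dt
  rw [← h1, h _ h2]

/-! ### The theorem -/

theorem core (hopen : ∀ Z x v, IsOpen {g | (x, v) ∈ V g Z})
    (hoff : ∀ Z g g', (∀ n, n ∉ Z → g n = g' n) → V g Z = V g' Z)
    (hH : ∀ N, ∃ j₀, ∀ j ≥ j₀, ∀ n ∈ H j, N ≤ n)
    {Ψ : (ℕ → ℕ) → Set (ℕ × ℕ)} (hΨ : ∀ n v, MeasurableSet {d | (n, v) ∈ Ψ d}) (J : ℕ) :
    IsMeagre (Bad V H Ψ J) := by
  classical
  by_contra hnm
  obtain ⟨U, hU, hsU⟩ := (measurableSet_Bad (H := H) hopen hΨ J).residualEq_isOpen
  have hne : U.Nonempty := by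
    rw [Set.nonempty_iff_ne_empty]
    intro he
    apply hnm
    rw [he] at hsU
    unfold IsMeagre
    filter_upwards [hsU] with g hg
    intro hgs
    have : g ∈ (∅ : Set (ℕ → ℕ)) := by
      have h3 : (g ∈ Bad V H Ψ J) = (g ∈ (∅ : Set (ℕ → ℕ))) := hg
      rw [← h3]; exact hgs
    exact this
  obtain ⟨g₀, hg₀⟩ := hne
  -- a cylinder inside `U`
  obtain ⟨N, hN⟩ : ∃ N, ∀ g : ℕ → ℕ, (∀ n < N, g n = g₀ n) → g ∈ U := by
    have h1 := (isOpen_pi_iff.1 hU) g₀ hg₀
    obtain ⟨I, u, hu, hsub⟩ := h1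
    refine ⟨I.sup id + 1, fun g hg => hsub ?_⟩
    intro n hn
    have : n ≤ I.sup id := Finset.le_sup (f := id) hn
    rw [hg n (by omega)]
    exact (hu n hn).2
  set R : Set (ℕ → ℕ) := {g | g ∈ U → g ∈ Bad V H Ψ J} with hR
  have hRres : R ∈ residual (ℕ → ℕ) := by
    filter_upwards [hsU] with g hg
    intro hgU
    have h3 : (g ∈ Bad V H Ψ J) = (g ∈ U) := hg
    rw [h3]; exact hgU
  have hR' : (⋂ l : List (ℕ × ℕ × ℕ), (act l) ⁻¹' R) ∈ residual (ℕ → ℕ) :=
    countable_iInter_mem.2 (fun l => act_residual l R hRres)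
  have hdense := dense_of_mem_residual hR'
  -- choose `g` in the cylinder
  have hcyl : IsOpen {g : ℕ → ℕ | ∀ n < N, g n = g₀ n} := by
    have : {g : ℕ → ℕ | ∀ n < N, g n = g₀ n} =
        Set.pi (Finset.range N : Set ℕ) (fun n => {g₀ n}) := by
      ext g; simp [Set.pi]
    rw [this]
    exact isOpen_set_pi (Finset.finite_toSet _) (fun n _ => isOpen_discrete _)
  obtain ⟨g, hgc, hgR⟩ := hdense.exists_mem_open hcyl ⟨g₀, fun n _ => rfl⟩
  rw [Set.mem_iInter] at hgc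
  obtain ⟨j₀, hj₀⟩ := hH N
  set j := max J j₀ with hj
  have hjN := hj₀ j (le_max_right _ _)
  set κ := max j (Kf V H j g) with hκ
  -- modifications of `g` on `H j`
  have hmod : ∀ u : ℕ → ℕ, (fun n => if n ∈ H j then u n else g n) ∈ Bad V H Ψ J := by
    intro u
    obtain ⟨l, hl⟩ := exists_act (H j) g u
    have h1 : act l g ∈ R := hgc l
    rw [hl] at h1
    apply h1
    apply hN
    intro n hn
    have : n ∉ H j := fun h => absurd (hjN n h) (by omega)
    simp only [this, if_false]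
    exact hgR n hn
  have hV : ∀ u : ℕ → ℕ, ∀ i ≥ j, V g (Zs H i) =
      V (fun n => if n ∈ H j then u n else g n) (Zs H i) := by
    intro u i hi
    apply hoff
    intro n hn
    have : n ∉ H j := fun h => hn (subset_Zs hi h)
    simp [this]
  -- the finitely many possible descriptions
  set E : (Fin (2 ^ κ) → Fin 3) → (ℕ → ℕ) := fun τ x =>
    if h : x < 2 ^ κ then (τ ⟨x, h⟩ : ℕ) else Dt V H g x with hE
  have hDE : ∀ u : ℕ → ℕ, ∃ τ, Dt V H (fun n => if n ∈ H j then u n else g n) = E τ := by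
    intro u
    refine ⟨fun x => ⟨Dt V H (fun n => if n ∈ H j then u n else g n) x, Dt_le _ _⟩, ?_⟩
    funext x
    rw [hE]
    by_cases h : x < 2 ^ κ
    · simp [h]
    · simp only [h, dif_neg, not_false_eq_true]
      exact (Dt_congr (hV u) (not_lt.1 h)).symm
  have hfin : ∀ n, {v | ∃ τ, SV (Ψ (E τ)) ∧ (n, v) ∈ Ψ (E τ)}.Finite := by
    intro n
    have : {v | ∃ τ, SV (Ψ (E τ)) ∧ (n, v) ∈ Ψ (E τ)} =
        ⋃ τ, {v | SV (Ψ (E τ)) ∧ (n, v) ∈ Ψ (E τ)} := by
      ext v; simp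
    rw [this]
    refine Set.finite_iUnion fun τ => Set.Subsingleton.finite ?_
    intro v hv v' hv'
    exact hv.1 n v v' hv.2 hv'.2
  choose u hu using fun n => (hfin n).infinite_compl.nonempty
  obtain ⟨τ, hτ⟩ := hDE u
  have hbad := hmod u
  obtain ⟨hsv, hall⟩ := hbad
  obtain ⟨n, hn, hmem⟩ := hall j (le_max_left _ _)
  rw [hτ] at hsv hmem
  simp only [hn, if_true] at hmem
  exact hu n ⟨τ, hsv, hmem⟩

end Q206.Asy
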