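import Pool.Agent.Q206.Asy.EncThm

/-!
# Decoding
-/

namespace Q206.Asy

open Finset Q206.Gam

/-- number of ones on level `m` -/
def ones (y : ℕ → ℕ) (m : ℕ) : ℕ :=
  ((List.range (2 ^ m)).filter (fun r => decide (y (2 ^ m + r) = 1))).length

/-- the level `(j, k)` looks off up to the proportion `2 ^ (- i)` -/
def Qd (y : ℕ → ℕ) (i j k : ℕ) : Prop := 2 ^ (i + 1) * ones y (lev j k) ≤ 2 ^ lev j k

instance (y : ℕ → ℕ) (i j k : ℕ) : Decidable (Qd y i j k) := by unfold Qd; infer_instance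

/-- the first such `k` -/
def kk (y : ℕ → ℕ) (i j K : ℕ) : ℕ := (List.range (K + 1)).findIdx (fun k => decide (Qd y i j k))

/-- number of mismatches of the codeword `w` with `y` on the last rows of the cells of `n` -/
def mis (y : ℕ → ℕ) (i j k n w : ℕ) : ℕ :=
  ((List.range (2 ^ (j - i - 1) * 2 ^ ec (lev j k))).filter (fun s =>
    decide (¬ (ip (ec (lev j k)) w (s % 2 ^ ec (lev j k)) % 2 = 1 ↔
      y (2 ^ lev j k + (n * 2 ^ (j + ec (lev j k)) +
        ((2 ^ j - 2 ^ (j - i - 1)) * 2 ^ ec (lev j k) + s))) = 1)))).length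

/-- the decoded message -/
def dw (y : ℕ → ℕ) (i j k n : ℕ) : ℕ :=
  (List.range (k + 3)).findIdx
    (fun w => decide (4 * mis y i j k n w < 2 ^ (j - i - 1) * 2 ^ ec (lev j k)))

/-- the message of `n` obtained at stage `i`, if it gives a value, and `0` otherwise -/
def kn (y : ℕ → ℕ) (i j K n : ℕ) : ℕ :=
  if 1 ≤ kk y i j K ∧ dw y i j (kk y i j K - 1) n ≤ kk y i j K then
    dw y i j (kk y i j K - 1) n else 0

/-- the decoded value -/
def gd (y : ℕ → ℕ) (K x : ℕ) : ℕ :=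
  kn y ((List.range (Nat.log 2 x)).findIdx
    (fun i => decide (1 ≤ i ∧ kn y i (Nat.log 2 x) K (x - 2 ^ Nat.log 2 x) ≠ 0)))
    (Nat.log 2 x) K (x - 2 ^ Nat.log 2 x) - 1

/-- number of errors on level `m` -/
def err (y a : ℕ → ℕ) (m : ℕ) : ℕ :=
  ∑ r ∈ range (2 ^ m), ind (¬ (y (2 ^ m + r) = 1 ↔ a (2 ^ m + r) = 1))

theorem ones_eq (y : ℕ → ℕ) (m : ℕ) : ones y m = ∑ r ∈ range (2 ^ m), ind (y (2 ^ m + r) = 1) :=
  length_filter_range _ _

theorem ones_le (y a : ℕ → ℕ) (m : ℕ) : ones y m ≤ ones a m + err y a m := by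
  rw [ones_eq, ones_eq, err, ← sum_add_distrib]
  apply sum_le_sum
  intro r _
  unfold ind
  by_cases h1 : y (2 ^ m + r) = 1 <;> by_cases h2 : a (2 ^ m + r) = 1 <;> simp [h1, h2]

theorem err_comm (y a : ℕ → ℕ) (m : ℕ) : err y a m = err a y m := by
  unfold err
  apply sum_congr rfl
  intro r _
  unfold ind
  by_cases h1 : y (2 ^ m + r) = 1 <;> by_cases h2 : a (2 ^ m + r) = 1 <;> simp [h1, h2]

theorem sum_divmod_range (F : ℕ → ℕ → ℕ) (A B : ℕ) (hB : 0 < B) :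
    ∑ x ∈ range (A * B), F (x / B) (x % B) = ∑ a ∈ range A, ∑ b ∈ range B, F a b := by
  rw [sum_mul_range]
  apply sum_congr rfl
  intro a _
  apply sum_congr rfl
  intro b hb
  rw [mul_comm a B, Nat.mul_add_div hB, Nat.div_eq_of_lt (mem_range.1 hb), add_zero,
    Nat.mul_add_mod, Nat.mod_eq_of_lt (mem_range.1 hb)]

theorem lev_eq (j k : ℕ) : lev j k = (j + j) + ec (lev j k) := by
  have := ec_add (lev j k)
  rw [ej_lev] at this
  omega

theorem two_le_lev (j k : ℕ) : 2 ≤ lev j k := by unfold lev; omega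

theorem k_lt (j k : ℕ) : k + 3 ≤ 2 ^ ec (lev j k) := by
  have := ek_lt (lev j k) (two_le_lev j k)
  rwa [ek_lev] at this

theorem Ab_lev (g : ℕ → ℕ) {j k r : ℕ} (hr : r < 2 ^ lev j k) : Ab g (2 ^ lev j k + r) =
    ip (ec (lev j k)) (cont g j k (r / 2 ^ ec (lev j k) / 2 ^ j) (r / 2 ^ ec (lev j k) % 2 ^ j))
      (r % 2 ^ ec (lev j k)) % 2 := by
  rw [Ab_add g hr, ej_lev, ek_lev]

theorem cont_lt (g : ℕ → ℕ) (j k n t : ℕ) : cont g j k n t < 2 ^ ec (lev j k) := by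
  have := k_lt j k
  unfold cont
  split_ifs
  · positivity
  · have : min (g (2 ^ j + n)) (k + 1) ≤ k + 1 := min_le_right _ _
    omega

theorem sum_not_lt (T N : ℕ) : ∑ t ∈ range N, ind (¬ t < T) = N - T := by
  induction N with
  | zero => simp
  | succ N ih =>
    rw [sum_range_succ, ih]
    unfold ind
    split_ifs <;> omega

/-- number of ones of the true code on a level -/
theorem ones_true (g : ℕ → ℕ) (j k : ℕ) :
    2 * ones (Ab g) (lev j k) = (2 ^ j - Tc g j k) * 2 ^ (j + ec (lev j k)) := by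
  set c := ec (lev j k) with hc
  have e1 : 2 ^ lev j k = (2 ^ j * 2 ^ j) * 2 ^ c := by
    rw [← pow_add, ← pow_add, ← lev_eq]
  rw [ones_eq]
  have h1 : ∑ r ∈ range (2 ^ lev j k), ind (Ab g (2 ^ lev j k + r) = 1) =
      ∑ r ∈ range ((2 ^ j * 2 ^ j) * 2 ^ c), (fun s z => ind (ip c (cont g j k (s / 2 ^ j)
        (s % 2 ^ j)) z % 2 = 1)) (r / 2 ^ c) (r % 2 ^ c) := by
    rw [← e1]
    apply sum_congr rfl
    intro r hr
    simp only
    rw [Ab_lev g (mem_range.1 hr)]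
  rw [h1, sum_divmod_range (fun s z => ind (ip c (cont g j k (s / 2 ^ j)
        (s % 2 ^ j)) z % 2 = 1)) _ _ (by positivity), mul_sum]
  have h2 : ∀ s ∈ range (2 ^ j * 2 ^ j), 2 * ∑ z ∈ range (2 ^ c), ind (ip c (cont g j k (s / 2 ^ j)
        (s % 2 ^ j)) z % 2 = 1) = 2 ^ c * ind (¬ (s % 2 ^ j < Tc g j k)) := by
    intro s _
    by_cases h : s % 2 ^ j < Tc g j k
    · have h3 : cont g j k (s / 2 ^ j) (s % 2 ^ j) = 0 := by unfold cont; rw [if_pos h]
      rw [h3]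
      have h4 : ∀ z ∈ range (2 ^ c), ind (ip c 0 z % 2 = 1) = 0 := by
        intro z _; rw [ip_zero]; simp [ind]
      rw [sum_congr rfl h4]
      simp [ind, h]
    · have h3 : cont g j k (s / 2 ^ j) (s % 2 ^ j) ≠ 0 := by
        unfold cont; rw [if_neg h]; omega
      have h5 := two_mul_ones (cont_lt g j k (s / 2 ^ j) (s % 2 ^ j)) h3
      rw [← hc] at h5
      rw [h5]
      simp [ind, h]
  rw [sum_congr rfl h2, ← mul_sum,
    sum_mod_range (fun t => ind (¬ (t < Tc g j k))), sum_not_lt, pow_add]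
  ring

theorem findIdx_spec (P : ℕ → Prop) [DecidablePred P] {N k : ℕ} (hk : k < N) (hP : P k) :
    P ((List.range N).findIdx (fun x => decide (P x))) ∧
      (List.range N).findIdx (fun x => decide (P x)) ≤ k ∧
      ∀ l < (List.range N).findIdx (fun x => decide (P x)), ¬ P l := by
  have h1 : (List.range N).findIdx (fun x => decide (P x)) < (List.range N).length := by
    rw [List.findIdx_lt_length]
    exact ⟨k, List.mem_range.2 hk, by simpa using hP⟩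
  have h2 := List.findIdx_getElem (w := h1)
  simp only [List.getElem_range, decide_eq_true_eq] at h2
  have h3 : ∀ l < (List.range N).findIdx (fun x => decide (P x)), ¬ P l := by
    intro l hl
    have := List.not_of_lt_findIdx hl
    simpa using this
  refine ⟨h2, ?_, h3⟩
  by_contra hcon
  push Not at hcon
  exact h3 k hcon hP

/-! ### Analysis of one stage -/

section Stage

variable {y g : ℕ → ℕ} {j : ℕ}

/-- if the level does not look off then the last rows are on -/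
theorem rows_on {i k : ℕ} (hij : i < j) (hQ : ¬ Qd y i j k)
    (herr : 2 ^ (i + 2) * err y (Ab g) (lev j k) ≤ 2 ^ lev j k) :
    Tc g j k ≤ 2 ^ j - 2 ^ (j - i - 1) := by
  unfold Qd at hQ
  push Not at hQ
  have h1 := ones_le y (Ab g) (lev j k)
  have h2 := ones_true g j k
  have h3 : 2 ^ lev j k = 2 ^ j * 2 ^ (j + ec (lev j k)) := by
    rw [← pow_add]; congr 1; have := lev_eq j k; omega
  set X := 2 ^ (j + ec (lev j k)) with hX
  have hXpos : 0 < X := by positivity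
  set o := ones (Ab g) (lev j k) with ho
  set E := err y (Ab g) (lev j k) with hE
  -- `2 ^ (i + 1) * 2 * o > 2 ^ j * X`
  have h4 : 2 ^ j * X < 2 ^ (i + 1) * (2 * o) := by
    have h5 : 2 ^ (i + 1) * ones y (lev j k) ≤ 2 ^ (i + 1) * (o + E) := Nat.mul_le_mul_left _ h1
    have h6 : 2 ^ (i + 2) * E = 2 * (2 ^ (i + 1) * E) := by rw [pow_succ 2 (i + 1)]; ring
    rw [h6] at herr
    rw [h3] at hQ herr
    rw [mul_add] at h5
    have h7 : 2 ^ (i + 1) * (2 * o) = 2 * (2 ^ (i + 1) * o) := by ring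
    omega
  rw [h2, ← mul_assoc] at h4
  have h5 : 2 ^ j < 2 ^ (i + 1) * (2 ^ j - Tc g j k) := lt_of_mul_lt_mul_right h4 (Nat.zero_le _)
  have h6 : 2 ^ (i + 1) * 2 ^ (j - i - 1) = 2 ^ j := by
    rw [← pow_add]; congr 1; omega
  have h5' : 2 ^ (i + 1) * 2 ^ (j - i - 1) < 2 ^ (i + 1) * (2 ^ j - Tc g j k) := by
    rw [h6]; exact h5
  have h7 : 2 ^ (j - i - 1) < 2 ^ j - Tc g j k :=
    lt_of_mul_lt_mul_left h5' (Nat.zero_le _)
  have h8 := Nat.add_lt_of_lt_sub h7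
  rw [add_comm] at h8
  exact Nat.le_sub_of_add_le h8.le

/-- the level `(j, 0)` does not look off -/
theorem not_Qd_zero {i : ℕ} (hi : 1 ≤ i)
    (herr : 2 ^ (i + 2) * err y (Ab g) (lev j 0) ≤ 2 ^ lev j 0) : ¬ Qd y i j 0 := by
  intro hQ
  unfold Qd at hQ
  have h1 := ones_le (Ab g) y (lev j 0)
  rw [err_comm] at h1
  have h2 := ones_true g j 0
  have hT : Tc g j 0 = 0 := by rw [Tc_eq]; simp [ind]
  rw [hT, Nat.sub_zero, ← pow_add] at h2
  have h3 : j + (j + ec (lev j 0)) = lev j 0 := by have := lev_eq j 0; omega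
  rw [h3] at h2
  set o := ones (Ab g) (lev j 0) with ho
  set E := err y (Ab g) (lev j 0) with hE
  set P := 2 ^ lev j 0 with hP
  have hPpos : 0 < P := by positivity
  have h4 : 2 ^ (i + 1) * o ≤ 2 ^ (i + 1) * (ones y (lev j 0) + E) := Nat.mul_le_mul_left _ h1
  have h5 : 2 ^ (i + 2) * E = 2 * (2 ^ (i + 1) * E) := by rw [pow_succ 2 (i + 1)]; ring
  rw [h5] at herr
  rw [mul_add] at h4
  have h6 : 4 ≤ 2 ^ (i + 1) := by
    calc 4 = 2 ^ 2 := by norm_num
      _ ≤ 2 ^ (i + 1) := Nat.pow_le_pow_right (by norm_num) (by omega)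
  have h7 : 4 * o ≤ 2 ^ (i + 1) * o := Nat.mul_le_mul_right _ h6
  omega

/-- if the level looks off then few values are at least `k` -/
theorem few_large {i k : ℕ} (hQ : Qd y i j k)
    (herr : 2 ^ (i + 2) * err y (Ab g) (lev j k) ≤ 2 ^ lev j k) :
    2 ^ i * (2 ^ j - Tc g j k) ≤ 2 * 2 ^ j := by
  unfold Qd at hQ
  have h1 := ones_le (Ab g) y (lev j k)
  rw [err_comm] at h1
  have h2 := ones_true g j k
  have h3 : 2 ^ lev j k = 2 ^ j * 2 ^ (j + ec (lev j k)) := by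
    rw [← pow_add]; congr 1; have := lev_eq j k; omega
  set X := 2 ^ (j + ec (lev j k)) with hX
  have hXpos : 0 < X := by positivity
  set o := ones (Ab g) (lev j k) with ho
  set E := err y (Ab g) (lev j k) with hE
  have h4 : 2 ^ i * (2 * o) ≤ 2 * (2 ^ j * X) := by
    have h5 : 2 ^ (i + 1) * o ≤ 2 ^ (i + 1) * (ones y (lev j k) + E) := Nat.mul_le_mul_left _ h1
    have h6 : 2 ^ (i + 2) * E = 2 * (2 ^ (i + 1) * E) := by rw [pow_succ 2 (i + 1)]; ring
    rw [h6] at herr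
    rw [h3] at hQ herr
    rw [mul_add] at h5
    have h7 : 2 ^ i * (2 * o) = 2 ^ (i + 1) * o := by rw [pow_succ]; ring
    omega
  rw [h2, ← mul_assoc, ← mul_assoc] at h4
  exact le_of_mul_le_mul_right h4 hXpos

theorem mis_eq (y : ℕ → ℕ) (i j k n w : ℕ) : mis y i j k n w =
    ∑ s ∈ range (2 ^ (j - i - 1) * 2 ^ ec (lev j k)),
      ind (¬ (ip (ec (lev j k)) w (s % 2 ^ ec (lev j k)) % 2 = 1 ↔
      y (2 ^ lev j k + (n * 2 ^ (j + ec (lev j k)) +
        ((2 ^ j - 2 ^ (j - i - 1)) * 2 ^ ec (lev j k) + s))) = 1)) :=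
  length_filter_range _ _

theorem pos_lt {i n s c : ℕ} (hn : n < 2 ^ j) (hs : s < 2 ^ (j - i - 1) * 2 ^ c) :
    (2 ^ j - 2 ^ (j - i - 1)) * 2 ^ c + s < 2 ^ (j + c) ∧
    n * 2 ^ (j + c) + ((2 ^ j - 2 ^ (j - i - 1)) * 2 ^ c + s) < 2 ^ j * 2 ^ (j + c) := by
  have h1 : 2 ^ (j - i - 1) ≤ 2 ^ j := Nat.pow_le_pow_right (by norm_num) (by omega)
  have h2 : (2 ^ j - 2 ^ (j - i - 1)) * 2 ^ c + 2 ^ (j - i - 1) * 2 ^ c = 2 ^ (j + c) := by
    rw [← add_mul, Nat.sub_add_cancel h1, pow_add]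
  have h3 : (2 ^ j - 2 ^ (j - i - 1)) * 2 ^ c + s < 2 ^ (j + c) := by omega
  refine ⟨h3, ?_⟩
  have h4 : (n + 1) * 2 ^ (j + c) ≤ 2 ^ j * 2 ^ (j + c) := Nat.mul_le_mul_right _ hn
  rw [add_mul, one_mul] at h4
  omega

/-- on the last rows, when they are on, the code of `g` is the codeword of the message of `n` -/
theorem Ab_top {i k n s : ℕ} (hT : Tc g j k ≤ 2 ^ j - 2 ^ (j - i - 1)) (hn : n < 2 ^ j)
    (hs : s < 2 ^ (j - i - 1) * 2 ^ ec (lev j k)) :
    Ab g (2 ^ lev j k + (n * 2 ^ (j + ec (lev j k)) +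
        ((2 ^ j - 2 ^ (j - i - 1)) * 2 ^ ec (lev j k) + s))) =
      ip (ec (lev j k)) (1 + min (g (2 ^ j + n)) (k + 1)) (s % 2 ^ ec (lev j k)) % 2 := by
  set c := ec (lev j k) with hc
  obtain ⟨h1, h2⟩ := pos_lt hn hs
  have h3 : 2 ^ j * 2 ^ (j + c) = 2 ^ lev j k := by
    rw [← pow_add]; congr 1; have := lev_eq j k; omega
  rw [h3] at h2
  rw [Ab_lev g h2, ← hc]
  have e1 : n * 2 ^ (j + c) + ((2 ^ j - 2 ^ (j - i - 1)) * 2 ^ c + s) =
      2 ^ c * (n * 2 ^ j + (2 ^ j - 2 ^ (j - i - 1))) + s := by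
    rw [pow_add]; ring
  have e2 : (2 ^ c * (n * 2 ^ j + (2 ^ j - 2 ^ (j - i - 1))) + s) / 2 ^ c =
      2 ^ j * n + ((2 ^ j - 2 ^ (j - i - 1)) + s / 2 ^ c) := by
    rw [Nat.mul_add_div (by positivity)]; ring
  have h4 : s / 2 ^ c < 2 ^ (j - i - 1) := by
    rw [Nat.div_lt_iff_lt_mul (by positivity)]; exact hs
  have h5 : 2 ^ (j - i - 1) ≤ 2 ^ j := Nat.pow_le_pow_right (by norm_num) (by omega)
  have h6 : (2 ^ j - 2 ^ (j - i - 1)) + s / 2 ^ c < 2 ^ j := by omega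
  rw [e1, e2, Nat.mul_add_mod, Nat.mul_add_div (by positivity), Nat.div_eq_of_lt h6,
    Nat.mod_eq_of_lt h6, add_zero, Nat.mul_add_mod]
  have h8 : ¬ ((2 ^ j - 2 ^ (j - i - 1)) + s / 2 ^ c < Tc g j k) := by
    intro hcon
    exact absurd (lt_of_le_of_lt (Nat.le_add_right _ _) hcon) (not_lt.2 hT)
  have h7 : cont g j k n ((2 ^ j - 2 ^ (j - i - 1)) + s / 2 ^ c) =
      1 + min (g (2 ^ j + n)) (k + 1) := by
    unfold cont
    rw [if_neg h8]
  rw [h7]

/-- total number of mismatches of the true messages -/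
theorem sum_mis_le {i k : ℕ} (hT : Tc g j k ≤ 2 ^ j - 2 ^ (j - i - 1)) :
    ∑ n ∈ range (2 ^ j), mis y i j k n (1 + min (g (2 ^ j + n)) (k + 1)) ≤
      err y (Ab g) (lev j k) := by
  set c := ec (lev j k) with hc
  have h3 : 2 ^ lev j k = 2 ^ j * 2 ^ (j + c) := by
    rw [← pow_add]; congr 1; have := lev_eq j k; omega
  have h1 : 2 ^ (j - i - 1) ≤ 2 ^ j := Nat.pow_le_pow_right (by norm_num) (by omega)
  have h2 : 2 ^ (j + c) = (2 ^ j - 2 ^ (j - i - 1)) * 2 ^ c + 2 ^ (j - i - 1) * 2 ^ c := by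
    rw [← add_mul, Nat.sub_add_cancel h1, pow_add]
  unfold err
  rw [h3, sum_mul_range]
  apply sum_le_sum
  intro n hn
  have hn' := mem_range.1 hn
  rw [← h3, mis_eq, ← hc]
  conv_rhs => rw [h2, sum_range_add]
  refine le_trans ?_ (Nat.le_add_left _ _)
  apply sum_le_sum
  intro s hs
  have hs' := mem_range.1 hs
  rw [← h2]
  have h4 := Ab_top (g := g) hT hn' hs'
  rw [← hc] at h4
  have h5 : ip c (1 + min (g (2 ^ j + n)) (k + 1)) (s % 2 ^ c) % 2 = 1 ↔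
      Ab g (2 ^ lev j k + (n * 2 ^ (j + c) +
        ((2 ^ j - 2 ^ (j - i - 1)) * 2 ^ c + s))) = 1 := by rw [h4]
  unfold ind
  by_cases h6 : y (2 ^ lev j k + (n * 2 ^ (j + c) +
        ((2 ^ j - 2 ^ (j - i - 1)) * 2 ^ c + s))) = 1 <;>
    by_cases h7 : Ab g (2 ^ lev j k + (n * 2 ^ (j + c) +
        ((2 ^ j - 2 ^ (j - i - 1)) * 2 ^ c + s))) = 1 <;> simp [h5, h6, h7]

/-- two different messages cannot both have few mismatches -/
theorem mis_add {i k n w w' : ℕ} (hw : w < 2 ^ ec (lev j k)) (hw' : w' < 2 ^ ec (lev j k))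
    (h : w ≠ w') : 2 ^ (j - i - 1) * 2 ^ ec (lev j k) ≤ 2 * (mis y i j k n w + mis y i j k n w') := by
  set c := ec (lev j k) with hc
  have h1 : ∑ s ∈ range (2 ^ (j - i - 1) * 2 ^ c),
      ind (¬ (ip c w (s % 2 ^ c) % 2 = 1 ↔ ip c w' (s % 2 ^ c) % 2 = 1)) ≤
      mis y i j k n w + mis y i j k n w' := by
    rw [mis_eq, mis_eq, ← hc, ← sum_add_distrib]
    apply sum_le_sum
    intro s _
    unfold ind
    by_cases h2 : ip c w (s % 2 ^ c) % 2 = 1 <;> by_cases h3 : ip c w' (s % 2 ^ c) % 2 = 1 <;>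
      by_cases h4 : y (2 ^ lev j k + (n * 2 ^ (j + c) +
        ((2 ^ j - 2 ^ (j - i - 1)) * 2 ^ c + s))) = 1 <;> simp [h2, h3, h4]
  rw [sum_mod_range (fun z => ind (¬ (ip c w z % 2 = 1 ↔ ip c w' z % 2 = 1)))] at h1
  have h2 := two_mul_differ hw hw' h
  calc 2 ^ (j - i - 1) * 2 ^ c = 2 ^ (j - i - 1) * (2 * ∑ z ∈ range (2 ^ c),
        ind (¬ (ip c w z % 2 = 1 ↔ ip c w' z % 2 = 1))) := by rw [h2]
    _ = 2 * (2 ^ (j - i - 1) * ∑ z ∈ range (2 ^ c),
        ind (¬ (ip c w z % 2 = 1 ↔ ip c w' z % 2 = 1))) := by ring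
    _ ≤ _ := Nat.mul_le_mul_left _ h1

/-- decoding of a message with few mismatches -/
theorem dw_eq {i k n w : ℕ} (hw : w < k + 3)
    (h : 4 * mis y i j k n w < 2 ^ (j - i - 1) * 2 ^ ec (lev j k)) : dw y i j k n = w := by
  obtain ⟨h1, h2, _⟩ := findIdx_spec
    (fun w => 4 * mis y i j k n w < 2 ^ (j - i - 1) * 2 ^ ec (lev j k)) hw h
  have h3 : 4 * mis y i j k n (dw y i j k n) < 2 ^ (j - i - 1) * 2 ^ ec (lev j k) := h1
  have h4 : dw y i j k n ≤ w := h2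
  by_contra hne
  have h5 := k_lt j k
  have h6 := mis_add (y := y) (i := i) (n := n) (lt_of_lt_of_le (lt_of_le_of_lt h4 hw) h5)
    (lt_of_lt_of_le hw h5) hne
  omega

end Stage

end Q206.Asy
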