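import Pool.Agent.Q206.Asy.Dec

/-!
# The decoded function is correct on most places
-/

namespace Q206.Asy

open Finset Q206.Gam

variable {y g : ℕ → ℕ} {j : ℕ}

theorem Qd_mono {i i' k : ℕ} (h : i ≤ i') (hQ : Qd y i' j k) : Qd y i j k := by
  unfold Qd at hQ ⊢
  exact le_trans (Nat.mul_le_mul_right _ (Nat.pow_le_pow_right (by norm_num) (by omega))) hQ

theorem kk_spec {i K : ℕ} (hQ : Qd y i j K) :
    Qd y i j (kk y i j K) ∧ kk y i j K ≤ K ∧ ∀ l < kk y i j K, ¬ Qd y i j l :=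
  findIdx_spec (fun k => Qd y i j k) (Nat.lt_succ_self K) hQ

theorem kk_mono {i i' K : ℕ} (h : i ≤ i') (hQ : Qd y i' j K) : kk y i j K ≤ kk y i' j K := by
  by_contra hcon
  push Not at hcon
  exact (kk_spec (Qd_mono h hQ)).2.2 _ hcon (Qd_mono h (kk_spec hQ).1)

theorem pow_le_of {a b : ℕ} (h : a ≤ b) : 2 ^ a ≤ 2 ^ b := Nat.pow_le_pow_right (by norm_num) h

/-- few bad `n` at one stage -/
theorem bad_count {i k N : ℕ} (hij : i < j) (hT : Tc g j k ≤ 2 ^ j - 2 ^ (j - i - 1))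
    (herr : 2 ^ N * err y (Ab g) (lev j k) ≤ 2 ^ lev j k) :
    2 ^ N * ∑ n ∈ range (2 ^ j), ind (2 ^ (j - i - 1) * 2 ^ ec (lev j k) ≤
      4 * mis y i j k n (1 + min (g (2 ^ j + n)) (k + 1))) ≤ 2 ^ (j + i + 3) := by
  set c := ec (lev j k) with hc
  set B := ∑ n ∈ range (2 ^ j), ind (2 ^ (j - i - 1) * 2 ^ c ≤
      4 * mis y i j k n (1 + min (g (2 ^ j + n)) (k + 1))) with hB
  have h1 : (2 ^ (j - i - 1) * 2 ^ c) * B ≤ 4 * err y (Ab g) (lev j k) := by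
    refine le_trans ?_ (Nat.mul_le_mul_left _ (sum_mis_le hT))
    rw [hB, mul_sum, mul_sum]
    apply sum_le_sum
    intro n _
    unfold ind
    split_ifs with h
    · rw [mul_one]; exact h
    · simp
  have e1 : 2 ^ lev j k = 2 ^ c * 2 ^ (j - i - 1) * 2 ^ (j + i + 1) := by
    rw [← pow_add, ← pow_add]; congr 1; have := lev_eq j k; omega
  have h2 : (2 ^ c * 2 ^ (j - i - 1)) * (2 ^ N * B) ≤
      (2 ^ c * 2 ^ (j - i - 1)) * (4 * 2 ^ (j + i + 1)) := by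
    calc (2 ^ c * 2 ^ (j - i - 1)) * (2 ^ N * B)
        = 2 ^ N * ((2 ^ (j - i - 1) * 2 ^ c) * B) := by ring
      _ ≤ 2 ^ N * (4 * err y (Ab g) (lev j k)) := Nat.mul_le_mul_left _ h1
      _ = 4 * (2 ^ N * err y (Ab g) (lev j k)) := by ring
      _ ≤ 4 * 2 ^ lev j k := Nat.mul_le_mul_left _ herr
      _ = _ := by rw [e1]; ring
  have h3 := le_of_mul_le_mul_left h2 (by positivity)
  refine h3.trans (le_of_eq ?_)
  rw [show j + i + 3 = (j + i + 1) + 2 by omega, pow_add _ _ 2]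
  ring

/-- decoding of a good `n` at one stage -/
theorem kn_eq {i K n : ℕ} (hQ : Qd y i j K) (h1 : 1 ≤ kk y i j K)
    (hgood : ¬ 2 ^ (j - i - 1) * 2 ^ ec (lev j (kk y i j K - 1)) ≤
      4 * mis y i j (kk y i j K - 1) n (1 + min (g (2 ^ j + n)) (kk y i j K - 1 + 1))) :
    kn y i j K n = if g (2 ^ j + n) < kk y i j K then g (2 ^ j + n) + 1 else 0 := by
  have h2 : dw y i j (kk y i j K - 1) n = 1 + min (g (2 ^ j + n)) (kk y i j K) := by
    have h3 : kk y i j K - 1 + 1 = kk y i j K := by omega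
    have h4 := dw_eq (y := y) (i := i) (j := j) (k := kk y i j K - 1) (n := n)
      (w := 1 + min (g (2 ^ j + n)) (kk y i j K - 1 + 1))
      (by have : min (g (2 ^ j + n)) (kk y i j K - 1 + 1) ≤ kk y i j K - 1 + 1 :=
            min_le_right _ _
          omega) (not_le.1 hgood)
    rw [h3] at h4
    exact h4
  unfold kn
  rw [h2]
  by_cases h5 : g (2 ^ j + n) < kk y i j K
  · rw [if_pos h5, min_eq_left h5.le, if_pos ⟨h1, by omega⟩]
    omega
  · rw [if_neg h5, min_eq_right (not_lt.1 h5), if_neg]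
    rintro ⟨_, h6⟩
    omega

theorem gd_eq {K I n : ℕ} (hn : n < 2 ^ j) (hIj : I < j) (hI : 1 ≤ I) (hK : Qd y j j K)
    (h1 : ∀ i, 1 ≤ i → i ≤ I → 1 ≤ kk y i j K)
    (hgood : ∀ i, 1 ≤ i → i ≤ I → ¬ 2 ^ (j - i - 1) * 2 ^ ec (lev j (kk y i j K - 1)) ≤
      4 * mis y i j (kk y i j K - 1) n (1 + min (g (2 ^ j + n)) (kk y i j K - 1 + 1)))
    (hlt : g (2 ^ j + n) < kk y I j K) : gd y K (2 ^ j + n) = g (2 ^ j + n) := by
  have hkn : ∀ i, 1 ≤ i → i ≤ I → kn y i j K n =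
      if g (2 ^ j + n) < kk y i j K then g (2 ^ j + n) + 1 else 0 := fun i hi1 hi2 =>
    kn_eq (Qd_mono (by omega) hK) (h1 i hi1 hi2) (hgood i hi1 hi2)
  unfold gd
  rw [log_add hn, Nat.add_sub_cancel_left]
  obtain ⟨h2, h3, -⟩ := findIdx_spec (fun i => 1 ≤ i ∧ kn y i j K n ≠ 0) hIj
    (by refine ⟨hI, ?_⟩; rw [hkn I hI le_rfl, if_pos hlt]; omega)
  set i0 := (List.range j).findIdx (fun i => decide (1 ≤ i ∧ kn y i j K n ≠ 0)) with hi0
  obtain ⟨h4, h5⟩ := h2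
  have h6 := hkn i0 h4 h3
  rw [h6] at h5 ⊢
  by_cases h7 : g (2 ^ j + n) < kk y i0 j K
  · rw [if_pos h7]; omega
  · rw [if_neg h7] at h5; omega

theorem sum_pow_le (j I : ℕ) : ∑ i ∈ range I, 2 ^ (j + (i + 1) + 3) ≤ 2 ^ (j + I + 4) := by
  induction I with
  | zero => simp
  | succ I ih =>
    rw [sum_range_succ]
    have : 2 ^ (j + (I + 1) + 4) = 2 ^ (j + I + 4) + 2 ^ (j + (I + 1) + 3) := by
      rw [show j + (I + 1) + 4 = (j + I + 4) + 1 by ring, pow_succ,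
        show j + (I + 1) + 3 = j + I + 4 by ring]
      ring
    omega

theorem decode_count {K I : ℕ} (hI : 1 ≤ I) (hIj : I < j) (hK : Qd y j j K)
    (herr : ∀ k ≤ K, 2 ^ (2 * I + 4) * err y (Ab g) (lev j k) ≤ 2 ^ lev j k) :
    2 ^ I * ∑ n ∈ range (2 ^ j), ind (gd y K (2 ^ j + n) ≠ g (2 ^ j + n)) ≤ 4 * 2 ^ j := by
  have herr' : ∀ i ≤ I, ∀ k ≤ K, 2 ^ (i + 2) * err y (Ab g) (lev j k) ≤ 2 ^ lev j k := by
    intro i hi k hk
    exact le_trans (Nat.mul_le_mul_right _ (pow_le_of (by omega))) (herr k hk)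
  have hQ : ∀ i ≤ I, Qd y i j K := fun i hi => Qd_mono (by omega) hK
  have hk1 : ∀ i, 1 ≤ i → i ≤ I → 1 ≤ kk y i j K := by
    intro i hi1 hi2
    by_contra hcon
    have h0 : kk y i j K = 0 := by omega
    have := (kk_spec (hQ i hi2)).1
    rw [h0] at this
    exact not_Qd_zero hi1 (herr' i hi2 0 (Nat.zero_le _)) this
  have hkK : ∀ i ≤ I, kk y i j K ≤ K := fun i hi => (kk_spec (hQ i hi)).2.1
  -- bad sets
  set bd : ℕ → ℕ → ℕ := fun i n => ind (2 ^ (j - i - 1) * 2 ^ ec (lev j (kk y i j K - 1)) ≤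
      4 * mis y i j (kk y i j K - 1) n (1 + min (g (2 ^ j + n)) (kk y i j K - 1 + 1))) with hbd
  have hbad : ∀ i, 1 ≤ i → i ≤ I →
      2 ^ (2 * I + 4) * ∑ n ∈ range (2 ^ j), bd i n ≤ 2 ^ (j + i + 3) := by
    intro i hi1 hi2
    have h1 := hk1 i hi1 hi2
    have h2 := hkK i hi2
    apply bad_count (by omega)
    · apply rows_on (by omega)
      · exact (kk_spec (hQ i hi2)).2.2 _ (by omega)
      · exact herr' i hi2 _ (by omega)
    · exact herr _ (by omega)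
  have hmain : ∀ n ∈ range (2 ^ j), ind (gd y K (2 ^ j + n) ≠ g (2 ^ j + n)) ≤
      ∑ i ∈ range I, bd (i + 1) n + ind (¬ g (2 ^ j + n) < kk y I j K) := by
    intro n hn
    by_cases hlt : g (2 ^ j + n) < kk y I j K
    · by_cases hall : ∀ i, 1 ≤ i → i ≤ I →
          ¬ 2 ^ (j - i - 1) * 2 ^ ec (lev j (kk y i j K - 1)) ≤
          4 * mis y i j (kk y i j K - 1) n (1 + min (g (2 ^ j + n)) (kk y i j K - 1 + 1))
      · have := gd_eq (mem_range.1 hn) hIj hI hK hk1 hall hlt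
        simp [ind, this]
      · push Not at hall
        obtain ⟨i, hi1, hi2, h3⟩ := hall
        have h4 : bd i n = 1 := by
          rw [hbd]; unfold ind; simp only; rw [if_pos h3]
        have h5 : bd (i - 1 + 1) n ≤ ∑ i ∈ range I, bd (i + 1) n :=
          single_le_sum (f := fun i => bd (i + 1) n) (fun _ _ => Nat.zero_le _)
            (mem_range.2 (by omega))
        rw [Nat.sub_add_cancel hi1, h4] at h5
        have h6 : ind (gd y K (2 ^ j + n) ≠ g (2 ^ j + n)) ≤ 1 := by unfold ind; split_ifs <;> omega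
        omega
    · have h6 : ind (gd y K (2 ^ j + n) ≠ g (2 ^ j + n)) ≤ 1 := by unfold ind; split_ifs <;> omega
      have h7 : ind (¬ g (2 ^ j + n) < kk y I j K) = 1 := by unfold ind; rw [if_pos hlt]
      omega
  have hsum : ∑ n ∈ range (2 ^ j), ind (gd y K (2 ^ j + n) ≠ g (2 ^ j + n)) ≤
      ∑ i ∈ range I, ∑ n ∈ range (2 ^ j), bd (i + 1) n + (2 ^ j - Tc g j (kk y I j K)) := by
    refine (sum_le_sum hmain).trans ?_
    rw [sum_add_distrib, sum_comm]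
    apply Nat.add_le_add_left
    have h8 : ∑ n ∈ range (2 ^ j), ind (¬ g (2 ^ j + n) < kk y I j K) +
        Tc g j (kk y I j K) = 2 ^ j := by
      rw [Tc_eq, ← sum_add_distrib]
      refine (sum_congr rfl (g := fun _ => 1) ?_).trans (by simp)
      intro n _
      unfold ind
      by_cases h : g (2 ^ j + n) < kk y I j K <;> simp [h]
    omega
  have hfew := few_large (kk_spec (hQ I le_rfl)).1 (herr' I le_rfl _ (hkK I le_rfl))
  have hS : 2 ^ (2 * I + 4) * ∑ i ∈ range I, ∑ n ∈ range (2 ^ j), bd (i + 1) n ≤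
      2 ^ (j + I + 4) := by
    rw [mul_sum]
    refine (sum_le_sum (fun i hi => hbad (i + 1) (by omega)
      (by have := mem_range.1 hi; omega))).trans (sum_pow_le j I)
  set S := ∑ i ∈ range I, ∑ n ∈ range (2 ^ j), bd (i + 1) n with hSdef
  have hS2 : 2 ^ I * S ≤ 2 ^ j := by
    have e1 : 2 ^ (2 * I + 4) * S = 2 ^ (I + 4) * (2 ^ I * S) := by
      rw [← mul_assoc, ← pow_add]; congr 2; ring
    have e2 : 2 ^ (j + I + 4) = 2 ^ (I + 4) * 2 ^ j := by rw [← pow_add]; congr 1; ring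
    rw [e1, e2] at hS
    exact le_of_mul_le_mul_left hS (by positivity)
  calc 2 ^ I * ∑ n ∈ range (2 ^ j), ind (gd y K (2 ^ j + n) ≠ g (2 ^ j + n))
      ≤ 2 ^ I * (S + (2 ^ j - Tc g j (kk y I j K))) := Nat.mul_le_mul_left _ hsum
    _ = 2 ^ I * S + 2 ^ I * (2 ^ j - Tc g j (kk y I j K)) := by ring
    _ ≤ 2 ^ j + 2 * 2 ^ j := Nat.add_le_add hS2 hfew
    _ ≤ 4 * 2 ^ j := by omega

end Q206.Asy
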