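import Pool.Agent.Q206.Asy.Density

/-!
# Asymptotic descriptions and the eight reducibilities
-/

namespace Q206.Asy

open Filter Encodable

/-! ### Turing functionals and enumeration operators -/

/-- Oracle programs. -/
inductive OCode : Type
  | zero | succ | left | right | oracle
  | pair (a b : OCode)
  | comp (a b : OCode)
  | prec (a b : OCode)
  | rfind (a : OCode)
  deriving Countable

/-- `c.eval d` is the partial function computed by the oracle program `c` with the oracle `d`;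
the clauses are those of Mathlib's `Nat.RecursiveIn`. -/
def OCode.eval (d : ℕ → ℕ) : OCode → ℕ →. ℕ
  | .zero => fun _ => Part.some 0
  | .succ => fun n => Part.some (n + 1)
  | .left => fun n => Part.some n.unpair.1
  | .right => fun n => Part.some n.unpair.2
  | .oracle => fun n => Part.some (d n)
  | .pair a b => fun n => Nat.pair <$> a.eval d n <*> b.eval d n
  | .comp a b => fun n => b.eval d n >>= a.eval d
  | .prec a b => fun p =>
      let (x, n) := Nat.unpair p
      n.rec (a.eval d x) fun y IH => do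
        let i ← IH
        b.eval d (Nat.pair x (Nat.pair y i))
  | .rfind a => fun x => Nat.rfind fun n => (fun m => m = 0) <$> a.eval d (Nat.pair x n)

/-- The enumeration operator given by the set `W` of pairs, applied to the set `X`. -/
def enumOp (W : Set (Finset ℕ × ℕ)) (X : Set ℕ) : Set ℕ :=
  {k | ∃ F : Finset ℕ, (F, k) ∈ W ∧ (F : Set ℕ) ⊆ X}

/-- `W` is computably enumerable. -/
def CE (W : Set (Finset ℕ × ℕ)) : Prop := REPred (fun p => p ∈ W)

/-- The (coded) graph of a partial function. -/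
def gr (f : ℕ →. ℕ) : Set ℕ := {k | k.unpair.2 ∈ f k.unpair.1}

/-! ### Descriptions -/

/-- `f` is a coarse description of `g`. -/
def Coarse (g f : ℕ → ℕ) : Prop := Dens1 {n | f n = g n}

/-- `f` is a generic description of `g`. -/
def Generic (g : ℕ → ℕ) (f : ℕ →. ℕ) : Prop :=
  Dens1 {n | (f n).Dom} ∧ ∀ n v, v ∈ f n → v = g n

/-- `f` is a dense description of `g`. -/
def Dense (g : ℕ → ℕ) (f : ℕ →. ℕ) : Prop := Dens1 {n | g n ∈ f n}

/-- `f` is an effective dense description of `g`; `none` is the symbol `□`. -/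
def EffDense (g : ℕ → ℕ) (f : ℕ → Option ℕ) : Prop :=
  (∀ n v, f n = some v → v = g n) ∧ Dens1 {n | f n ≠ none}

/-- functions into `ω ∪ {□}` as functions into `ω` -/
def code (f : ℕ → Option ℕ) : ℕ → ℕ := fun n => encode (f n)

/-! ### The eight reducibilities -/

/-- `f ≤_nc g` -/
def NC (f g : ℕ → ℕ) : Prop :=
  ∀ d, Coarse g d → ∃ e, Coarse f e ∧ TuringReducible (e : ℕ →. ℕ) (d : ℕ →. ℕ)

/-- `f ≤_uc g` -/
def UC (f g : ℕ → ℕ) : Prop :=
  ∃ c : OCode, ∀ d, Coarse g d → ∃ e, Coarse f e ∧ c.eval d = (e : ℕ →. ℕ)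

/-- `f ≤_ned g` -/
def NED (f g : ℕ → ℕ) : Prop :=
  ∀ d, EffDense g d → ∃ e, EffDense f e ∧
    TuringReducible (code e : ℕ →. ℕ) (code d : ℕ →. ℕ)

/-- `f ≤_ued g` -/
def UED (f g : ℕ → ℕ) : Prop :=
  ∃ c : OCode, ∀ d, EffDense g d → ∃ e, EffDense f e ∧ c.eval (code d) = (code e : ℕ →. ℕ)

/-- `f ≤_ng g` -/
def NG (f g : ℕ → ℕ) : Prop :=
  ∀ d, Generic g d → ∃ e, Generic f e ∧ ∃ W, CE W ∧ gr e = enumOp W (gr d)

/-- `f ≤_ug g` -/
def UG (f g : ℕ → ℕ) : Prop :=
  ∃ W, CE W ∧ ∀ d, Generic g d → ∃ e, Generic f e ∧ gr e = enumOp W (gr d)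

/-- `f ≤_nd g` -/
def ND (f g : ℕ → ℕ) : Prop :=
  ∀ d, Dense g d → ∃ e, Dense f e ∧ ∃ W, CE W ∧ gr e = enumOp W (gr d)

/-- `f ≤_ud g` -/
def UD (f g : ℕ → ℕ) : Prop :=
  ∃ W, CE W ∧ ∀ d, Dense g d → ∃ e, Dense f e ∧ gr e = enumOp W (gr d)

/-- names of the eight reducibilities -/
inductive Red | nc | uc | ned | ued | ng | ug | nd | ud
  deriving DecidableEq

/-- the reducibility with the given name -/
def Red.le : Red → (ℕ → ℕ) → (ℕ → ℕ) → Prop
  | nc => NC
  | uc => UC
  | ned => NED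
  | ued => UED
  | ng => NG
  | ug => UG
  | nd => ND
  | ud => UD

open Classical in
/-- characteristic function of a set -/
noncomputable def chi (A : Set ℕ) (n : ℕ) : ℕ := if n ∈ A then 1 else 0

/-- `g` is `r`-equivalent to some set. -/
def EquivSet (r : Red) (g : ℕ → ℕ) : Prop := ∃ A : Set ℕ, r.le g (chi A) ∧ r.le (chi A) g

/-! ### Basic facts on oracle programs -/

theorem OCode.recursiveIn (c : OCode) (d : ℕ → ℕ) :
    Nat.RecursiveIn {(d : ℕ →. ℕ)} (c.eval d) := by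
  induction c with
  | zero => exact .zero
  | succ => exact .succ
  | left => exact .left
  | right => exact .right
  | oracle => exact .oracle _ (Set.mem_singleton _)
  | pair a b ha hb => exact .pair ha hb
  | comp a b ha hb => exact .comp ha hb
  | prec a b ha hb => exact .prec ha hb
  | rfind a ha => exact .rfind ha

theorem exists_code {d : ℕ → ℕ} {f : ℕ →. ℕ} (h : Nat.RecursiveIn {(d : ℕ →. ℕ)} f) :
    ∃ c : OCode, c.eval d = f := by
  induction h with
  | zero => exact ⟨.zero, rfl⟩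
  | succ => exact ⟨.succ, rfl⟩
  | left => exact ⟨.left, rfl⟩
  | right => exact ⟨.right, rfl⟩
  | oracle g hg =>
    rw [Set.mem_singleton_iff] at hg
    exact ⟨.oracle, hg.symm⟩
  | pair _ _ ha hb =>
    obtain ⟨a, rfl⟩ := ha
    obtain ⟨b, rfl⟩ := hb
    exact ⟨.pair a b, rfl⟩
  | comp _ _ ha hb =>
    obtain ⟨a, rfl⟩ := ha
    obtain ⟨b, rfl⟩ := hb
    exact ⟨.comp a b, rfl⟩
  | prec _ _ ha hb =>
    obtain ⟨a, rfl⟩ := ha
    obtain ⟨b, rfl⟩ := hb
    exact ⟨.prec a b, rfl⟩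
  | rfind _ ha =>
    obtain ⟨a, rfl⟩ := ha
    exact ⟨.rfind a, rfl⟩

/-- use principle -/
theorem OCode.use (c : OCode) (d : ℕ → ℕ) : ∀ x y, y ∈ c.eval d x →
    ∃ N, ∀ d' : ℕ → ℕ, (∀ n < N, d' n = d n) → y ∈ c.eval d' x := by
  induction c with
  | zero => exact fun x y h => ⟨0, fun d' _ => h⟩
  | succ => exact fun x y h => ⟨0, fun d' _ => h⟩
  | left => exact fun x y h => ⟨0, fun d' _ => h⟩
  | right => exact fun x y h => ⟨0, fun d' _ => h⟩
  | oracle =>
    intro x y h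
    refine ⟨x + 1, fun d' hd' => ?_⟩
    simp only [eval] at h ⊢
    rw [hd' x (by omega)]
    exact h
  | pair a b ha hb =>
    intro x y h
    simp only [eval, Seq.seq, Part.map_eq_map, Part.mem_bind_iff, Part.mem_map_iff] at h ⊢
    obtain ⟨f, ⟨u, hu, rfl⟩, v, hv, rfl⟩ := h
    obtain ⟨N1, hN1⟩ := ha x u hu
    obtain ⟨N2, hN2⟩ := hb x v hv
    refine ⟨max N1 N2, fun d' hd' => ?_⟩
    exact ⟨_, ⟨u, hN1 d' (fun n hn => hd' n (lt_of_lt_of_le hn (le_max_left _ _))), rfl⟩, v,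
      hN2 d' (fun n hn => hd' n (lt_of_lt_of_le hn (le_max_right _ _))), rfl⟩
  | comp a b ha hb =>
    intro x y h
    have h' : y ∈ (b.eval d x).bind (fun i => a.eval d i) := h
    obtain ⟨u, hu, hy⟩ := Part.mem_bind_iff.1 h'
    obtain ⟨N1, hN1⟩ := hb x u hu
    obtain ⟨N2, hN2⟩ := ha u y hy
    refine ⟨max N1 N2, fun d' hd' => ?_⟩
    show y ∈ (b.eval d' x).bind (fun i => a.eval d' i)
    exact Part.mem_bind_iff.2
      ⟨u, hN1 d' (fun n hn => hd' n (lt_of_lt_of_le hn (le_max_left _ _))),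
      hN2 d' (fun n hn => hd' n (lt_of_lt_of_le hn (le_max_right _ _)))⟩
  | prec a b ha hb =>
    intro p y h
    simp only [eval] at h ⊢
    generalize (Nat.unpair p).1 = x at h ⊢
    generalize (Nat.unpair p).2 = n at h ⊢
    induction n generalizing y with
    | zero => exact ha x y h
    | succ n ih =>
      simp only [Part.bind_eq_bind, Part.mem_bind_iff] at h ih ⊢
      obtain ⟨i, hi, hy⟩ := h
      obtain ⟨N1, hN1⟩ := ih i hi
      obtain ⟨N2, hN2⟩ := hb _ y hy
      refine ⟨max N1 N2, fun d' hd' => ?_⟩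
      exact ⟨i, hN1 d' (fun n hn => hd' n (lt_of_lt_of_le hn (le_max_left _ _))),
        hN2 d' (fun n hn => hd' n (lt_of_lt_of_le hn (le_max_right _ _)))⟩
  | rfind a ha =>
    intro x y h
    have h' : y ∈ Nat.rfind (fun n => (fun m => decide (m = 0)) <$> a.eval d (Nat.pair x n)) := h
    obtain ⟨h1, h2⟩ := Nat.mem_rfind.1 h'
    simp only [Part.map_eq_map] at h1 h2
    obtain ⟨u, hu, hu0⟩ := (Part.mem_map_iff _).1 h1
    obtain ⟨N1, hN1⟩ := ha _ u hu
    have h1 : ∀ m, ∃ N, m < y → ∀ d' : ℕ → ℕ, (∀ n < N, d' n = d n) →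
        ∃ v, v ∈ eval d' a (Nat.pair x m) ∧ decide (v = 0) = false := by
      intro m
      by_cases hmy : m < y
      · obtain ⟨v, hv, hv0⟩ := (Part.mem_map_iff _).1 (h2 hmy)
        obtain ⟨N, hN⟩ := ha _ v hv
        exact ⟨N, fun _ d' hd' => ⟨v, hN d' hd', hv0⟩⟩
      · exact ⟨0, fun h => absurd h hmy⟩
    choose F hF using h1
    refine ⟨max N1 ((Finset.range y).sup F), fun d' hd' => ?_⟩
    show y ∈ Nat.rfind (fun n => (fun m => decide (m = 0)) <$> a.eval d' (Nat.pair x n))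
    refine Nat.mem_rfind.2 ⟨?_, ?_⟩
    · simp only [Part.map_eq_map]
      exact (Part.mem_map_iff _).2
        ⟨u, hN1 d' (fun n hn => hd' n (lt_of_lt_of_le hn (le_max_left _ _))), hu0⟩
    · intro m hmy
      simp only [Part.map_eq_map]
      refine (Part.mem_map_iff _).2 (hF m hmy d' (fun n hn => hd' n ?_))
      refine lt_of_lt_of_le (lt_of_lt_of_le hn ?_) (le_max_right _ _)
      exact Finset.le_sup (f := F) (Finset.mem_range.2 hmy)

end Q206.Asy
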