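import Mathlib

/-!
# Density one in terms of dyadic intervals
-/

namespace Q206.Asy

open Filter Finset

/-- `S` has density `1`. -/
def Dens1 (S : Set ℕ) : Prop :=
  Tendsto (fun n : ℕ => ((S ∩ Set.Iio n).ncard : ℝ) / n) atTop (nhds 1)

open Classical in
/-- number of elements of `E` in `[a, a + l)` -/
noncomputable def cnt (E : Set ℕ) (a l : ℕ) : ℕ := ((range l).filter (fun x => a + x ∈ E)).card

/-- number of elements of `E` in the dyadic interval `[2 ^ m, 2 ^ (m + 1))` -/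
noncomputable def cntL (E : Set ℕ) (m : ℕ) : ℕ := cnt E (2 ^ m) (2 ^ m)

/-- the proportion of `E` in the dyadic intervals tends to `0` -/
def NullS (E : Set ℕ) : Prop := ∀ i : ℕ, ∃ M, ∀ m ≥ M, 2 ^ i * cntL E m ≤ 2 ^ m

theorem cnt_le (E : Set ℕ) (a l : ℕ) : cnt E a l ≤ l := by
  classical
  unfold cnt
  exact (card_filter_le _ _).trans (by simp)

theorem cnt_mono {E E' : Set ℕ} {a l : ℕ} (h : ∀ x < l, a + x ∈ E → a + x ∈ E') :
    cnt E a l ≤ cnt E' a l := by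
  classical
  unfold cnt
  apply card_le_card
  intro x hx
  rw [mem_filter, mem_range] at hx ⊢
  exact ⟨hx.1, h x hx.1 hx.2⟩

open Classical in
theorem cnt_eq_sum (E : Set ℕ) (a l : ℕ) :
    cnt E a l = ∑ x ∈ range l, (if a + x ∈ E then 1 else 0) := by
  unfold cnt; rw [card_filter]

theorem cnt_union_le (E E' : Set ℕ) (a l : ℕ) : cnt (E ∪ E') a l ≤ cnt E a l + cnt E' a l := by
  classical
  rw [cnt_eq_sum, cnt_eq_sum, cnt_eq_sum, ← sum_add_distrib]
  apply sum_le_sum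
  intro x _
  by_cases h : a + x ∈ E <;> by_cases h' : a + x ∈ E' <;> simp [h, h']

theorem cnt_add (E : Set ℕ) (a l k : ℕ) : cnt E a (l + k) = cnt E a l + cnt E (a + l) k := by
  classical
  unfold cnt
  rw [card_filter, card_filter, card_filter, sum_range_add]
  congr 1
  apply sum_congr rfl
  intro x _
  rw [add_assoc]

theorem cnt_compl (E : Set ℕ) (a l : ℕ) : cnt E a l + cnt Eᶜ a l = l := by
  classical
  rw [cnt_eq_sum, cnt_eq_sum, ← sum_add_distrib]
  refine (sum_congr rfl (g := fun _ => 1) ?_).trans ?_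
  · intro x _
    by_cases h : a + x ∈ E <;> simp [h]
  · simp

theorem ncard_Iio (E : Set ℕ) (n : ℕ) : (E ∩ Set.Iio n).ncard = cnt E 0 n := by
  classical
  have h : E ∩ Set.Iio n = (((range n).filter (fun x => 0 + x ∈ E) : Finset ℕ) : Set ℕ) := by
    ext x; simp [and_comm]
  rw [h, Set.ncard_coe_finset]
  unfold cnt
  congr

theorem NullS.mono {E E' : Set ℕ} (h : NullS E') (hE : E ⊆ E') : NullS E := by
  intro i
  obtain ⟨M, hM⟩ := h i
  refine ⟨M, fun m hm => le_trans ?_ (hM m hm)⟩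
  exact Nat.mul_le_mul_left _ (cnt_mono (fun x _ hx => hE hx))

theorem NullS.union {E E' : Set ℕ} (h : NullS E) (h' : NullS E') : NullS (E ∪ E') := by
  intro i
  obtain ⟨M, hM⟩ := h (i + 1)
  obtain ⟨M', hM'⟩ := h' (i + 1)
  refine ⟨max M M', fun m hm => ?_⟩
  have h1 := hM m (le_trans (le_max_left _ _) hm)
  have h2 := hM' m (le_trans (le_max_right _ _) hm)
  have h3 : cntL (E ∪ E') m ≤ cntL E m + cntL E' m := cnt_union_le _ _ _ _
  rw [pow_succ] at h1 h2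
  calc 2 ^ i * cntL (E ∪ E') m ≤ 2 ^ i * (cntL E m + cntL E' m) := Nat.mul_le_mul_left _ h3
    _ ≤ 2 ^ m := by nlinarith

theorem NullS.of_finite {E : Set ℕ} (h : E.Finite) : NullS E := by
  intro i
  obtain ⟨N, hN⟩ := h.bddAbove
  refine ⟨N + 1, fun m hm => ?_⟩
  have : cntL E m = 0 := by
    classical
    unfold cntL cnt
    rw [card_eq_zero, filter_eq_empty_iff]
    intro x _ hx
    have h1 : 2 ^ m + x ≤ N := hN hx
    have h2 : m < 2 ^ m := Nat.lt_two_pow_self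
    omega
  rw [this]
  simp

theorem cnt_pow_bound {E : Set ℕ} {i M : ℕ} (h : ∀ m ≥ M, 2 ^ i * cntL E m ≤ 2 ^ m) :
    ∀ m ≥ M, 2 ^ i * cnt E 0 (2 ^ m) ≤ 2 ^ i * 2 ^ M + 2 ^ m := by
  intro m hm
  induction m, hm using Nat.le_induction with
  | base =>
    have := Nat.mul_le_mul_left (2 ^ i) (cnt_le E 0 (2 ^ M))
    exact this.trans (Nat.le_add_right _ _)
  | succ m hm ih =>
    have h1 := h m hm
    have h2 : cnt E 0 (2 ^ (m + 1)) = cnt E 0 (2 ^ m) + cntL E m := by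
      rw [pow_succ, mul_two, cnt_add]
      unfold cntL
      rw [zero_add]
    rw [h2, mul_add, pow_succ]
    omega

theorem dens1_iff (S : Set ℕ) : Dens1 S ↔ NullS Sᶜ := by
  constructor
  · intro h i
    unfold Dens1 at h
    rw [Metric.tendsto_atTop] at h
    obtain ⟨N, hN⟩ := h ((1 / 2) ^ (i + 1)) (by positivity)
    refine ⟨N, fun m hm => ?_⟩
    have h1 : N ≤ 2 ^ (m + 1) := by
      have : m < 2 ^ m := Nat.lt_two_pow_self
      rw [pow_succ]
      omega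
    have h2 := hN _ h1
    rw [Real.dist_eq, ncard_Iio] at h2
    have h3 := cnt_compl S 0 (2 ^ (m + 1))
    have h4 : (cnt S 0 (2 ^ (m + 1)) : ℝ) = 2 ^ (m + 1) - cnt Sᶜ 0 (2 ^ (m + 1)) := by
      have : ((cnt S 0 (2 ^ (m + 1)) + cnt Sᶜ 0 (2 ^ (m + 1)) : ℕ) : ℝ) = ((2 ^ (m + 1) : ℕ) : ℝ) := by
        rw [h3]
      push_cast at this
      linarith
    have hpos : (0 : ℝ) < 2 ^ (m + 1) := by positivity
    have h5 : (cnt S 0 (2 ^ (m + 1)) : ℝ) / ((2 ^ (m + 1) : ℕ) : ℝ) - 1 =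
        - ((cnt Sᶜ 0 (2 ^ (m + 1)) : ℝ) / 2 ^ (m + 1)) := by
      rw [h4]
      push_cast
      field_simp
      ring
    rw [h5, abs_neg, abs_of_nonneg (by positivity), div_lt_iff₀ hpos] at h2
    have h6 : cntL Sᶜ m ≤ cnt Sᶜ 0 (2 ^ (m + 1)) := by
      rw [pow_succ, mul_two, cnt_add, zero_add]
      unfold cntL
      omega
    have h7 : ((1 : ℝ) / 2) ^ (i + 1) * 2 ^ (m + 1) = 2 ^ m / 2 ^ i := by
      rw [div_pow, one_pow, pow_succ, pow_succ]
      field_simp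
    rw [h7, lt_div_iff₀ (by positivity)] at h2
    have h8 : ((cntL Sᶜ m : ℕ) : ℝ) ≤ cnt Sᶜ 0 (2 ^ (m + 1)) := by exact_mod_cast h6
    have h9 : (2 : ℝ) ^ i * cntL Sᶜ m ≤ 2 ^ m := by
      have : (2 : ℝ) ^ i * cntL Sᶜ m ≤ 2 ^ i * cnt Sᶜ 0 (2 ^ (m + 1)) :=
        mul_le_mul_of_nonneg_left h8 (by positivity)
      nlinarith
    exact_mod_cast h9
  · intro h
    unfold Dens1
    rw [Metric.tendsto_atTop]
    intro ε hε
    obtain ⟨i, hi⟩ := exists_pow_lt_of_lt_one (show 0 < ε / 4 by positivity)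
      (show (1 / 2 : ℝ) < 1 by norm_num)
    obtain ⟨M, hM⟩ := h i
    refine ⟨2 ^ i * 2 ^ M, fun n hn => ?_⟩
    have hn1 : 2 ^ M ≤ n := le_trans (Nat.le_mul_of_pos_left _ (by positivity)) hn
    have hnpos : 0 < n := lt_of_lt_of_le (by positivity) hn1
    set m := Nat.log 2 n with hm
    have hmM : M ≤ m := Nat.le_log_of_pow_le (by norm_num) hn1
    have hmn : 2 ^ m ≤ n := Nat.pow_log_le_self 2 hnpos.ne'
    have hnm : n < 2 ^ (m + 1) := Nat.lt_pow_succ_log_self (by norm_num) n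
    have h1 := cnt_pow_bound hM (m + 1) (by omega)
    have h2 : cnt Sᶜ 0 n ≤ cnt Sᶜ 0 (2 ^ (m + 1)) := by
      obtain ⟨k, hk⟩ := Nat.exists_eq_add_of_le hnm.le
      rw [hk, cnt_add]
      omega
    have h3 : 2 ^ i * cnt Sᶜ 0 n ≤ 3 * n := by
      have := Nat.mul_le_mul_left (2 ^ i) h2
      have h10 : 2 ^ (m + 1) = 2 ^ m + 2 ^ m := by rw [pow_succ, mul_two]
      omega
    have h4 := cnt_compl S 0 n
    have hn' : (0 : ℝ) < n := by exact_mod_cast hnpos
    rw [Real.dist_eq, ncard_Iio]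
    have h5 : (cnt S 0 n : ℝ) = n - cnt Sᶜ 0 n := by
      have : ((cnt S 0 n + cnt Sᶜ 0 n : ℕ) : ℝ) = ((n : ℕ) : ℝ) := by rw [h4]
      push_cast at this
      linarith
    have h6 : (cnt S 0 n : ℝ) / n - 1 = - ((cnt Sᶜ 0 n : ℝ) / n) := by
      rw [h5]
      field_simp
      ring
    rw [h6, abs_neg, abs_of_nonneg (by positivity), div_lt_iff₀ hn']
    have h7 : (2 : ℝ) ^ i * cnt Sᶜ 0 n ≤ 3 * n := by exact_mod_cast h3
    have h8 : (cnt Sᶜ 0 n : ℝ) ≤ (1 / 2) ^ i * (3 * n) := by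
      rw [one_div, inv_pow, ← div_eq_inv_mul, le_div_iff₀ (by positivity), mul_comm]
      exact h7
    have h9 : ((1 : ℝ) / 2) ^ i * (3 * n) < ε / 4 * (3 * n) :=
      mul_lt_mul_of_pos_right hi (by positivity)
    nlinarith

theorem Dens1.mono {S T : Set ℕ} (h : Dens1 S) (hST : S ⊆ T) : Dens1 T := by
  rw [dens1_iff] at h ⊢
  exact h.mono (Set.compl_subset_compl.2 hST)

theorem Dens1.inter {S T : Set ℕ} (h : Dens1 S) (h' : Dens1 T) : Dens1 (S ∩ T) := by
  rw [dens1_iff] at h h' ⊢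
  rw [Set.compl_inter]
  exact h.union h'

end Q206.Asy
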