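import Pool.Agent.Q206.Asy.UR

/-!
# Coding a function by a set: definitions and counting
-/

namespace Q206.Asy

open Finset Q206.Gam

/-! ### Sums over products -/

theorem sum_mul_range (f : ℕ → ℕ) (A B : ℕ) :
    ∑ x ∈ range (A * B), f x = ∑ a ∈ range A, ∑ b ∈ range B, f (a * B + b) := by
  induction A with
  | zero => simp
  | succ A ih => rw [Nat.succ_mul, sum_range_add, sum_range_succ, ih]

theorem sum_div_range (F : ℕ → ℕ) (A B : ℕ) (hB : 0 < B) :
    ∑ x ∈ range (A * B), F (x / B) = B * ∑ a ∈ range A, F a := by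
  rw [sum_mul_range, mul_sum]
  apply sum_congr rfl
  intro a _
  have : ∀ b ∈ range B, F ((a * B + b) / B) = F a := by
    intro b hb
    rw [mul_comm, Nat.mul_add_div hB, Nat.div_eq_of_lt (mem_range.1 hb), add_zero]
  rw [sum_congr rfl this]
  simp

theorem sum_mod_range (F : ℕ → ℕ) (A B : ℕ) :
    ∑ x ∈ range (A * B), F (x % B) = A * ∑ b ∈ range B, F b := by
  rw [sum_mul_range]
  have : ∀ a ∈ range A, ∑ b ∈ range B, F ((a * B + b) % B) = ∑ b ∈ range B, F b := by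
    intro a _
    apply sum_congr rfl
    intro b hb
    rw [mul_comm, Nat.mul_add_mod, Nat.mod_eq_of_lt (mem_range.1 hb)]
  rw [sum_congr rfl this]
  simp

/-- indicator -/
def ind (P : Prop) [Decidable P] : ℕ := if P then 1 else 0

theorem length_filter_range (P : ℕ → Prop) [DecidablePred P] (N : ℕ) :
    ((List.range N).filter (fun x => decide (P x))).length = ∑ x ∈ range N, ind (P x) := by
  have h1 : ((List.range N).filter (fun x => decide (P x))).length =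
      ((range N).filter P).card := by
    rw [Finset.card_def, Finset.filter_val, Finset.range_val]
    simp only [Multiset.range, Multiset.filter_coe, Multiset.coe_card]
  rw [h1, card_filter]
  rfl

/-! ### Hadamard codewords -/

theorem neg_one_pow_mod' (e : ℕ) : (-1 : ℤ) ^ e = 1 - 2 * ((e % 2 : ℕ) : ℤ) := by
  conv_lhs => rw [← Nat.mod_add_div e 2, pow_add, pow_mul]
  rcases Nat.mod_two_eq_zero_or_one e with h | h <;> simp [h]

/-- two different codewords differ on exactly half of the places -/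
theorem two_mul_differ {c w w' : ℕ} (hw : w < 2 ^ c) (hw' : w' < 2 ^ c) (h : w ≠ w') :
    2 * ∑ z ∈ range (2 ^ c), ind (¬ (ip c w z % 2 = 1 ↔ ip c w' z % 2 = 1)) = 2 ^ c := by
  have h1 : hsum c w w' = 0 := by
    apply hsum_ne
    rwa [Nat.mod_eq_of_lt hw, Nat.mod_eq_of_lt hw']
  unfold hsum at h1
  have h2 : ∀ z ∈ range (2 ^ c), (-1 : ℤ) ^ (ip c w z + ip c w' z) =
      1 - 2 * ((ind (¬ (ip c w z % 2 = 1 ↔ ip c w' z % 2 = 1)) : ℕ) : ℤ) := by
    intro z _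
    rw [neg_one_pow_mod', Nat.add_mod]
    unfold ind
    rcases Nat.mod_two_eq_zero_or_one (ip c w z) with h | h <;>
      rcases Nat.mod_two_eq_zero_or_one (ip c w' z) with h' | h' <;> simp [h, h']
  rw [sum_congr rfl h2, sum_sub_distrib, ← mul_sum] at h1
  simp only [sum_const, card_range, nsmul_eq_mul, mul_one] at h1
  have h3 : (2 * (∑ z ∈ range (2 ^ c), ind (¬ (ip c w z % 2 = 1 ↔ ip c w' z % 2 = 1)) : ℕ) : ℤ) =
      ((2 ^ c : ℕ) : ℤ) := by
    push_cast at h1 ⊢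
    linarith
  exact_mod_cast h3

theorem ip_zero (c z : ℕ) : ip c 0 z = 0 := by
  induction c with
  | zero => rfl
  | succ c ih => simp [ip, ih]

theorem two_mul_ones {c w : ℕ} (hw : w < 2 ^ c) (h : w ≠ 0) :
    2 * ∑ z ∈ range (2 ^ c), ind (ip c w z % 2 = 1) = 2 ^ c := by
  have h1 := two_mul_differ hw (Nat.pos_of_ne_zero (by positivity) : 0 < 2 ^ c) h
  have h2 : ∑ z ∈ range (2 ^ c), ind (ip c w z % 2 = 1) =
      ∑ z ∈ range (2 ^ c), ind (¬ (ip c w z % 2 = 1 ↔ ip c 0 z % 2 = 1)) := by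
    apply sum_congr rfl
    intro z _
    rw [ip_zero]
    unfold ind
    simp
  rw [h2]
  exact h1

/-! ### The code -/

/-- `j` of level `m` -/
def ej (m : ℕ) : ℕ := ((m - 2) / 3).unpair.1
/-- `k` of level `m` -/
def ek (m : ℕ) : ℕ := ((m - 2) / 3).unpair.2
/-- length of the codewords on level `m` is `2 ^ ec m` -/
def ec (m : ℕ) : ℕ := m - 2 * ej m
/-- the level for `(j, k)` -/
def lev (j k : ℕ) : ℕ := 3 * Nat.pair j k + 2

theorem ej_lev (j k : ℕ) : ej (lev j k) = j := by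
  unfold ej lev
  rw [Nat.add_sub_cancel, Nat.mul_div_cancel_left _ (by norm_num), Nat.unpair_pair]

theorem ek_lev (j k : ℕ) : ek (lev j k) = k := by
  unfold ek lev
  rw [Nat.add_sub_cancel, Nat.mul_div_cancel_left _ (by norm_num), Nat.unpair_pair]

theorem two_ej_le (m : ℕ) : 2 * ej m ≤ m := by
  unfold ej
  have h1 : ((m - 2) / 3).unpair.1 ≤ (m - 2) / 3 := Nat.unpair_left_le _
  omega

theorem ec_add (m : ℕ) : ej m + (ej m + ec m) = m := by
  have := two_ej_le m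
  unfold ec
  omega

theorem ek_lt (m : ℕ) (hm : 2 ≤ m) : ek m + 3 ≤ 2 ^ ec m := by
  have h1 : ((m - 2) / 3).unpair.1 ≤ (m - 2) / 3 := Nat.unpair_left_le _
  have h2 : ((m - 2) / 3).unpair.2 ≤ (m - 2) / 3 := Nat.unpair_right_le _
  have h3 : (m - 2) / 3 + 2 ≤ ec m := by
    unfold ec ej
    omega
  have h4 : (m - 2) / 3 + 3 ≤ 2 ^ ((m - 2) / 3 + 2) := by
    have : (m - 2) / 3 < 2 ^ ((m - 2) / 3) := Nat.lt_two_pow_self
    rw [pow_add]
    omega
  have h5 : 2 ^ ((m - 2) / 3 + 2) ≤ 2 ^ ec m := Nat.pow_le_pow_right (by norm_num) h3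
  unfold ek
  omega

/-- number of the values below `k` -/
def Tc (y : ℕ → ℕ) (j k : ℕ) : ℕ :=
  ((List.range (2 ^ j)).filter (fun n => decide (y (2 ^ j + n) < k))).length

theorem Tc_eq (y : ℕ → ℕ) (j k : ℕ) : Tc y j k = ∑ n ∈ range (2 ^ j), ind (y (2 ^ j + n) < k) :=
  length_filter_range _ _

theorem Tc_le (y : ℕ → ℕ) (j k : ℕ) : Tc y j k ≤ 2 ^ j := by
  unfold Tc
  exact (List.length_filter_le _ _).trans (by simp)

/-- the message in cell `(n, t)`: `0` is off, otherwise `1 + min (y (2 ^ j + n)) (k + 1)` -/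
def cont (y : ℕ → ℕ) (j k n t : ℕ) : ℕ :=
  if t < Tc y j k then 0 else 1 + min (y (2 ^ j + n)) (k + 1)

/-- the coding set -/
def Ab (y : ℕ → ℕ) (x : ℕ) : ℕ :=
  ip (ec (Nat.log 2 x)) (cont y (ej (Nat.log 2 x)) (ek (Nat.log 2 x))
    ((x - 2 ^ Nat.log 2 x) / 2 ^ ec (Nat.log 2 x) / 2 ^ ej (Nat.log 2 x))
    ((x - 2 ^ Nat.log 2 x) / 2 ^ ec (Nat.log 2 x) % 2 ^ ej (Nat.log 2 x)))
    ((x - 2 ^ Nat.log 2 x) % 2 ^ ec (Nat.log 2 x)) % 2

theorem log_add {m r : ℕ} (hr : r < 2 ^ m) : Nat.log 2 (2 ^ m + r) = m := by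
  rw [Nat.log_eq_iff (Or.inr ⟨by norm_num, by positivity⟩)]
  exact ⟨by omega, by rw [pow_succ]; omega⟩

theorem Ab_add (y : ℕ → ℕ) {m r : ℕ} (hr : r < 2 ^ m) : Ab y (2 ^ m + r) =
    ip (ec m) (cont y (ej m) (ek m) (r / 2 ^ ec m / 2 ^ ej m) (r / 2 ^ ec m % 2 ^ ej m))
      (r % 2 ^ ec m) % 2 := by
  unfold Ab
  rw [log_add hr, Nat.add_sub_cancel_left]

theorem Ab_lt (y : ℕ → ℕ) (x : ℕ) : Ab y x < 2 := Nat.mod_lt _ (by norm_num)

/-! ### Differences of the codes of two functions -/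

theorem Tc_sub_le (f g : ℕ → ℕ) (j k : ℕ) :
    Tc f j k ≤ Tc g j k + ∑ n ∈ range (2 ^ j), ind (f (2 ^ j + n) ≠ g (2 ^ j + n)) := by
  rw [Tc_eq, Tc_eq, ← sum_add_distrib]
  apply sum_le_sum
  intro n _
  unfold ind
  by_cases h : f (2 ^ j + n) = g (2 ^ j + n)
  · simp [h]
  · simp only [ne_eq, h, not_false_eq_true, if_true]
    split_ifs <;> omega

theorem sum_between (a b N : ℕ) :
    ∑ t ∈ range N, ind (¬ (t < a ↔ t < b)) ≤ (a - b) + (b - a) := by
  have h : ∀ N, ∑ t ∈ range N, ind (¬ (t < a ↔ t < b)) ≤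
      (min N (max a b)) - (min N (min a b)) := by
    intro N
    induction N with
    | zero => simp
    | succ N ih =>
      rw [sum_range_succ]
      unfold ind at ih ⊢
      split_ifs with h <;> omega
  have := h N
  omega

theorem sum_diff_le (f g : ℕ → ℕ) (m : ℕ) :
    ∑ r ∈ range (2 ^ m), ind (Ab f (2 ^ m + r) ≠ Ab g (2 ^ m + r)) ≤
      2 ^ (ej m + ec m + 1) *
        ∑ n ∈ range (2 ^ ej m), ind (f (2 ^ ej m + n) ≠ g (2 ^ ej m + n)) := by
  set j := ej m with hj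
  set c := ec m with hc
  set k := ek m with hk
  set ν := ∑ n ∈ range (2 ^ j), ind (f (2 ^ j + n) ≠ g (2 ^ j + n)) with hν
  set F : ℕ → ℕ := fun s => ind (cont f j k (s / 2 ^ j) (s % 2 ^ j) ≠
    cont g j k (s / 2 ^ j) (s % 2 ^ j)) with hF
  have e1 : 2 ^ m = (2 ^ j * 2 ^ j) * 2 ^ c := by
    rw [← pow_add, ← pow_add]
    congr 1
    have := ec_add m
    rw [← hj, ← hc] at this
    omega
  have h1 : ∑ r ∈ range (2 ^ m), ind (Ab f (2 ^ m + r) ≠ Ab g (2 ^ m + r)) ≤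
      ∑ r ∈ range (2 ^ m), F (r / 2 ^ c) := by
    apply sum_le_sum
    intro r hr
    rw [Ab_add f (mem_range.1 hr), Ab_add g (mem_range.1 hr), hF, ← hj, ← hc, ← hk]
    unfold ind
    by_cases h : cont f j k (r / 2 ^ c / 2 ^ j) (r / 2 ^ c % 2 ^ j) =
      cont g j k (r / 2 ^ c / 2 ^ j) (r / 2 ^ c % 2 ^ j)
    · simp [h]
    · simp only [ne_eq, h, not_false_eq_true, if_true]
      split_ifs <;> omega
  have h2 : ∑ r ∈ range (2 ^ m), F (r / 2 ^ c) = 2 ^ c * ∑ s ∈ range (2 ^ j * 2 ^ j), F s := by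
    rw [e1, sum_div_range _ _ _ (by positivity)]
  have h3 : ∑ s ∈ range (2 ^ j * 2 ^ j), F s ≤
      ∑ s ∈ range (2 ^ j * 2 ^ j), (ind (f (2 ^ j + s / 2 ^ j) ≠ g (2 ^ j + s / 2 ^ j)) +
        ind (¬ (s % 2 ^ j < Tc f j k ↔ s % 2 ^ j < Tc g j k))) := by
    apply sum_le_sum
    intro s _
    rw [hF]
    unfold ind cont
    by_cases h4 : f (2 ^ j + s / 2 ^ j) = g (2 ^ j + s / 2 ^ j)
    · by_cases h5 : (s % 2 ^ j < Tc f j k ↔ s % 2 ^ j < Tc g j k)
      · by_cases h6 : s % 2 ^ j < Tc f j k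
        · simp [h4, h6, h5.1 h6]
        · have h7 : ¬ s % 2 ^ j < Tc g j k := fun h => h6 (h5.2 h)
          simp [h4, h6, h7]
      · simp only [h5, not_false_eq_true, if_true]
        split_ifs <;> omega
    · simp only [ne_eq, h4, not_false_eq_true, if_true]
      split_ifs <;> omega
  have h4 : ∑ s ∈ range (2 ^ j * 2 ^ j), (ind (f (2 ^ j + s / 2 ^ j) ≠ g (2 ^ j + s / 2 ^ j)) +
        ind (¬ (s % 2 ^ j < Tc f j k ↔ s % 2 ^ j < Tc g j k))) =
      2 ^ j * ν + 2 ^ j * ∑ t ∈ range (2 ^ j), ind (¬ (t < Tc f j k ↔ t < Tc g j k)) := by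
    rw [sum_add_distrib]
    congr 1
    · exact sum_div_range (fun n => ind (f (2 ^ j + n) ≠ g (2 ^ j + n))) _ _ (by positivity)
    · exact sum_mod_range (fun t => ind (¬ (t < Tc f j k ↔ t < Tc g j k))) _ _
  have h5 : ∑ t ∈ range (2 ^ j), ind (¬ (t < Tc f j k ↔ t < Tc g j k)) ≤ ν := by
    refine (sum_between _ _ _).trans ?_
    have h6 := Tc_sub_le f g j k
    have h7 := Tc_sub_le g f j k
    have h8 : ∑ n ∈ range (2 ^ j), ind (g (2 ^ j + n) ≠ f (2 ^ j + n)) = ν := by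
      rw [hν]
      apply sum_congr rfl
      intro n _
      unfold ind
      simp only [ne_comm]
    rw [h8] at h7
    rw [← hν] at h6
    omega
  calc ∑ r ∈ range (2 ^ m), ind (Ab f (2 ^ m + r) ≠ Ab g (2 ^ m + r))
      ≤ 2 ^ c * ∑ s ∈ range (2 ^ j * 2 ^ j), F s := by rw [← h2]; exact h1
    _ ≤ 2 ^ c * (2 ^ j * ν + 2 ^ j * ν) := by
        refine Nat.mul_le_mul_left _ (h3.trans ?_)
        rw [h4]
        exact Nat.add_le_add_left (Nat.mul_le_mul_left _ h5) _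
    _ = 2 ^ (j + c + 1) * ν := by rw [pow_add, pow_add]; ring

end Q206.Asy
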