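import Pool.Agent.Q206.Asy.Enc

/-!
# A coarse description of `g` gives a coarse description of the code of `g`
-/

namespace Q206.Asy

open Finset Q206.Gam

theorem cntL_eq (P : ℕ → Prop) [DecidablePred P] (m : ℕ) :
    cntL {x | P x} m = ∑ r ∈ range (2 ^ m), ind (P (2 ^ m + r)) := by
  classical
  unfold cntL
  rw [cnt_eq_sum]
  apply sum_congr rfl
  intro r _
  unfold ind
  by_cases h : P (2 ^ m + r) <;> simp [h]

theorem Tc_full {y : ℕ → ℕ} {j k : ℕ} (h : ∀ n < 2 ^ (j + 1), y n < k) : Tc y j k = 2 ^ j := by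
  rw [Tc_eq]
  have : ∀ n ∈ range (2 ^ j), ind (y (2 ^ j + n) < k) = 1 := by
    intro n hn
    have h1 := mem_range.1 hn
    unfold ind
    rw [if_pos]
    apply h
    rw [pow_succ]; omega
  rw [sum_congr rfl this]
  simp

theorem Ab_zero_of_full {y : ℕ → ℕ} {m r : ℕ} (h : ∀ n < 2 ^ (ej m + 1), y n < ek m)
    (hr : r < 2 ^ m) : Ab y (2 ^ m + r) = 0 := by
  rw [Ab_add y hr]
  have h1 : cont y (ej m) (ek m) (r / 2 ^ ec m / 2 ^ ej m) (r / 2 ^ ec m % 2 ^ ej m) = 0 := by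
    unfold cont
    rw [Tc_full h, if_pos (Nat.mod_lt _ (by positivity))]
  rw [h1, ip_zero]

theorem exists_bound_values (y : ℕ → ℕ) (N : ℕ) : ∃ k₀, ∀ n < N, y n < k₀ := by
  refine ⟨(range N).sup y + 1, fun n hn => ?_⟩
  have := le_sup (f := y) (mem_range.2 hn)
  omega

theorem level_cases (M k₀ : ℕ) : ∃ m₀, ∀ m ≥ m₀, M ≤ ej m ∨ k₀ ≤ ek m := by
  refine ⟨3 * Nat.pair M k₀ + 5, fun m hm => ?_⟩
  by_contra hcon
  push Not at hcon
  obtain ⟨h1, h2⟩ := hcon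
  have h3 : Nat.pair (ej m) (ek m) = (m - 2) / 3 := Nat.pair_unpair _
  have h4 : Nat.pair (ej m) (ek m) < Nat.pair M (ek m) := Nat.pair_lt_pair_left _ h1
  have h5 : Nat.pair M (ek m) < Nat.pair M k₀ := Nat.pair_lt_pair_right _ h2
  omega

theorem coarse_Ab {f g : ℕ → ℕ} (h : Coarse g f) : Coarse (Ab g) (Ab f) := by
  unfold Coarse at h ⊢
  rw [dens1_iff] at h ⊢
  intro i
  obtain ⟨M, hM⟩ := h (i + 1)
  obtain ⟨k1, hk1⟩ := exists_bound_values f (2 ^ (M + 1))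
  obtain ⟨k2, hk2⟩ := exists_bound_values g (2 ^ (M + 1))
  obtain ⟨m₀, hm₀⟩ := level_cases M (max k1 k2)
  refine ⟨m₀, fun m hm => ?_⟩
  have e1 : {n | Ab f n = Ab g n}ᶜ = {x | Ab f x ≠ Ab g x} := rfl
  rw [e1, cntL_eq]
  by_cases hj : M ≤ ej m
  · have h1 := hM (ej m) hj
    have e2 : {n | f n = g n}ᶜ = {x | f x ≠ g x} := rfl
    rw [e2, cntL_eq] at h1
    have h2 := sum_diff_le f g m
    set ν := ∑ n ∈ range (2 ^ ej m), ind (f (2 ^ ej m + n) ≠ g (2 ^ ej m + n)) with hν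
    calc 2 ^ i * ∑ r ∈ range (2 ^ m), ind (Ab f (2 ^ m + r) ≠ Ab g (2 ^ m + r))
        ≤ 2 ^ i * (2 ^ (ej m + ec m + 1) * ν) := Nat.mul_le_mul_left _ h2
      _ = 2 ^ (ej m + ec m) * (2 ^ (i + 1) * ν) := by rw [pow_succ, pow_succ]; ring
      _ ≤ 2 ^ (ej m + ec m) * 2 ^ ej m := Nat.mul_le_mul_left _ h1
      _ = 2 ^ m := by
        rw [← pow_add]
        congr 1
        have := ec_add m
        omega
  · have hk : max k1 k2 ≤ ek m := (hm₀ m hm).resolve_left hj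
    have hz : ∀ r ∈ range (2 ^ m), ind (Ab f (2 ^ m + r) ≠ Ab g (2 ^ m + r)) = 0 := by
      intro r hr
      have hr' := mem_range.1 hr
      have hle : 2 ^ (ej m + 1) ≤ 2 ^ (M + 1) := Nat.pow_le_pow_right (by norm_num) (by omega)
      rw [Ab_zero_of_full (fun n hn => lt_of_lt_of_le (hk1 n (by omega))
        ((le_max_left _ _).trans hk)) hr',
        Ab_zero_of_full (fun n hn => lt_of_lt_of_le (hk2 n (by omega))
        ((le_max_right _ _).trans hk)) hr']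
      simp [ind]
    rw [sum_congr rfl hz]
    simp

end Q206.Asy
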