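import Pool.Agent.Q206.Asy.Core

/-!
# Hiding conditions and fusion
-/

namespace Q206.Asy

open Filter Topology

/-- conditions `(m, S, a)`: below `2 ^ m` exactly `S` is hidden, above at most the proportion
`2 ^ (- a)` of each dyadic interval -/
abbrev Cond : Type := ℕ × Finset ℕ × ℕ

/-- `Z` satisfies the condition `p` -/
def In (p : Cond) (Z : Set ℕ) : Prop :=
  (∀ n < 2 ^ p.1, n ∈ Z ↔ n ∈ p.2.1) ∧ ∀ j ≥ p.1, 2 ^ p.2.2 * cntL Z j ≤ 2 ^ j

/-- well-formed conditions -/
def WF (p : Cond) : Prop := ∀ n ∈ p.2.1, n < 2 ^ p.1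

/-- `q` extends `p` -/
def Ext (q p : Cond) : Prop := p.1 ≤ q.1 ∧ p.2.2 ≤ q.2.2 ∧ In p (q.2.1 : Set ℕ)

theorem cntL_congr {Z Z' : Set ℕ} {j : ℕ} (h : ∀ n, 2 ^ j ≤ n → n < 2 ^ (j + 1) → (n ∈ Z ↔ n ∈ Z')) :
    cntL Z j = cntL Z' j := by
  unfold cntL
  have h2 : ∀ x < 2 ^ j, 2 ^ j + x < 2 ^ (j + 1) := by
    intro x hx
    rw [pow_succ]; omega
  exact le_antisymm (cnt_mono (fun x hx => (h _ (by omega) (h2 x hx)).1))
    (cnt_mono (fun x hx => (h _ (by omega) (h2 x hx)).2))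

theorem cntL_eq_zero {Z : Set ℕ} {j : ℕ} (h : ∀ n ∈ Z, n < 2 ^ j) : cntL Z j = 0 := by
  have : cntL Z j = cntL (∅ : Set ℕ) j := by
    apply cntL_congr
    intro n hn _
    simp only [Set.mem_empty_iff_false, iff_false]
    intro hz
    have := h n hz
    omega
  rw [this]
  unfold cntL cnt
  simp

theorem In.of_ext {p q : Cond} {Z : Set ℕ} (hqp : Ext q p) (hZ : In q Z) : In p Z := by
  obtain ⟨h1, h2, h3, h4⟩ := hqp
  obtain ⟨h5, h6⟩ := hZ
  constructor
  · intro n hn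
    rw [h5 n (lt_of_lt_of_le hn (Nat.pow_le_pow_right (by norm_num) h1)), ← h3 n hn]
    rfl
  · intro j hj
    by_cases hjq : j < q.1
    · have : cntL Z j = cntL (q.2.1 : Set ℕ) j := by
        apply cntL_congr
        intro n _ hn
        rw [h5 n (lt_of_lt_of_le hn (Nat.pow_le_pow_right (by norm_num) hjq))]
        rfl
      rw [this]
      exact h4 j hj
    · refine le_trans ?_ (h6 j (not_lt.1 hjq))
      exact Nat.mul_le_mul_right _ (Nat.pow_le_pow_right (by norm_num) h2)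

theorem Ext.trans {p q r : Cond} (h1 : Ext r q) (h2 : Ext q p) : Ext r p :=
  ⟨h2.1.trans h1.1, h2.2.1.trans h1.2.1, In.of_ext h2 h1.2.2⟩

theorem In.self {p : Cond} (hp : WF p) : In p (p.2.1 : Set ℕ) := by
  refine ⟨fun n _ => Iff.rfl, fun j hj => ?_⟩
  rw [cntL_eq_zero (fun n hn => lt_of_lt_of_le (hp n hn) (Nat.pow_le_pow_right (by norm_num) hj))]
  simp

theorem Ext.refl {p : Cond} (hp : WF p) : Ext p p := ⟨le_rfl, le_rfl, In.self hp⟩

/-- make the bounds stricter -/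
def bump (p : Cond) : Cond := (p.1 + 1, p.2.1, p.2.2 + 1)

theorem WF.bump {p : Cond} (hp : WF p) : WF (bump p) := by
  intro n hn
  have := hp n hn
  show n < 2 ^ (p.1 + 1)
  rw [pow_succ]; omega

theorem Ext.bump {p : Cond} (hp : WF p) : Ext (bump p) p :=
  ⟨Nat.le_succ _, Nat.le_succ _, In.self hp⟩

/-- **Fusion.** -/
theorem fusion {Bad : ℕ → Set ℕ → Prop}
    (hkill : ∀ e p, WF p → ∃ q, WF q ∧ Ext q p ∧ ∀ Z, In q Z → Bad e Z) :
    ∃ Z, NullS Z ∧ ∀ e, Bad e Z := by
  choose! q hq1 hq2 hq3 using hkill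
  let P : ℕ → Cond := fun n => Nat.rec (0, ∅, 0) (fun e p => bump (q e p)) n
  have hP0 : P 0 = (0, ∅, 0) := rfl
  have hPs : ∀ e, P (e + 1) = bump (q e (P e)) := fun e => rfl
  have hWF : ∀ e, WF (P e) := by
    intro e
    induction e with
    | zero => rw [hP0]; intro n hn; simp at hn
    | succ e ih => rw [hPs]; exact (hq1 e _ ih).bump
  have hstep : ∀ e, Ext (P (e + 1)) (P e) := fun e => by
    rw [hPs]
    exact (Ext.bump (hq1 e _ (hWF e))).trans (hq2 e _ (hWF e))
  have hext : ∀ e k, Ext (P (e + k)) (P e) := by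
    intro e k
    induction k with
    | zero => exact Ext.refl (hWF e)
    | succ k ih => exact (hstep (e + k)).trans ih
  have hm : ∀ e, e ≤ (P e).1 := by
    intro e
    induction e with
    | zero => exact Nat.zero_le _
    | succ e ih =>
      have h1 := (hq2 e _ (hWF e)).1
      rw [hPs]
      show e + 1 ≤ (q e (P e)).1 + 1
      omega
  have ha : ∀ e, e ≤ (P e).2.2 := by
    intro e
    induction e with
    | zero => exact Nat.zero_le _
    | succ e ih =>
      have h1 := (hq2 e _ (hWF e)).2.1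
      rw [hPs]
      show e + 1 ≤ (q e (P e)).2.2 + 1
      omega
  set Z : Set ℕ := {n | ∃ e, n ∈ (P e).2.1} with hZ
  have hlow : ∀ e n, n < 2 ^ (P e).1 → (n ∈ Z ↔ n ∈ (P e).2.1) := by
    intro e n hn
    constructor
    · rintro ⟨e', he'⟩
      rcases le_total e e' with h | h
      · obtain ⟨k, rfl⟩ := Nat.exists_eq_add_of_le h
        exact ((hext e k).2.2.1 n hn).1 he'
      · obtain ⟨k, rfl⟩ := Nat.exists_eq_add_of_le h
        exact ((hext e' k).2.2.1 n (hWF e' n he')).2 he'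
    · intro h
      exact ⟨e, h⟩
  have hin : ∀ e, In (P e) Z := by
    intro e
    refine ⟨hlow e, fun j hj => ?_⟩
    have h1 : cntL Z j = cntL ((P (e + (j + 1))).2.1 : Set ℕ) j := by
      apply cntL_congr
      intro n _ hn
      rw [hlow (e + (j + 1)) n]
      · rfl
      · refine lt_of_lt_of_le hn (Nat.pow_le_pow_right (by norm_num) ?_)
        have := hm (e + (j + 1))
        omega
    rw [h1]
    exact (hext e (j + 1)).2.2.2 j hj
  refine ⟨Z, ?_, ?_⟩
  · intro i
    refine ⟨(P i).1, fun m hm' => ?_⟩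
    refine le_trans ?_ ((hin i).2 m hm')
    exact Nat.mul_le_mul_right _ (Nat.pow_le_pow_right (by norm_num) (ha i))
  · intro e
    refine hq3 e _ (hWF e) Z ?_
    have h1 := hin (e + 1)
    rw [hPs] at h1
    exact In.of_ext (Ext.bump (hq1 e _ (hWF e))) h1

end Q206.Asy
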