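import Pool.Agent.Q206.Asy.Ops

/-!
# The negative results
-/

namespace Q206.Asy

open Filter Topology Encodable

/-! ### The hidden parts of the levels -/

/-- the part of level `j` which is hidden -/
def Hp (p : Cond) (j : ℕ) : Finset ℕ :=
  if p.1 ≤ j ∧ p.2.2 ≤ j then (Finset.range (2 ^ (j - p.2.2))).image (fun x => 2 ^ j + x) else ∅

theorem mem_Hp {p : Cond} {j n : ℕ} (h : n ∈ Hp p j) :
    p.1 ≤ j ∧ p.2.2 ≤ j ∧ 2 ^ j ≤ n ∧ n < 2 ^ j + 2 ^ (j - p.2.2) ∧ n < 2 ^ (j + 1) := by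
  unfold Hp at h
  split_ifs at h with hc
  · rw [Finset.mem_image] at h
    obtain ⟨x, hx, rfl⟩ := h
    rw [Finset.mem_range] at hx
    have h1 : 2 ^ (j - p.2.2) ≤ 2 ^ j := Nat.pow_le_pow_right (by norm_num) (Nat.sub_le _ _)
    refine ⟨hc.1, hc.2, by omega, by omega, ?_⟩
    rw [pow_succ]; omega
  · simp at h

theorem Hp_far (p : Cond) (N : ℕ) : ∃ j₀, ∀ j ≥ j₀, ∀ n ∈ Hp p j, N ≤ n := by
  refine ⟨N, fun j hj n hn => ?_⟩
  have h1 := (mem_Hp hn).2.2.1
  have h2 : j < 2 ^ j := Nat.lt_two_pow_self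
  omega

theorem cnt_le_of_lt {E : Set ℕ} {a l k : ℕ} (h : ∀ x < l, a + x ∈ E → x < k) : cnt E a l ≤ k := by
  classical
  unfold cnt
  have : ((Finset.range l).filter (fun x => a + x ∈ E)) ⊆ Finset.range k := by
    intro x hx
    rw [Finset.mem_filter, Finset.mem_range] at hx
    exact Finset.mem_range.2 (h x hx.1 hx.2)
  calc _ ≤ (Finset.range k).card := Finset.card_le_card (by convert this)
    _ = k := Finset.card_range k

theorem le_cnt_of {E : Set ℕ} {a l k : ℕ} (hk : k ≤ l) (h : ∀ x < k, a + x ∈ E) :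
    k ≤ cnt E a l := by
  classical
  unfold cnt
  have : Finset.range k ⊆ ((Finset.range l).filter (fun x => a + x ∈ E)) := by
    intro x hx
    rw [Finset.mem_range] at hx
    rw [Finset.mem_filter, Finset.mem_range]
    exact ⟨by omega, h x hx⟩
  calc k = (Finset.range k).card := (Finset.card_range k).symm
    _ ≤ _ := Finset.card_le_card (by convert this)

theorem In_hidden {p : Cond} (hp : WF p) (i : ℕ) : In p ((p.2.1 ∪ Zs (Hp p) i : Finset ℕ) : Set ℕ) := by
  have hmem : ∀ n ∈ Zs (Hp p) i, ∃ j', n ∈ Hp p j' := by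
    intro n hn
    unfold Zs at hn
    rw [Finset.mem_biUnion] at hn
    obtain ⟨j', _, h⟩ := hn
    exact ⟨j', h⟩
  constructor
  · intro n hn
    rw [Finset.mem_coe, Finset.mem_union]
    constructor
    · rintro (h | h)
      · exact h
      · exfalso
        obtain ⟨j', hj'⟩ := hmem n h
        obtain ⟨h1, _, h2, _⟩ := mem_Hp hj'
        have : 2 ^ p.1 ≤ 2 ^ j' := Nat.pow_le_pow_right (by norm_num) h1
        omega
    · exact Or.inl
  · intro j hj
    have hpj : 2 ^ p.1 ≤ 2 ^ j := Nat.pow_le_pow_right (by norm_num) hj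
    have key : ∀ x < 2 ^ j, 2 ^ j + x ∈ ((p.2.1 ∪ Zs (Hp p) i : Finset ℕ) : Set ℕ) →
        p.2.2 ≤ j ∧ x < 2 ^ (j - p.2.2) := by
      intro x hx hmem'
      rw [Finset.mem_coe, Finset.mem_union] at hmem'
      rcases hmem' with h | h
      · have := hp _ h
        omega
      · obtain ⟨j', hj'⟩ := hmem _ h
        obtain ⟨_, h1, h2, h3, h4⟩ := mem_Hp hj'
        have hjj : j' = j := by
          have e1 : Nat.log 2 (2 ^ j + x) = j := by
            rw [Nat.log_eq_iff (Or.inr ⟨by norm_num, by positivity⟩)]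
            exact ⟨by omega, by rw [pow_succ]; omega⟩
          have e2 : Nat.log 2 (2 ^ j + x) = j' := by
            rw [Nat.log_eq_iff (Or.inr ⟨by norm_num, by positivity⟩)]
            exact ⟨h2, h4⟩
          omega
        subst hjj
        exact ⟨h1, by omega⟩
    by_cases ha : p.2.2 ≤ j
    · have h1 : cntL ((p.2.1 ∪ Zs (Hp p) i : Finset ℕ) : Set ℕ) j ≤ 2 ^ (j - p.2.2) :=
        cnt_le_of_lt (fun x hx hm => (key x hx hm).2)
      calc 2 ^ p.2.2 * cntL ((p.2.1 ∪ Zs (Hp p) i : Finset ℕ) : Set ℕ) j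
          ≤ 2 ^ p.2.2 * 2 ^ (j - p.2.2) := Nat.mul_le_mul_left _ h1
        _ = 2 ^ j := by rw [← pow_add, Nat.add_sub_cancel' ha]
    · have h1 : cntL ((p.2.1 ∪ Zs (Hp p) i : Finset ℕ) : Set ℕ) j ≤ 0 :=
        cnt_le_of_lt (fun x hx hm => absurd (key x hx hm).1 ha)
      rw [Nat.le_zero.1 h1]
      simp

/-! ### The canonical description -/

theorem log_level {m x : ℕ} (hx : x < 2 ^ m) : Nat.log 2 (2 ^ m + x) = m := by
  rw [Nat.log_eq_iff (Or.inr ⟨by norm_num, by positivity⟩)]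
  exact ⟨by omega, by rw [pow_succ]; omega⟩

theorem null_Dt {V : (ℕ → ℕ) → Finset ℕ → Set (ℕ × ℕ)} {H : ℕ → Finset ℕ} {g : ℕ → ℕ}
    (hnull : ∀ i, NullS (undef V g (Zs H i))) : NullS {x | Dt V H g x = 0} := by
  classical
  have hP : ∀ i, PK V H i g (Kf V H i g) := by
    intro i
    have h1 : ∃ K, PK V H i g K := by
      obtain ⟨M, hM⟩ := hnull i i
      exact ⟨M, hM⟩
    have h2 := Nat.find_spec (exists_Kf V H i g)
    rcases h2 with h2 | h2
    · exact h2
    · obtain ⟨K, hK⟩ := h1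
      exact absurd hK (h2 K)
  intro i
  refine ⟨max i (Kf V H i g), fun m hm => ?_⟩
  have hi : i ≤ m := (le_max_left _ _).trans hm
  have hK : Kf V H i g ≤ m := (le_max_right _ _).trans hm
  have h1 : i ≤ lam V H m g := Nat.le_findGreatest hi hK
  have h2 : Kf V H (lam V H m g) g ≤ m :=
    Nat.findGreatest_spec (P := fun i => Kf V H i g ≤ m) hi hK
  have h3 := hP (lam V H m g) m h2
  have h4 : cntL {x | Dt V H g x = 0} m ≤ cntL (undef V g (Zs H (lam V H m g))) m := by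
    unfold cntL
    apply cnt_mono
    intro x hx hD
    have hD' : Dt V H g (2 ^ m + x) = 0 := hD
    unfold Dt at hD'
    rw [log_level hx] at hD'
    split_ifs at hD' with c1 c2
    intro hc
    exact hc.elim c1 c2
  calc 2 ^ i * cntL {x | Dt V H g x = 0} m
      ≤ 2 ^ lam V H m g * cntL (undef V g (Zs H (lam V H m g))) m :=
        Nat.mul_le_mul (Nat.pow_le_pow_right (by norm_num) h1) h4
    _ ≤ 2 ^ m := h3

theorem Dt_value {V : (ℕ → ℕ) → Finset ℕ → Set (ℕ × ℕ)} {H : ℕ → Finset ℕ} {g : ℕ → ℕ} {x v : ℕ}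
    (h : Dt V H g x = v + 1) : ∃ i, (x, v) ∈ V g (Zs H i) := by
  unfold Dt at h
  split_ifs at h with h1 h2
  · have : v = 0 := by omega
    subst this
    exact ⟨_, h1⟩
  · have : v = 1 := by omega
    subst this
    exact ⟨_, h2⟩

theorem not_desc {V : (ℕ → ℕ) → Finset ℕ → Set (ℕ × ℕ)} {p : Cond} {g : ℕ → ℕ}
    {Ψ : (ℕ → ℕ) → Set (ℕ × ℕ)} (hbad : ∀ J, g ∉ Bad V (Hp p) Ψ J)
    (hsv : SV (Ψ (Dt V (Hp p) g))) : ¬ Dens1 {n | (n, g n) ∈ Ψ (Dt V (Hp p) g)} := by
  intro hd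
  rw [dens1_iff] at hd
  obtain ⟨M, hM⟩ := hd (p.2.2 + 1)
  have h1 := hbad (max M (max p.1 p.2.2))
  unfold Bad at h1
  simp only [Set.mem_ofPred_eq, not_and] at h1
  have h2 := h1 hsv
  push Not at h2
  obtain ⟨j, hj, hall⟩ := h2
  have hjM : M ≤ j := (le_max_left _ _).trans hj
  have hjm : p.1 ≤ j := (le_max_left _ _).trans ((le_max_right _ _).trans hj)
  have hja : p.2.2 ≤ j := (le_max_right _ _).trans ((le_max_right _ _).trans hj)
  have h3 : 2 ^ (j - p.2.2) ≤ cntL {n | (n, g n) ∈ Ψ (Dt V (Hp p) g)}ᶜ j := by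
    unfold cntL
    refine le_cnt_of (Nat.pow_le_pow_right (by norm_num) (Nat.sub_le _ _)) ?_
    intro x hx
    refine hall _ ?_
    unfold Hp
    rw [if_pos ⟨hjm, hja⟩, Finset.mem_image]
    exact ⟨x, Finset.mem_range.2 hx, rfl⟩
  have h4 := hM j hjM
  have h5 : 2 ^ (p.2.2 + 1) * 2 ^ (j - p.2.2) ≤ 2 ^ j := (Nat.mul_le_mul_left _ h3).trans h4
  rw [← pow_add] at h5
  have h6 : p.2.2 + 1 + (j - p.2.2) = j + 1 := by omega
  rw [h6, pow_succ] at h5
  have : 0 < 2 ^ j := by positivity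
  omega

/-! ### Operators on descriptions of the set -/

/-- graph of the partial function coded by `d` -/
def grD (d : ℕ → ℕ) : Set ℕ := {k | d k.unpair.1 = k.unpair.2 + 1}

/-- relation enumerated from a description -/
def PsiE (W : Set (Finset ℕ × ℕ)) (d : ℕ → ℕ) : Set (ℕ × ℕ) :=
  {t | Nat.pair t.1 t.2 ∈ enumOp W (grD d)}

/-- values computed from a description -/
def PsiT (c : OCode) (d : ℕ → ℕ) : Set (ℕ × ℕ) := {t | t.2 + 1 ∈ c.eval d t.1}

theorem measurableSet_PsiE (W : Set (Finset ℕ × ℕ)) (n v : ℕ) :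
    MeasurableSet {d | (n, v) ∈ PsiE W d} := by
  have h1 : ∀ F : Finset ℕ, MeasurableSet {d : ℕ → ℕ | (F : Set ℕ) ⊆ grD d} := by
    intro F
    have : {d : ℕ → ℕ | (F : Set ℕ) ⊆ grD d} =
        ⋂ k ∈ F, {d : ℕ → ℕ | d k.unpair.1 = k.unpair.2 + 1} := by
      ext d
      simp only [Set.mem_ofPred_eq, Set.mem_iInter, grD]
      rfl
    rw [this]
    refine MeasurableSet.biInter (Finset.countable_toSet F) fun k _ => ?_
    exact (measurable_of_countable (fun y : ℕ => y = k.unpair.2 + 1)).comp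
      (measurable_pi_apply _) |>.setOf
  have : {d : ℕ → ℕ | (n, v) ∈ PsiE W d} =
      ⋃ F : Finset ℕ, ⋃ _ : (F, Nat.pair n v) ∈ W, {d : ℕ → ℕ | (F : Set ℕ) ⊆ grD d} := by
    ext d
    simp only [PsiE, enumOp, Set.mem_ofPred_eq, Set.mem_iUnion, exists_prop]
  rw [this]
  exact MeasurableSet.iUnion fun F => MeasurableSet.iUnion fun _ => h1 F

theorem measurableSet_PsiT (c : OCode) (n v : ℕ) : MeasurableSet {d | (n, v) ∈ PsiT c d} :=
  (isOpen_eval c n (v + 1)).measurableSet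

/-- operator for the enumeration reducibilities -/
def VE (W : Set (Finset ℕ × ℕ)) (p : Cond) (g : ℕ → ℕ) (Z : Finset ℕ) : Set (ℕ × ℕ) :=
  RW W g ((p.2.1 ∪ Z : Finset ℕ) : Set ℕ)

/-- operator for the effective dense reducibilities -/
def VT (c : OCode) (p : Cond) (g : ℕ → ℕ) (Z : Finset ℕ) : Set (ℕ × ℕ) :=
  VC c p g (p.2.1 ∪ Z)

theorem meagre_E (W W' : Set (Finset ℕ × ℕ)) (p : Cond) (J : ℕ) :
    IsMeagre (Bad (VE W p) (Hp p) (PsiE W') J) := by
  refine core (fun Z x v => isOpen_RW W _ (x, v)) ?_ (Hp_far p) (measurableSet_PsiE W') J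
  intro Z g g' h
  refine RW_off fun n hn => h n ?_
  intro hz
  exact hn (Finset.mem_coe.2 (Finset.mem_union_right _ hz))

theorem meagre_T (c c' : OCode) (p : Cond) (J : ℕ) :
    IsMeagre (Bad (VT c p) (Hp p) (PsiT c') J) := by
  refine core (fun Z x v => isOpen_VC c p _ (x, v)) ?_ (Hp_far p) (measurableSet_PsiT c') J
  intro Z g g' h
  refine VC_off fun n hn => h n ?_
  intro hz
  exact hn (Finset.mem_union_right _ hz)

/-! ### Enumerations of the operators -/

theorem countable_CE : {W : Set (Finset ℕ × ℕ) | CE W}.Countable := by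
  rw [Set.countable_iff_exists_injOn]
  have hc : ∀ W : Set (Finset ℕ × ℕ), CE W → ∃ c : Nat.Partrec.Code,
      ∀ t : Finset ℕ × ℕ, (c.eval (@encode _ Primcodable.toEncodable t)).Dom ↔ t ∈ W := by
    intro W hW
    have h1 : Partrec (fun a : Finset ℕ × ℕ => Part.assert (a ∈ W) fun _ => Part.some ()) := hW
    obtain ⟨c, hc⟩ := Nat.Partrec.Code.exists_code.1 h1
    refine ⟨c, fun t => ?_⟩
    rw [hc]
    have h2 : (Part.assert (t ∈ W) fun _ => Part.some ()).Dom ↔ t ∈ W :=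
      ⟨fun h => h.1, fun h => ⟨h, trivial⟩⟩
    beta_reduce
    rw [@encodek _ Primcodable.toEncodable]
    simpa using h2
  classical
  refine ⟨fun W => if hW : CE W then encode (hc W hW).choose else 0, ?_⟩
  intro W hW W' hW' heq
  have h1 : CE W := hW
  have h2 : CE W' := hW'
  simp only [h1, h2, dif_pos, encode_inj] at heq
  ext t
  rw [← (hc W h1).choose_spec t, ← (hc W' h2).choose_spec t, heq]

theorem CE_empty : CE ∅ := by
  have : ComputablePred (fun _ : Finset ℕ × ℕ => False) :=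
    ComputablePred.computable_iff.2 ⟨fun _ => false, Computable.const false, by simp⟩
  exact this.to_re.of_eq (fun _ => Iff.rfl)

end Q206.Asy
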