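import Pool.Agent.Q206.Asy.Neg

/-!
# A function which is not equivalent to any set
-/

namespace Q206.Asy

open Filter Topology Encodable

theorem chi_cases (A : Set ℕ) (x : ℕ) : chi A x = 0 ∨ chi A x = 1 := by
  unfold chi; split_ifs <;> simp

/-- the partial function coded by `d` -/
noncomputable def decP (d : ℕ → ℕ) : ℕ →. ℕ := fun x =>
  if d x = 0 then Part.none else Part.some (d x - 1)

/-- the function with `□` coded by `d` -/
def decO (d : ℕ → ℕ) : ℕ → Option ℕ := fun x => if d x = 0 then none else some (d x - 1)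

theorem mem_decP {d : ℕ → ℕ} {x v : ℕ} : v ∈ decP d x ↔ d x = v + 1 := by
  unfold decP
  split_ifs with h
  · simp [h]
  · rw [Part.mem_some_iff]; omega

theorem gr_decP (d : ℕ → ℕ) : gr (decP d) = grD d := by
  ext k
  exact mem_decP

theorem code_decO (d : ℕ → ℕ) : code (decO d) = d := by
  funext x
  unfold code decO
  split_ifs with h
  · simp [h]
  · simp only [encode_some, encode_nat, Nat.succ_eq_add_one]; omega

theorem decO_eq_some {d : ℕ → ℕ} {x v : ℕ} (h : decO d x = some v) : d x = v + 1 := by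
  unfold decO at h
  split_ifs at h with h0
  have := Option.some_injective _ h
  omega

/-- a generic function relative to countably many operators -/
theorem exists_generic (Wn : ℕ → Set (Finset ℕ × ℕ)) (cn : ℕ → OCode) :
    ∃ g : ℕ → ℕ, (∀ e e' p J, g ∉ Bad (VE (Wn e) p) (Hp p) (PsiE (Wn e')) J) ∧
      ∀ e e' p J, g ∉ Bad (VT (cn e) p) (Hp p) (PsiT (cn e')) J := by
  have h1 : (⋂ t : ℕ × ℕ × Cond × ℕ,
      (Bad (VE (Wn t.1) t.2.2.1) (Hp t.2.2.1) (PsiE (Wn t.2.1)) t.2.2.2)ᶜ) ∈ residual (ℕ → ℕ) :=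
    countable_iInter_mem.2 fun t => meagre_E _ _ _ _
  have h2 : (⋂ t : ℕ × ℕ × Cond × ℕ,
      (Bad (VT (cn t.1) t.2.2.1) (Hp t.2.2.1) (PsiT (cn t.2.1)) t.2.2.2)ᶜ) ∈ residual (ℕ → ℕ) :=
    countable_iInter_mem.2 fun t => meagre_T _ _ _ _
  obtain ⟨g, hg⟩ := (dense_of_mem_residual (inter_mem h1 h2)).nonempty
  refine ⟨g, fun e e' p J => ?_, fun e e' p J => ?_⟩
  · exact (Set.mem_iInter.1 hg.1) (e, e', p, J)
  · exact (Set.mem_iInter.1 hg.2) (e, e', p, J)

/-- The common argument for the generic and the dense reducibilities. -/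
theorem neg_enum {g : ℕ → ℕ} {A : Set ℕ} {𝒯 : Set (Finset (ℕ × ℕ))}
    {Wn : ℕ → Set (Finset ℕ × ℕ)}
    (hg : ∀ e e' p J, g ∉ Bad (VE (Wn e) p) (Hp p) (PsiE (Wn e')) J)
    (h1 : ∀ Z, NullS Z → ∃ e, (∀ T ∈ 𝒯, ¬ ∀ t ∈ T, t ∈ RW (Wn e) g Z) ∧
      Dens1 {x | (x, chi A x) ∈ RW (Wn e) g Z})
    (h2 : ∀ d : ℕ → ℕ, NullS {x | d x = 0} →
      (∃ E : Set (ℕ × ℕ), (∀ T ∈ 𝒯, ¬ ∀ t ∈ T, t ∈ E) ∧ Dens1 {x | (x, chi A x) ∈ E} ∧
        ∀ x v, d x = v + 1 → (x, v) ∈ E) →
      ∃ e', SV (PsiE (Wn e') d) ∧ Dens1 {n | (n, g n) ∈ PsiE (Wn e') d}) : False := by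
  obtain ⟨e, p, hp, hgood⟩ := unif_enum h1
  set V := VE (Wn e) p with hV
  have hnull : ∀ i, NullS (undef V g (Zs (Hp p) i)) := by
    intro i
    have h3 := (hgood _ (In_hidden hp i)).2
    rw [dens1_iff] at h3
    refine h3.mono ?_
    intro x hx hmem
    have hmem' : (x, chi A x) ∈ RW (Wn e) g ((p.2.1 ∪ Zs (Hp p) i : Finset ℕ) : Set ℕ) := hmem
    apply hx
    rcases chi_cases A x with h | h
    · left; rw [h] at hmem'; exact hmem'
    · right; rw [h] at hmem'; exact hmem'
  obtain ⟨e', hsv, hd⟩ := h2 (Dt V (Hp p) g) (null_Dt hnull)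
    ⟨RW (Wn e) g (p.2.1 : Set ℕ), (hgood _ (In.self hp)).1, (hgood _ (In.self hp)).2, by
      intro x v hx
      obtain ⟨i, hi⟩ := Dt_value hx
      refine RW_anti ?_ hi
      intro n hn
      exact Finset.mem_coe.2 (Finset.mem_union_left _ hn)⟩
  exact not_desc (hg e e' p) hsv hd

theorem exists_g : ∃ g : ℕ → ℕ, ∀ A : Set ℕ,
    ¬ (NED g (chi A) ∧ NED (chi A) g) ∧ ¬ (NG g (chi A) ∧ NG (chi A) g) ∧
    ¬ (ND g (chi A) ∧ ND (chi A) g) := by
  obtain ⟨Wn, hWn⟩ := countable_CE.exists_eq_range ⟨∅, CE_empty⟩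
  have hWn' : ∀ W, CE W → ∃ e, Wn e = W := by
    intro W hW
    have : W ∈ Set.range Wn := by rw [← hWn]; exact hW
    exact this
  have : Nonempty OCode := ⟨.zero⟩
  obtain ⟨cn, hcn⟩ := exists_surjective_nat OCode
  obtain ⟨g, hgE, hgT⟩ := exists_generic Wn cn
  refine ⟨g, fun A => ⟨?_, ?_, ?_⟩⟩
  · -- effective dense
    rintro ⟨hgA, hAg⟩
    obtain ⟨e, p, hp, hval, hdens⟩ := unif_turing (g := g) (A := chi A) (cn := cn) (by
      intro Z hZ
      obtain ⟨f, hf, hred⟩ := hAg _ (effDense_hidO g hZ)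
      rw [code_hidO] at hred
      obtain ⟨c, hc⟩ := exists_code (RecursiveIn.iff_nat.1 hred)
      obtain ⟨e, rfl⟩ := hcn c
      have hev : ∀ x w, w ∈ (cn e).eval (cd g Z) x ↔ w = code f x := by
        intro x w
        rw [hc]
        exact Part.mem_some_iff
      refine ⟨e, ?_, ?_⟩
      · intro x v hv
        rw [hev] at hv
        refine hf.1 x v ?_
        unfold code at hv
        cases hfx : f x with
        | none => rw [hfx] at hv; simp at hv
        | some w =>
          rw [hfx] at hv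
          simp only [encode_some, encode_nat, Nat.succ_eq_add_one, Nat.add_right_cancel_iff] at hv
          rw [hv]
      · refine hf.2.mono ?_
        intro x hx
        show chi A x + 1 ∈ (cn e).eval (cd g Z) x
        rw [hev]
        have hx' : f x ≠ none := hx
        obtain ⟨w, hw⟩ := Option.ne_none_iff_exists'.1 hx'
        unfold code
        rw [hw, ← hf.1 x w hw]
        simp)
    set V := VT (cn e) p with hV
    have hnull : ∀ i, NullS (undef V g (Zs (Hp p) i)) := by
      intro i
      have h3 := hdens _ (In_hidden hp i)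
      rw [dens1_iff] at h3
      refine h3.mono ?_
      intro x hx hmem
      have hmem' : (x, chi A x) ∈ VC (cn e) p g (p.2.1 ∪ Zs (Hp p) i) := hmem
      apply hx
      rcases chi_cases A x with h | h
      · left; rw [h] at hmem'; exact hmem'
      · right; rw [h] at hmem'; exact hmem'
    set d := Dt V (Hp p) g with hd
    have hD : EffDense (chi A) (decO d) := by
      constructor
      · intro x v hx
        obtain ⟨i, Z', _, hin, hmem⟩ := Dt_value (decO_eq_some hx)
        exact hval Z' hin x v hmem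
      · rw [dens1_iff]
        refine (null_Dt hnull).mono ?_
        intro x hx
        have hx' : ¬ (decO d x ≠ none) := hx
        rw [not_not] at hx'
        unfold decO at hx'
        split_ifs at hx' with h0
        exact h0
    obtain ⟨f, hf, hred⟩ := hgA _ hD
    rw [code_decO] at hred
    obtain ⟨c, hc⟩ := exists_code (RecursiveIn.iff_nat.1 hred)
    obtain ⟨e', rfl⟩ := hcn c
    refine not_desc (hgT e e' p) (Ψ := PsiT (cn e')) ?_ ?_
    · intro n v v' h1 h2
      have := Part.mem_unique h1 h2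
      omega
    · refine hf.2.mono ?_
      intro n hn
      show g n + 1 ∈ (cn e').eval d n
      rw [hc]
      have hn' : f n ≠ none := hn
      obtain ⟨w, hw⟩ := Option.ne_none_iff_exists'.1 hn'
      refine Part.mem_some_iff.2 ?_
      unfold code
      rw [hw, ← hf.1 n w hw]
      simp
  · -- generic
    rintro ⟨hgA, hAg⟩
    refine neg_enum (A := A) (𝒯 := {T | ∃ x v, v ≠ chi A x ∧ T = {(x, v)}}) hgE ?_ ?_
    · intro Z hZ
      obtain ⟨f, hf, W, hW, hgr⟩ := hAg _ (generic_hidP g hZ)
      obtain ⟨e, rfl⟩ := hWn' W hW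
      rw [gr_hidP] at hgr
      have hmem : ∀ x v, (x, v) ∈ RW (Wn e) g Z ↔ v ∈ f x := by
        intro x v
        show Nat.pair x v ∈ enumOp (Wn e) (grS g Z) ↔ _
        rw [← hgr]
        unfold gr
        simp
      refine ⟨e, ?_, ?_⟩
      · rintro T ⟨x, v, hv, rfl⟩ hall
        have := hall (x, v) (Finset.mem_singleton_self _)
        rw [hmem] at this
        exact hv (hf.2 x v this)
      · refine hf.1.mono ?_
        intro x hx
        show (x, chi A x) ∈ RW (Wn e) g Z
        rw [hmem]
        have hx' : (f x).Dom := hx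
        have := Part.get_mem hx'
        rwa [hf.2 x _ this] at this
    · intro d hd ⟨E, hE, _, hdE⟩
      have hD : Generic (chi A) (decP d) := by
        constructor
        · rw [dens1_iff]
          refine hd.mono ?_
          intro x hx
          have hx' : ¬ (decP d x).Dom := hx
          show d x = 0
          by_contra h0
          apply hx'
          unfold decP
          simp [h0]
        · intro x v hv
          rw [mem_decP] at hv
          by_contra hne
          refine hE {(x, v)} ⟨x, v, hne, rfl⟩ ?_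
          intro t ht
          rw [Finset.mem_singleton] at ht
          rw [ht]
          exact hdE x v hv
      obtain ⟨f, hf, W, hW, hgr⟩ := hgA _ hD
      obtain ⟨e', rfl⟩ := hWn' W hW
      rw [gr_decP] at hgr
      have hmem : ∀ x v, (x, v) ∈ PsiE (Wn e') d ↔ v ∈ f x := by
        intro x v
        show Nat.pair x v ∈ enumOp (Wn e') (grD d) ↔ _
        rw [← hgr]
        unfold gr
        simp
      refine ⟨e', ?_, ?_⟩
      · intro n v v' h1 h2
        rw [hmem] at h1 h2
        exact Part.mem_unique h1 h2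
      · refine hf.1.mono ?_
        intro n hn
        show (n, g n) ∈ PsiE (Wn e') d
        rw [hmem]
        have hn' : (f n).Dom := hn
        have := Part.get_mem hn'
        rwa [hf.2 n _ this] at this
  · -- dense
    rintro ⟨hgA, hAg⟩
    refine neg_enum (A := A) (𝒯 := {T | ∃ x v v', v ≠ v' ∧ T = {(x, v), (x, v')}}) hgE ?_ ?_
    · intro Z hZ
      obtain ⟨f, hf, W, hW, hgr⟩ := hAg _ (dense_hidP g hZ)
      obtain ⟨e, rfl⟩ := hWn' W hW
      rw [gr_hidP] at hgr
      have hmem : ∀ x v, (x, v) ∈ RW (Wn e) g Z ↔ v ∈ f x := by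
        intro x v
        show Nat.pair x v ∈ enumOp (Wn e) (grS g Z) ↔ _
        rw [← hgr]
        unfold gr
        simp
      refine ⟨e, ?_, ?_⟩
      · rintro T ⟨x, v, v', hv, rfl⟩ hall
        have h1 := hall (x, v) (by simp)
        have h2 := hall (x, v') (by simp)
        rw [hmem] at h1 h2
        exact hv (Part.mem_unique h1 h2)
      · refine Dens1.mono hf ?_
        intro x hx
        show (x, chi A x) ∈ RW (Wn e) g Z
        rw [hmem]
        exact hx
    · intro d hd ⟨E, hE, hEd, hdE⟩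
      have hD : Dense (chi A) (decP d) := by
        unfold Dense
        rw [dens1_iff] at hEd ⊢
        refine (hd.union hEd).mono ?_
        intro x hx
        by_contra hnot
        rw [Set.mem_union, not_or] at hnot
        obtain ⟨h0, h1⟩ := hnot
        have h0' : d x ≠ 0 := h0
        have h1' : (x, chi A x) ∈ E := by
          by_contra hc
          exact h1 hc
        obtain ⟨v, hv⟩ := Nat.exists_eq_succ_of_ne_zero h0'
        have h2 := hdE x v hv
        have hv' : v = chi A x := by
          by_contra hne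
          refine hE {(x, v), (x, chi A x)} ⟨x, v, chi A x, hne, rfl⟩ ?_
          intro t ht
          rw [Finset.mem_insert, Finset.mem_singleton] at ht
          rcases ht with rfl | rfl
          · exact h2
          · exact h1'
        apply hx
        show chi A x ∈ decP d x
        rw [mem_decP, hv, hv']
      obtain ⟨f, hf, W, hW, hgr⟩ := hgA _ hD
      obtain ⟨e', rfl⟩ := hWn' W hW
      rw [gr_decP] at hgr
      have hmem : ∀ x v, (x, v) ∈ PsiE (Wn e') d ↔ v ∈ f x := by
        intro x v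
        show Nat.pair x v ∈ enumOp (Wn e') (grD d) ↔ _
        rw [← hgr]
        unfold gr
        simp
      refine ⟨e', ?_, ?_⟩
      · intro n v v' h1 h2
        rw [hmem] at h1 h2
        exact Part.mem_unique h1 h2
      · refine Dens1.mono hf ?_
        intro n hn
        show (n, g n) ∈ PsiE (Wn e') d
        rw [hmem]
        exact hn

/-! ### Uniform reducibility implies nonuniform reducibility -/

theorem UC.nc {f g : ℕ → ℕ} (h : UC f g) : NC f g := by
  obtain ⟨c, hc⟩ := h
  intro d hd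
  obtain ⟨e, he, heq⟩ := hc d hd
  refine ⟨e, he, RecursiveIn.iff_nat.2 ?_⟩
  rw [← heq]
  exact c.recursiveIn d

theorem UED.ned {f g : ℕ → ℕ} (h : UED f g) : NED f g := by
  obtain ⟨c, hc⟩ := h
  intro d hd
  obtain ⟨e, he, heq⟩ := hc d hd
  refine ⟨e, he, RecursiveIn.iff_nat.2 ?_⟩
  rw [← heq]
  exact c.recursiveIn (code d)

theorem UG.ng {f g : ℕ → ℕ} (h : UG f g) : NG f g := by
  obtain ⟨W, hW, hc⟩ := h
  intro d hd
  obtain ⟨e, he, heq⟩ := hc d hd
  exact ⟨e, he, W, hW, heq⟩

theorem UD.nd {f g : ℕ → ℕ} (h : UD f g) : ND f g := by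
  obtain ⟨W, hW, hc⟩ := h
  intro d hd
  obtain ⟨e, he, heq⟩ := hc d hd
  exact ⟨e, he, W, hW, heq⟩

end Q206.Asy
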