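import Pool.Agent.Q206.Asy.Fusion

/-!
# Operators applied to hidden versions of a function; uniformization
-/

namespace Q206.Asy

open Filter Topology

/-! ### Hidden versions of `g` -/

/-- graph of `g` outside of `Z` -/
def grS (g : ℕ → ℕ) (Z : Set ℕ) : Set ℕ := {k | k.unpair.1 ∉ Z ∧ k.unpair.2 = g k.unpair.1}

open Classical in
/-- `g` outside of `Z`, as a partial function -/
noncomputable def hidP (g : ℕ → ℕ) (Z : Set ℕ) : ℕ →. ℕ := fun n =>
  if n ∈ Z then Part.none else Part.some (g n)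

open Classical in
/-- `g` outside of `Z` and `□` on `Z` -/
noncomputable def hidO (g : ℕ → ℕ) (Z : Set ℕ) : ℕ → Option ℕ := fun n =>
  if n ∈ Z then none else some (g n)

theorem gr_hidP (g : ℕ → ℕ) (Z : Set ℕ) : gr (hidP g Z) = grS g Z := by
  ext k
  unfold gr grS hidP
  by_cases h : k.unpair.1 ∈ Z <;> simp [h]

theorem dens1_compl {Z : Set ℕ} (hZ : NullS Z) : Dens1 Zᶜ := by
  rw [dens1_iff, compl_compl]; exact hZ

theorem generic_hidP (g : ℕ → ℕ) {Z : Set ℕ} (hZ : NullS Z) : Generic g (hidP g Z) := by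
  constructor
  · refine (dens1_compl hZ).mono ?_
    intro n hn
    have : n ∉ Z := hn
    show (hidP g Z n).Dom
    unfold hidP
    simp [this]
  · intro n v hv
    unfold hidP at hv
    split_ifs at hv with h
    · simp at hv
    · simpa using hv

theorem dense_hidP (g : ℕ → ℕ) {Z : Set ℕ} (hZ : NullS Z) : Dense g (hidP g Z) := by
  unfold Dense
  refine (dens1_compl hZ).mono ?_
  intro n hn
  have : n ∉ Z := hn
  show g n ∈ hidP g Z n
  unfold hidP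
  simp [this]

theorem effDense_hidO (g : ℕ → ℕ) {Z : Set ℕ} (hZ : NullS Z) : EffDense g (hidO g Z) := by
  constructor
  · intro n v hv
    unfold hidO at hv
    split_ifs at hv with h
    exact (Option.some_injective _ hv).symm
  · refine (dens1_compl hZ).mono ?_
    intro n hn
    have : n ∉ Z := hn
    show hidO g Z n ≠ none
    unfold hidO
    simp [this]

theorem grS_anti {g : ℕ → ℕ} {Z Z' : Set ℕ} (h : Z ⊆ Z') : grS g Z' ⊆ grS g Z :=
  fun _ hk => ⟨fun hz => hk.1 (h hz), hk.2⟩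

theorem enumOp_mono {W : Set (Finset ℕ × ℕ)} {X Y : Set ℕ} (h : X ⊆ Y) :
    enumOp W X ⊆ enumOp W Y := by
  rintro k ⟨F, hF, hX⟩
  exact ⟨F, hF, hX.trans h⟩

/-! ### Enumeration operators -/

/-- the relation enumerated from the graph of `g` outside `Z` -/
def RW (W : Set (Finset ℕ × ℕ)) (g : ℕ → ℕ) (Z : Set ℕ) : Set (ℕ × ℕ) :=
  {t | Nat.pair t.1 t.2 ∈ enumOp W (grS g Z)}

theorem RW_anti {W : Set (Finset ℕ × ℕ)} {g : ℕ → ℕ} {Z Z' : Set ℕ} (h : Z ⊆ Z') :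
    RW W g Z' ⊆ RW W g Z := fun _ ht => enumOp_mono (grS_anti h) ht

theorem RW_use {W : Set (Finset ℕ × ℕ)} {g : ℕ → ℕ} {Z : Set ℕ} {t : ℕ × ℕ} (h : t ∈ RW W g Z) :
    ∃ N, ∀ Z' : Set ℕ, (∀ n < N, n ∈ Z' → n ∈ Z) → t ∈ RW W g Z' := by
  obtain ⟨F, hF, hsub⟩ := h
  refine ⟨F.sup id + 1, fun Z' hZ' => ⟨F, hF, fun k hk => ?_⟩⟩
  obtain ⟨h1, h2⟩ := hsub hk
  refine ⟨fun hz => h1 (hZ' _ ?_ hz), h2⟩
  have h3 : k.unpair.1 ≤ k := Nat.unpair_left_le k
  have h4 : k ≤ F.sup id := Finset.le_sup (f := id) hk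
  omega

theorem RW_use_finset {W : Set (Finset ℕ × ℕ)} {g : ℕ → ℕ} {Z : Set ℕ} (T : Finset (ℕ × ℕ))
    (h : ∀ t ∈ T, t ∈ RW W g Z) :
    ∃ N, ∀ Z' : Set ℕ, (∀ n < N, n ∈ Z' → n ∈ Z) → ∀ t ∈ T, t ∈ RW W g Z' := by
  induction T using Finset.induction_on with
  | empty => exact ⟨0, fun _ _ t ht => by simp at ht⟩
  | insert a T _ ih =>
    obtain ⟨N1, hN1⟩ := ih (fun t ht => h t (Finset.mem_insert_of_mem ht))
    obtain ⟨N2, hN2⟩ := RW_use (h a (Finset.mem_insert_self _ _))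
    refine ⟨max N1 N2, fun Z' hZ' t ht => ?_⟩
    rcases Finset.mem_insert.1 ht with rfl | ht
    · exact hN2 Z' (fun n hn => hZ' n (lt_of_lt_of_le hn (le_max_right _ _)))
    · exact hN1 Z' (fun n hn => hZ' n (lt_of_lt_of_le hn (le_max_left _ _))) t ht

theorem exists_bound (Z : Finset ℕ) (m N : ℕ) : ∃ m', m ≤ m' ∧ N ≤ 2 ^ m' ∧ ∀ n ∈ Z, n < 2 ^ m' := by
  refine ⟨max m (max N (Z.sup id + 1)), le_max_left _ _, ?_, ?_⟩
  · exact (le_trans (le_max_left _ _) (le_max_right _ _)).trans Nat.lt_two_pow_self.le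
  · intro n hn
    have h1 : n ≤ Z.sup id := Finset.le_sup (f := id) hn
    have h2 : Z.sup id + 1 ≤ max m (max N (Z.sup id + 1)) :=
      le_trans (le_max_right _ _) (le_max_right _ _)
    exact lt_of_le_of_lt (by omega : n ≤ max m (max N (Z.sup id + 1))) Nat.lt_two_pow_self

/-- Uniformization for enumeration operators.  `𝒯` is a family of finite sets of pairs which must
not be enumerated. -/
theorem unif_enum {g A : ℕ → ℕ} {𝒯 : Set (Finset (ℕ × ℕ))} {Wn : ℕ → Set (Finset ℕ × ℕ)}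
    (h : ∀ Z, NullS Z → ∃ e, (∀ T ∈ 𝒯, ¬ ∀ t ∈ T, t ∈ RW (Wn e) g Z) ∧
      Dens1 {x | (x, A x) ∈ RW (Wn e) g Z}) :
    ∃ e p, WF p ∧ ∀ Z : Finset ℕ, In p (Z : Set ℕ) →
      (∀ T ∈ 𝒯, ¬ ∀ t ∈ T, t ∈ RW (Wn e) g (Z : Set ℕ)) ∧
      Dens1 {x | (x, A x) ∈ RW (Wn e) g (Z : Set ℕ)} := by
  by_contra hcon
  push Not at hcon
  obtain ⟨Z, hZ, hbad⟩ := fusion (Bad := fun e Z => ¬ ((∀ T ∈ 𝒯, ¬ ∀ t ∈ T, t ∈ RW (Wn e) g Z) ∧
      Dens1 {x | (x, A x) ∈ RW (Wn e) g Z})) (by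
    intro e p hp
    obtain ⟨Z, hZ, hZbad⟩ := hcon e p hp
    by_cases hc : ∀ T ∈ 𝒯, ¬ ∀ t ∈ T, t ∈ RW (Wn e) g (Z : Set ℕ)
    · -- the density fails
      obtain ⟨m', hm, _, hlt⟩ := exists_bound Z p.1 0
      refine ⟨(m', Z, p.2.2), hlt, ⟨hm, le_rfl, hZ⟩, ?_⟩
      intro Z' hZ' hgood
      refine hZbad (fun T hT => by
        have := hc T hT
        push Not at this
        exact this) (hgood.2.mono ?_)
      intro x hx
      refine RW_anti ?_ hx
      intro n hn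
      exact (hZ'.1 n (hlt n hn)).2 hn
    · -- a forbidden set is enumerated
      push Not at hc
      obtain ⟨T, hT, hall⟩ := hc
      obtain ⟨N, hN⟩ := RW_use_finset T hall
      obtain ⟨m', hm, hNm, hlt⟩ := exists_bound Z p.1 N
      refine ⟨(m', Z, p.2.2), hlt, ⟨hm, le_rfl, hZ⟩, ?_⟩
      intro Z' hZ' hgood
      refine hgood.1 T hT (hN Z' ?_)
      intro n hn hnz
      exact (hZ'.1 n (lt_of_lt_of_le hn hNm)).1 hnz)
  obtain ⟨e, he⟩ := h Z hZ
  exact hbad e he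

/-! ### Turing functionals -/

open Classical in
/-- `g` outside `Z` and `□` on `Z`, coded -/
noncomputable def cd (g : ℕ → ℕ) (Z : Set ℕ) : ℕ → ℕ := fun n => if n ∈ Z then 0 else g n + 1

theorem code_hidO (g : ℕ → ℕ) (Z : Set ℕ) : code (hidO g Z) = cd g Z := by
  funext n
  unfold code hidO cd
  split_ifs <;> simp

/-- the values (different from `□`) computed from versions of `g` with at least `Z` hidden -/
def VC (c : OCode) (p : Cond) (g : ℕ → ℕ) (Z : Finset ℕ) : Set (ℕ × ℕ) :=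
  {t | ∃ Z' : Finset ℕ, Z ⊆ Z' ∧ In p (Z' : Set ℕ) ∧ t.2 + 1 ∈ c.eval (cd g (Z' : Set ℕ)) t.1}

theorem cd_congr {g : ℕ → ℕ} {Z Z' : Set ℕ} {n : ℕ} (h : n ∈ Z ↔ n ∈ Z') : cd g Z n = cd g Z' n := by
  unfold cd
  by_cases h1 : n ∈ Z
  · simp [h1, h.1 h1]
  · have h2 : n ∉ Z' := fun h2 => h1 (h.2 h2)
    simp [h1, h2]

/-- Uniformization for Turing functionals. -/
theorem unif_turing {g A : ℕ → ℕ} {cn : ℕ → OCode}
    (h : ∀ Z, NullS Z → ∃ e, (∀ x v, v + 1 ∈ (cn e).eval (cd g Z) x → v = A x) ∧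
      Dens1 {x | A x + 1 ∈ (cn e).eval (cd g Z) x}) :
    ∃ e p, WF p ∧ (∀ Z : Finset ℕ, In p (Z : Set ℕ) →
      ∀ x v, v + 1 ∈ (cn e).eval (cd g (Z : Set ℕ)) x → v = A x) ∧
      ∀ Z : Finset ℕ, In p (Z : Set ℕ) → Dens1 {x | (x, A x) ∈ VC (cn e) p g Z} := by
  by_contra hcon
  push Not at hcon
  obtain ⟨Z, hZ, hbad⟩ := fusion (Bad := fun e Z =>
      ¬ ((∀ x v, v + 1 ∈ (cn e).eval (cd g Z) x → v = A x) ∧
      Dens1 {x | A x + 1 ∈ (cn e).eval (cd g Z) x})) (by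
    intro e p hp
    by_cases hc : ∀ Z : Finset ℕ, In p (Z : Set ℕ) →
      ∀ x v, v + 1 ∈ (cn e).eval (cd g (Z : Set ℕ)) x → v = A x
    · obtain ⟨Z, hZ, hZbad⟩ := hcon e p hp hc
      obtain ⟨m', hm, _, hlt⟩ := exists_bound Z p.1 0
      have hext : Ext (m', Z, p.2.2) p := ⟨hm, le_rfl, hZ⟩
      refine ⟨(m', Z, p.2.2), hlt, hext, ?_⟩
      intro Z' hZ' hgood
      refine hZbad (hgood.2.mono ?_)
      intro x hx
      have hx' : A x + 1 ∈ (cn e).eval (cd g Z') x := hx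
      obtain ⟨N, hN⟩ := (cn e).use _ _ _ hx'
      -- truncate `Z'`
      classical
      obtain ⟨m'', hm'', hNm, _⟩ := exists_bound Z m' N
      set Z'' : Finset ℕ := (Finset.range (2 ^ m'')).filter (fun n => n ∈ Z') with hZ''
      have hmem : ∀ n < 2 ^ m'', n ∈ (Z'' : Set ℕ) ↔ n ∈ Z' := by
        intro n hn
        simp [hZ'', hn]
      have hInp : In p Z' := In.of_ext hext hZ'
      refine ⟨Z'', ?_, ?_, ?_⟩
      · intro n hn
        have h1 : n < 2 ^ m' := hlt n hn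
        rw [hZ'', Finset.mem_filter, Finset.mem_range]
        exact ⟨lt_of_lt_of_le h1 (Nat.pow_le_pow_right (by norm_num) hm''), (hZ'.1 n h1).2 hn⟩
      · constructor
        · intro n hn
          rw [hmem n (lt_of_lt_of_le hn (Nat.pow_le_pow_right (by norm_num) (hm.trans hm'')))]
          exact hInp.1 n hn
        · intro j hj
          refine le_trans (Nat.mul_le_mul_left _ ?_) (hInp.2 j hj)
          unfold cntL
          apply cnt_mono
          intro x _ hx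
          have : 2 ^ j + x ∈ Z'' := hx
          rw [hZ'', Finset.mem_filter] at this
          exact this.2
      · refine hN _ ?_
        intro n hn
        exact cd_congr (hmem n (lt_of_lt_of_le hn hNm))
    · push Not at hc
      obtain ⟨Z, hZ, x, v, hv, hne⟩ := hc
      obtain ⟨N, hN⟩ := (cn e).use _ _ _ hv
      obtain ⟨m', hm, hNm, hlt⟩ := exists_bound Z p.1 N
      refine ⟨(m', Z, p.2.2), hlt, ⟨hm, le_rfl, hZ⟩, ?_⟩
      intro Z' hZ' hgood
      refine hne (hgood.1 x v (hN _ ?_))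
      intro n hn
      exact cd_congr (hZ'.1 n (lt_of_lt_of_le hn hNm)))
  obtain ⟨e, he⟩ := h Z hZ
  exact hbad e he

/-! ### Openness -/

theorem isOpen_grS (Z : Set ℕ) (F : Finset ℕ) : IsOpen {g : ℕ → ℕ | (F : Set ℕ) ⊆ grS g Z} := by
  have : {g : ℕ → ℕ | (F : Set ℕ) ⊆ grS g Z} =
      ⋂ k ∈ F, {g : ℕ → ℕ | k.unpair.1 ∉ Z ∧ k.unpair.2 = g k.unpair.1} := by
    ext g
    simp only [Set.mem_ofPred_eq, Set.mem_iInter, grS]
    rfl
  rw [this]
  refine isOpen_biInter_finset fun k _ => ?_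
  by_cases h : k.unpair.1 ∈ Z
  · have : {g : ℕ → ℕ | k.unpair.1 ∉ Z ∧ k.unpair.2 = g k.unpair.1} = ∅ := by
      ext g; simp [h]
    rw [this]
    exact isOpen_empty
  · have : {g : ℕ → ℕ | k.unpair.1 ∉ Z ∧ k.unpair.2 = g k.unpair.1} =
        (fun g : ℕ → ℕ => g k.unpair.1) ⁻¹' {k.unpair.2} := by
      ext g; simp [h, eq_comm]
    rw [this]
    exact (isOpen_discrete _).preimage (continuous_apply _)

theorem isOpen_RW (W : Set (Finset ℕ × ℕ)) (Z : Set ℕ) (t : ℕ × ℕ) :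
    IsOpen {g : ℕ → ℕ | t ∈ RW W g Z} := by
  have : {g : ℕ → ℕ | t ∈ RW W g Z} =
      ⋃ F : Finset ℕ, ⋃ _ : (F, Nat.pair t.1 t.2) ∈ W, {g : ℕ → ℕ | (F : Set ℕ) ⊆ grS g Z} := by
    ext g
    simp [RW, enumOp]
  rw [this]
  exact isOpen_iUnion fun F => isOpen_iUnion fun _ => isOpen_grS Z F

theorem RW_off {W : Set (Finset ℕ × ℕ)} {g g' : ℕ → ℕ} {Z : Set ℕ} (h : ∀ n, n ∉ Z → g n = g' n) :
    RW W g Z = RW W g' Z := by
  have : grS g Z = grS g' Z := by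
    ext k
    unfold grS
    simp only [Set.mem_ofPred_eq]
    constructor
    · rintro ⟨h1, h2⟩
      exact ⟨h1, by rw [h2, h _ h1]⟩
    · rintro ⟨h1, h2⟩
      exact ⟨h1, by rw [h2, h _ h1]⟩
  unfold RW
  rw [this]

theorem isOpen_eval (c : OCode) (n v : ℕ) : IsOpen {d : ℕ → ℕ | v ∈ c.eval d n} := by
  rw [isOpen_iff_mem_nhds]
  intro d hd
  obtain ⟨N, hN⟩ := c.use d n v hd
  have hop : IsOpen {d' : ℕ → ℕ | ∀ n < N, d' n = d n} := by
    have : {d' : ℕ → ℕ | ∀ n < N, d' n = d n} =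
        Set.pi (Finset.range N : Set ℕ) (fun n => {d n}) := by
      ext g; simp [Set.pi]
    rw [this]
    exact isOpen_set_pi (Finset.finite_toSet _) (fun n _ => isOpen_discrete _)
  exact Filter.mem_of_superset (hop.mem_nhds (fun n _ => rfl)) (fun d' hd' => hN d' hd')

theorem continuous_cd (Z : Set ℕ) : Continuous (fun g : ℕ → ℕ => cd g Z) := by
  rw [continuous_pi_iff]
  intro n
  unfold cd
  by_cases h : n ∈ Z
  · simp only [h, if_true]
    exact continuous_const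
  · simp only [h, if_false]
    exact (continuous_of_discreteTopology (f := fun x : ℕ => x + 1)).comp (continuous_apply n)

theorem isOpen_VC (c : OCode) (p : Cond) (Z : Finset ℕ) (t : ℕ × ℕ) :
    IsOpen {g : ℕ → ℕ | t ∈ VC c p g Z} := by
  have : {g : ℕ → ℕ | t ∈ VC c p g Z} =
      ⋃ Z' : Finset ℕ, ⋃ _ : Z ⊆ Z', ⋃ _ : In p (Z' : Set ℕ),
        (fun g : ℕ → ℕ => cd g (Z' : Set ℕ)) ⁻¹' {d | t.2 + 1 ∈ c.eval d t.1} := by
    ext g
    simp only [VC, Set.mem_ofPred_eq, Set.mem_iUnion, Set.mem_preimage, exists_prop]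
  rw [this]
  exact isOpen_iUnion fun Z' => isOpen_iUnion fun _ => isOpen_iUnion fun _ =>
    (isOpen_eval c _ _).preimage (continuous_cd _)

theorem VC_off {c : OCode} {p : Cond} {g g' : ℕ → ℕ} {Z : Finset ℕ}
    (h : ∀ n, n ∉ Z → g n = g' n) : VC c p g Z = VC c p g' Z := by
  have : ∀ Z' : Finset ℕ, Z ⊆ Z' → cd g (Z' : Set ℕ) = cd g' (Z' : Set ℕ) := by
    intro Z' hZ
    funext n
    unfold cd
    by_cases hn : n ∈ (Z' : Set ℕ)
    · simp [hn]
    · have hn' : n ∉ Z := fun h => hn (hZ h)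
      simp [hn, h n hn']
  ext t
  unfold VC
  simp only [Set.mem_ofPred_eq]
  constructor
  · rintro ⟨Z', h1, h2, h3⟩
    exact ⟨Z', h1, h2, by rw [← this Z' h1]; exact h3⟩
  · rintro ⟨Z', h1, h2, h3⟩
    exact ⟨Z', h1, h2, by rw [this Z' h1]; exact h3⟩

end Q206.Asy
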