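import Pool.Agent.Q206.Asy.Comp

/-!
# Every function is uniformly coarsely equivalent to a set
-/

namespace Q206.Asy

open Encodable Finset Q206.Ioe Q206.Gam

theorem lk_hist {d : ℕ → ℕ} {N i : ℕ} (h : i < N) : lk (hist d N) i = d i := by
  unfold lk hist
  rw [List.getD_eq_getElem _ _ (by simpa using h)]
  simp

theorem Tc_congr {y g : ℕ → ℕ} {j : ℕ} (k : ℕ) (h : ∀ n < 2 ^ (j + 1), y n = g n) :
    Tc y j k = Tc g j k := by
  rw [Tc_eq, Tc_eq]
  apply sum_congr rfl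
  intro n hn
  rw [h _ (by rw [pow_succ]; have := mem_range.1 hn; omega)]

theorem sub_log_lt (x : ℕ) : x - 2 ^ Nat.log 2 x < 2 ^ Nat.log 2 x := by
  have h1 := Nat.lt_pow_succ_log_self (b := 2) (by norm_num) x
  rw [pow_succ] at h1
  have : 0 < 2 ^ Nat.log 2 x := by positivity
  omega

theorem Ab_congr {y g : ℕ → ℕ} {x : ℕ} (h : ∀ n < 2 ^ (ej (Nat.log 2 x) + 1), y n = g n) :
    Ab y x = Ab g x := by
  unfold Ab cont
  rw [Tc_congr _ h]
  have h1 : (x - 2 ^ Nat.log 2 x) / 2 ^ ec (Nat.log 2 x) / 2 ^ ej (Nat.log 2 x) <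
      2 ^ ej (Nat.log 2 x) := by
    rw [Nat.div_lt_iff_lt_mul (by positivity), Nat.div_lt_iff_lt_mul (by positivity),
      ← pow_add, ← pow_add]
    have h2 := ec_add (Nat.log 2 x)
    rw [show ej (Nat.log 2 x) + ej (Nat.log 2 x) + ec (Nat.log 2 x) = Nat.log 2 x by omega]
    exact sub_log_lt x
  rw [h _ (by rw [pow_succ]; omega)]

theorem UR_Ab {D : Set (ℕ → ℕ)} : UR D (fun d x => Ab d x) := by
  have h1 : UR D (fun d x => encode (hist d (2 ^ (ej (Nat.log 2 x) + 1)))) :=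
    UR.hist.comp (UR.of_computable (primrec_2pow (primrec_addc
      (primrec_ej (primrec_log (by norm_num))) 1)).to_comp)
  have h2 := UR.list h1 (G := fun x l => Ab (lk l) x)
    (primrec_Ab Primrec.snd Primrec.fst).to_comp
  have h3 : (fun (d : ℕ → ℕ) x => Ab d x) =
      fun d x => Ab (lk (hist d (2 ^ (ej (Nat.log 2 x) + 1)))) x := by
    funext d x
    exact Ab_congr (fun n hn => (lk_hist hn).symm)
  rw [h3]
  exact h2

theorem UC_Ab (g : ℕ → ℕ) : UC (Ab g) g :=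
  UC_of_UR UR_Ab (fun _ hd => coarse_Ab hd)

/-! ### The decoding functional -/

/-- the search function -/
def Qfun (d : ℕ → ℕ) (q : ℕ) : ℕ :=
  2 ^ (q.unpair.1 + 1) * ones (lk (hist d (2 ^ (lev q.unpair.1 q.unpair.2 + 1))))
    (lev q.unpair.1 q.unpair.2) - 2 ^ lev q.unpair.1 q.unpair.2

theorem ones_congr {y g : ℕ → ℕ} {m : ℕ} (h : ∀ n < 2 ^ (m + 1), y n = g n) :
    ones y m = ones g m := by
  rw [ones_eq, ones_eq]
  apply sum_congr rfl
  intro n hn
  rw [h _ (by rw [pow_succ]; have := mem_range.1 hn; omega)]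

theorem err_congr {y d g : ℕ → ℕ} {m : ℕ} (h : ∀ n < 2 ^ (m + 1), y n = d n) :
    err y g m = err d g m := by
  unfold err
  apply sum_congr rfl
  intro n hn
  rw [h _ (by rw [pow_succ]; have := mem_range.1 hn; omega)]

theorem Qfun_zero {d : ℕ → ℕ} {j k : ℕ} : Qfun d (Nat.pair j k) = 0 ↔ Qd d j j k := by
  unfold Qfun Qd
  rw [Nat.unpair_pair]
  simp only
  rw [ones_congr (y := lk (hist d (2 ^ (lev j k + 1)))) (g := d) (fun n hn => lk_hist hn)]
  omega

theorem UR_Qfun {D : Set (ℕ → ℕ)} : UR D Qfun := by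
  have h1 : UR D (fun d q => encode (hist d (2 ^ (lev q.unpair.1 q.unpair.2 + 1)))) :=
    UR.hist.comp (UR.of_computable (primrec_2pow (primrec_addc
      (primrec_lev (primrec_unpair1 Primrec.id) (primrec_unpair2 Primrec.id)) 1)).to_comp)
  have h4 : Primrec (fun a : ℕ × List ℕ => lev a.1.unpair.1 a.1.unpair.2) :=
    primrec_lev (primrec_unpair1 Primrec.fst) (primrec_unpair2 Primrec.fst)
  have h2 := UR.list h1 (G := fun q l => 2 ^ (q.unpair.1 + 1) * ones (lk l)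
    (lev q.unpair.1 q.unpair.2) - 2 ^ lev q.unpair.1 q.unpair.2)
    (Primrec.nat_sub.comp (Primrec.nat_mul.comp (primrec_2pow (primrec_addc
      (primrec_unpair1 Primrec.fst) 1)) (primrec_ones Primrec.snd h4))
      (primrec_2pow h4)).to_comp
  exact h2

theorem err_le_cntL (d g : ℕ → ℕ) (m : ℕ) : err d g m ≤ cntL {x | d x ≠ g x} m := by
  rw [cntL_eq]
  unfold err
  apply sum_le_sum
  intro r _
  unfold ind
  by_cases h : d (2 ^ m + r) = g (2 ^ m + r)
  · simp [h]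
  · simp only [ne_eq, h, not_false_eq_true, if_true]
    split_ifs <;> omega

theorem le_lev_left (j k : ℕ) : j ≤ lev j k := by
  have := Nat.left_le_pair j k
  unfold lev; omega

theorem le_lev_right (j k : ℕ) : k ≤ lev j k := by
  have := Nat.right_le_pair j k
  unfold lev; omega

theorem lev_mono {j k K : ℕ} (h : k ≤ K) : lev j k ≤ lev j K := by
  rcases h.lt_or_eq with h | h
  · have := Nat.pair_lt_pair_right j h
    unfold lev; omega
  · rw [h]

theorem exists_Qd {d g : ℕ → ℕ} (hd : Coarse (Ab g) d) (j : ℕ) : ∃ k, Qd d j j k := by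
  unfold Coarse at hd
  rw [dens1_iff] at hd
  obtain ⟨M, hM⟩ := hd (j + 1)
  obtain ⟨k₀, hk₀⟩ := exists_bound_values g (2 ^ (j + 1))
  refine ⟨max M k₀, ?_⟩
  set k := max M k₀ with hk
  have h1 := hM (lev j k) ((le_max_left M k₀).trans (le_lev_right j k))
  have h2 : ones (Ab g) (lev j k) = 0 := by
    rw [ones_eq]
    apply sum_eq_zero
    intro r hr
    rw [Ab_zero_of_full (fun n hn => ?_) (mem_range.1 hr)]
    · simp [ind]
    · rw [ej_lev] at hn
      rw [ek_lev]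
      exact lt_of_lt_of_le (hk₀ n hn) (le_max_right _ _)
  have h3 := ones_le d (Ab g) (lev j k)
  have h4 := err_le_cntL d (Ab g) (lev j k)
  unfold Qd
  rw [h2, zero_add] at h3
  exact le_trans (Nat.mul_le_mul_left _ (h3.trans h4)) h1

/-- where the search stops -/
noncomputable def Kd (d : ℕ → ℕ) (j : ℕ) : ℕ := sInf {k | Qfun d (Nat.pair j k) = 0}

theorem UR_Kd (g : ℕ → ℕ) : UR {d | Coarse (Ab g) d} Kd :=
  UR.find UR_Qfun (fun d hd j => by
    obtain ⟨k, hk⟩ := exists_Qd hd j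
    exact ⟨k, Qfun_zero.2 hk⟩)

theorem Kd_spec {d g : ℕ → ℕ} (hd : Coarse (Ab g) d) (j : ℕ) : Qd d j j (Kd d j) := by
  have h : Kd d j ∈ {k | Qfun d (Nat.pair j k) = 0} := by
    apply Nat.sInf_mem
    obtain ⟨k, hk⟩ := exists_Qd hd j
    exact ⟨k, Qfun_zero.2 hk⟩
  exact Qfun_zero.1 h

/-- decoding with a given bound -/
def Psi (d : ℕ → ℕ) (q : ℕ) : ℕ :=
  gd (lk (hist d (2 ^ (lev (Nat.log 2 q.unpair.1) q.unpair.2 + 1)))) q.unpair.2 q.unpair.1

theorem UR_Psi {D : Set (ℕ → ℕ)} : UR D Psi := by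
  have h1 : UR D (fun d q => encode (hist d (2 ^ (lev (Nat.log 2 q.unpair.1) q.unpair.2 + 1)))) :=
    UR.hist.comp (UR.of_computable (primrec_2pow (primrec_addc
      (primrec_lev ((primrec_log (by norm_num)).comp (primrec_unpair1 Primrec.id))
        (primrec_unpair2 Primrec.id)) 1)).to_comp)
  exact UR.list h1 (G := fun q l => gd (lk l) q.unpair.2 q.unpair.1)
    (primrec_gd Primrec.snd (primrec_unpair2 Primrec.fst) (primrec_unpair1 Primrec.fst)).to_comp

/-- the decoding functional -/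
noncomputable def Phi (d : ℕ → ℕ) (x : ℕ) : ℕ := Psi d (Nat.pair x (Kd d (Nat.log 2 x)))

theorem UR_Phi (g : ℕ → ℕ) : UR {d | Coarse (Ab g) d} Phi := by
  have h1 : UR {d | Coarse (Ab g) d} (fun d x => Kd d ((fun _ n => Nat.log 2 n) d x)) :=
    UR.comp (Φ := Kd) (Ψ := fun _ n => Nat.log 2 n) (UR_Kd g)
      (UR.of_computable (primrec_log (by norm_num)).to_comp)
  have h2 : UR {d | Coarse (Ab g) d} (fun (_ : ℕ → ℕ) (x : ℕ) => x) :=
    UR.of_computable (u := fun x => x) Computable.id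
  have h3 := UR.pair h2 h1
  exact UR.comp (Φ := Psi) UR_Psi h3

theorem coarse_Phi {d g : ℕ → ℕ} (hd : Coarse (Ab g) d) : Coarse g (Phi d) := by
  have hd' := hd
  unfold Coarse at hd' ⊢
  rw [dens1_iff] at hd' ⊢
  intro i
  obtain ⟨M, hM⟩ := hd' (2 * (i + 2) + 4)
  refine ⟨max M (i + 3), fun j hj => ?_⟩
  have hjM : M ≤ j := (le_max_left _ _).trans hj
  have hji : i + 3 ≤ j := (le_max_right _ _).trans hj
  set K := Kd d j with hK
  set y := lk (hist d (2 ^ (lev j K + 1))) with hy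
  have hyd : ∀ k ≤ K, ∀ n < 2 ^ (lev j k + 1), y n = d n := by
    intro k hk n hn
    apply lk_hist
    exact lt_of_lt_of_le hn (pow_le_of (by have := lev_mono (j := j) hk; omega))
  have hQ : Qd y j j K := by
    have h := Kd_spec hd j
    unfold Qd at h ⊢
    rw [ones_congr (hyd K le_rfl)]
    exact h
  have herr : ∀ k ≤ K, 2 ^ (2 * (i + 2) + 4) * err y (Ab g) (lev j k) ≤ 2 ^ lev j k := by
    intro k hk
    rw [err_congr (hyd k hk)]
    exact le_trans (Nat.mul_le_mul_left _ (err_le_cntL _ _ _))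
      (hM _ (hjM.trans (le_lev_left j k)))
  have hmain := decode_count (g := g) (by omega) (by omega : i + 2 < j) hQ herr
  have e1 : {n | Phi d n = g n}ᶜ = {x | Phi d x ≠ g x} := rfl
  rw [e1, cntL_eq]
  have h2 : ∑ r ∈ range (2 ^ j), ind (Phi d (2 ^ j + r) ≠ g (2 ^ j + r)) =
      ∑ r ∈ range (2 ^ j), ind (gd y K (2 ^ j + r) ≠ g (2 ^ j + r)) := by
    apply sum_congr rfl
    intro r hr
    have h3 : Phi d (2 ^ j + r) = gd y K (2 ^ j + r) := by
      unfold Phi Psi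
      rw [Nat.unpair_pair]
      simp only
      rw [log_add (mem_range.1 hr)]
    rw [h3]
  rw [h2]
  rw [show i + 2 = i + 2 by rfl, pow_add] at hmain
  have h4 : (2 : ℕ) ^ 2 = 4 := by norm_num
  rw [h4] at hmain
  have h5 : 4 * (2 ^ i * ∑ n ∈ range (2 ^ j), ind (gd y K (2 ^ j + n) ≠ g (2 ^ j + n))) ≤
      4 * 2 ^ j := by
    calc _ = 2 ^ i * 4 * ∑ n ∈ range (2 ^ j), ind (gd y K (2 ^ j + n) ≠ g (2 ^ j + n)) := by ring
      _ ≤ _ := hmain
  exact le_of_mul_le_mul_left h5 (by norm_num)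

theorem UC_g_Ab (g : ℕ → ℕ) : UC g (Ab g) :=
  UC_of_UR (UR_Phi g) (fun _ hd => coarse_Phi hd)

theorem chi_eq_Ab (g : ℕ → ℕ) : chi {x | Ab g x = 1} = Ab g := by
  funext x
  unfold chi
  have h := Ab_lt g x
  by_cases h1 : Ab g x = 1
  · rw [if_pos (show x ∈ {x | Ab g x = 1} from h1), h1]
  · rw [if_neg (show x ∉ {x | Ab g x = 1} from h1)]
    omega

/-- every function is uniformly coarsely equivalent to a set -/
theorem equivSet_uc (g : ℕ → ℕ) : ∃ A : Set ℕ, UC g (chi A) ∧ UC (chi A) g :=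
  ⟨{x | Ab g x = 1}, by rw [chi_eq_Ab]; exact ⟨UC_g_Ab g, UC_Ab g⟩⟩

end Q206.Asy
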