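import Pool.Agent.Q206.Asy.Defs
import Pool.Agent.Q206.Gam.Bad

/-!
# Uniformly computable total functionals
-/

namespace Q206.Asy

open Encodable Q206.Ioe

/-- `Φ` is computed, on the oracles in `D`, by one oracle program. -/
def UR (D : Set (ℕ → ℕ)) (Φ : (ℕ → ℕ) → ℕ → ℕ) : Prop :=
  ∃ c : OCode, ∀ d ∈ D, ∀ n, c.eval d n = Part.some (Φ d n)

variable {D : Set (ℕ → ℕ)}

theorem exists_ocode {f : ℕ →. ℕ} (h : Nat.Partrec f) : ∃ c : OCode, ∀ d, c.eval d = f := by
  induction h with
  | zero => exact ⟨.zero, fun _ => rfl⟩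
  | succ => exact ⟨.succ, fun _ => rfl⟩
  | left => exact ⟨.left, fun _ => rfl⟩
  | right => exact ⟨.right, fun _ => rfl⟩
  | pair _ _ ha hb =>
    obtain ⟨a, ha⟩ := ha
    obtain ⟨b, hb⟩ := hb
    exact ⟨.pair a b, fun d => by simp only [OCode.eval, ha, hb]; try rfl⟩
  | comp _ _ ha hb =>
    obtain ⟨a, ha⟩ := ha
    obtain ⟨b, hb⟩ := hb
    exact ⟨.comp a b, fun d => by simp only [OCode.eval, ha, hb]; try rfl⟩
  | prec _ _ ha hb =>
    obtain ⟨a, ha⟩ := ha
    obtain ⟨b, hb⟩ := hb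
    exact ⟨.prec a b, fun d => by simp only [OCode.eval, ha, hb]; try rfl⟩
  | rfind _ ha =>
    obtain ⟨a, ha⟩ := ha
    exact ⟨.rfind a, fun d => by simp only [OCode.eval, ha]; try rfl⟩

theorem UR.of_computable {u : ℕ → ℕ} (h : Computable u) : UR D (fun _ n => u n) := by
  obtain ⟨c, hc⟩ := exists_ocode (Partrec.nat_iff.1 h)
  exact ⟨c, fun d _ n => by rw [hc d]; try rfl⟩

theorem UR.oracle : UR D (fun d n => d n) := ⟨.oracle, fun _ _ _ => rfl⟩

theorem UR.comp {Φ Ψ : (ℕ → ℕ) → ℕ → ℕ} (h1 : UR D Φ) (h2 : UR D Ψ) :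
    UR D (fun d n => Φ d (Ψ d n)) := by
  obtain ⟨a, ha⟩ := h1
  obtain ⟨b, hb⟩ := h2
  refine ⟨.comp a b, fun d hd n => ?_⟩
  show (b.eval d n).bind (fun i => a.eval d i) = _
  rw [hb d hd n, Part.bind_some, ha d hd]

theorem UR.pair {Φ Ψ : (ℕ → ℕ) → ℕ → ℕ} (h1 : UR D Φ) (h2 : UR D Ψ) :
    UR D (fun d n => Nat.pair (Φ d n) (Ψ d n)) := by
  obtain ⟨a, ha⟩ := h1
  obtain ⟨b, hb⟩ := h2
  refine ⟨.pair a b, fun d hd n => ?_⟩
  show Nat.pair <$> a.eval d n <*> b.eval d n = _
  rw [hb d hd n, ha d hd n]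
  simp [Seq.seq]

theorem UR.hist : UR D (fun d n => encode (hist d n)) := by
  have happ : Computable (fun q : ℕ => encode
      (((decode (α := List ℕ) q.unpair.1).getD []) ++ [q.unpair.2])) := by
    refine Computable.encode.comp ?_
    refine Computable.list_append.comp (computable_decodeList.comp
      (Computable.fst.comp Computable.unpair)) ?_
    exact Computable.list_cons.comp (Computable.snd.comp Computable.unpair)
      (Computable.const [])
  have hstep : UR D (fun d q => (fun q : ℕ => encode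
      (((decode (α := List ℕ) q.unpair.1).getD []) ++ [q.unpair.2]))
      (Nat.pair q.unpair.2.unpair.2 (d q.unpair.2.unpair.1))) := by
    refine (UR.of_computable happ).comp ?_
    refine UR.pair (UR.of_computable ?_) (UR.comp UR.oracle (UR.of_computable ?_))
    · exact Computable.snd.comp (Computable.unpair.comp (Computable.snd.comp Computable.unpair))
    · exact Computable.fst.comp (Computable.unpair.comp (Computable.snd.comp Computable.unpair))
  obtain ⟨c0, hc0⟩ := UR.of_computable (D := D) (Computable.const (encode ([] : List ℕ)))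
  obtain ⟨c1, hc1⟩ := hstep
  obtain ⟨c2, hc2⟩ := UR.of_computable (D := D) (u := fun n : ℕ => Nat.pair 0 n)
    (Primrec₂.natPair.comp (Primrec.const 0) Primrec.id).to_comp
  refine ⟨.comp (.prec c0 c1) c2, fun d hd n => ?_⟩
  show (c2.eval d n).bind (fun i => (OCode.prec c0 c1).eval d i) = _
  rw [hc2 d hd n, Part.bind_some]
  show Nat.rec (motive := fun _ => Part ℕ) (c0.eval d (Nat.pair 0 n).unpair.1) (fun y IH => do
        let i ← IH
        c1.eval d (Nat.pair (Nat.pair 0 n).unpair.1 (Nat.pair y i))) (Nat.pair 0 n).unpair.2 = _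
  simp only [Nat.unpair_pair]
  induction n with
  | zero => rw [hc0 d hd 0]; simp [Ioe.hist]
  | succ n ih =>
    simp only
    rw [ih]
    refine (Part.bind_some _ _).trans ?_
    rw [hc1 d hd]
    refine congrArg Part.some ?_
    simp [hist_succ]

/-- a computable function of the argument and of a uniformly computed list -/
theorem UR.list {L : (ℕ → ℕ) → ℕ → List ℕ} (hL : UR D (fun d n => encode (L d n)))
    {G : ℕ → List ℕ → ℕ} (hG : Computable₂ G) : UR D (fun d n => G n (L d n)) := by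
  have h1 : Computable (fun q : ℕ => G q.unpair.1 ((decode (α := List ℕ) q.unpair.2).getD [])) :=
    hG.comp (Computable.fst.comp Computable.unpair)
      (computable_decodeList.comp (Computable.snd.comp Computable.unpair))
  have h2 := (UR.of_computable (D := D) h1).comp
    (UR.pair (UR.of_computable Computable.id) hL)
  simpa using h2

/-- unbounded search -/
theorem UR.find {Q : (ℕ → ℕ) → ℕ → ℕ} (hQ : UR D Q) (hex : ∀ d ∈ D, ∀ n, ∃ k, Q d (Nat.pair n k) = 0) :
    UR D (fun d n => sInf {k | Q d (Nat.pair n k) = 0}) := by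
  obtain ⟨c, hc⟩ := hQ
  refine ⟨.rfind c, fun d hd n => ?_⟩
  refine Part.eq_some_iff.2 ?_
  have hmem : sInf {k | Q d (Nat.pair n k) = 0} ∈ {k | Q d (Nat.pair n k) = 0} :=
    Nat.sInf_mem (hex d hd n)
  show _ ∈ Nat.rfind (fun k => (fun m => decide (m = 0)) <$> c.eval d (Nat.pair n k))
  refine Nat.mem_rfind.2 ⟨?_, ?_⟩
  · simp only [Part.map_eq_map]
    refine (Part.mem_map_iff _).2 ⟨Q d (Nat.pair n (sInf {k | Q d (Nat.pair n k) = 0})), ?_, ?_⟩
    · rw [hc d hd]; exact Part.mem_some _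
    · simpa using hmem
  · intro m hm
    simp only [Part.map_eq_map]
    refine (Part.mem_map_iff _).2 ⟨Q d (Nat.pair n m), ?_, ?_⟩
    · rw [hc d hd]; exact Part.mem_some _
    · have := Nat.notMem_of_lt_sInf hm
      simpa using this

theorem UC_of_UR {f g : ℕ → ℕ} {Φ : (ℕ → ℕ) → ℕ → ℕ} (h : UR {d | Coarse g d} Φ)
    (h2 : ∀ d, Coarse g d → Coarse f (Φ d)) : UC f g := by
  obtain ⟨c, hc⟩ := h
  exact ⟨c, fun d hd => ⟨Φ d, h2 d hd, funext (hc d hd)⟩⟩

end Q206.Asy
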